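import Pool.Agent.Lib.MP_b07157_agT3.Defs
import Pool.Agent.Lib.MP_b07157_agYW.Defs
import Pool.Agent.Lib.MP_b07157_agYW.Tc

/-!
# The critical orbits of `x_0^3 + x_1^3 + x_2^e P`
-/

noncomputable section

namespace MPb07157

open MvPolynomial

namespace T3

private theorem bin_monomial (i j : ℕ) (α : ℂ) :
    (monomial (ex3 i j 0) α : MvPolynomial (Fin 3) ℂ) = C α * X 0 ^ i * X 1 ^ j := by
  rw [C_mul_X_pow_eq_monomial, X_pow_eq_monomial, monomial_mul, mul_one]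
  unfold ex3
  rw [Finsupp.single_zero, add_zero]

private theorem ex3_apply (i j : ℕ) : (ex3 i j 0 : Fin 3 →₀ ℕ) 0 = i ∧ (ex3 i j 0 : Fin 3 →₀ ℕ) 1 = j ∧
    (ex3 i j 0 : Fin 3 →₀ ℕ) 2 = 0 := by
  refine ⟨?_, ?_, ?_⟩ <;> simp [ex3]

private theorem bin_supp {P : MvPolynomial (Fin 3) ℂ} {s : ℕ} (hP : BinForm P s) {v : Fin 3 →₀ ℕ}
    (hv : coeff v P ≠ 0) : v = ex3 (v 0) (v 1) 0 ∧ v 0 + v 1 = s := by
  have h2 : v 2 = 0 := hP.two v (mem_support_iff.2 hv)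
  have h1 := hP.hom hv
  rw [Finsupp.weight_apply, Finsupp.sum_fintype _ _ (fun i => by simp), Fin.sum_univ_three, h2] at h1
  refine ⟨?_, by simpa using h1⟩
  ext l
  fin_cases l
  · exact (ex3_apply (v 0) (v 1)).1.symm
  · exact (ex3_apply (v 0) (v 1)).2.1.symm
  · exact h2.trans (ex3_apply (v 0) (v 1)).2.2.symm

private theorem bin_two {P : MvPolynomial (Fin 3) ℂ} (hP : BinForm P 2) : ∃ α β γ : ℂ,
    P = C α * X 0 ^ 2 + C β * (X 0 * X 1) + C γ * X 1 ^ 2 := by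
  classical
  refine ⟨coeff (ex3 2 0 0) P, coeff (ex3 1 1 0) P, coeff (ex3 0 2 0) P, ?_⟩
  have e1 := bin_monomial 2 0 (coeff (ex3 2 0 0) P)
  have e2 := bin_monomial 1 1 (coeff (ex3 1 1 0) P)
  have e3 := bin_monomial 0 2 (coeff (ex3 0 2 0) P)
  rw [pow_zero, mul_one] at e1
  rw [pow_one, pow_one, mul_assoc] at e2
  rw [pow_zero, mul_one] at e3
  rw [← e1, ← e2, ← e3]
  ext v
  rw [coeff_add, coeff_add, coeff_monomial, coeff_monomial, coeff_monomial]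
  by_cases hv : coeff v P = 0
  · rw [hv]
    split_ifs with h1 h2 h3 h2 h3 <;> simp_all
  · obtain ⟨h1, h2⟩ := bin_supp hP hv
    have h3 : (v 0 = 2 ∧ v 1 = 0) ∨ (v 0 = 1 ∧ v 1 = 1) ∨ (v 0 = 0 ∧ v 1 = 2) := by omega
    have hne : ∀ i j i' j' : ℕ, i ≠ i' → (ex3 i j 0 : Fin 3 →₀ ℕ) ≠ ex3 i' j' 0 := by
      intro i j i' j' hii h
      apply hii
      rw [← (ex3_apply i j).1, h, (ex3_apply i' j').1]
    rcases h3 with ⟨h4, h5⟩ | ⟨h4, h5⟩ | ⟨h4, h5⟩ <;> rw [h4, h5] at h1 <;> rw [h1]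
    · rw [if_pos rfl, if_neg (hne _ _ _ _ (by decide)), if_neg (hne _ _ _ _ (by decide))]
      ring
    · rw [if_neg (hne _ _ _ _ (by decide)), if_pos rfl, if_neg (hne _ _ _ _ (by decide))]
      ring
    · rw [if_neg (hne _ _ _ _ (by decide)), if_neg (hne _ _ _ _ (by decide)), if_pos rfl]
      ring

private theorem bin_one {P : MvPolynomial (Fin 3) ℂ} (hP : BinForm P 1) : ∃ α β : ℂ,
    P = C α * X 0 + C β * X 1 := by
  classical
  refine ⟨coeff (ex3 1 0 0) P, coeff (ex3 0 1 0) P, ?_⟩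
  have e1 := bin_monomial 1 0 (coeff (ex3 1 0 0) P)
  have e2 := bin_monomial 0 1 (coeff (ex3 0 1 0) P)
  rw [pow_zero, mul_one, pow_one] at e1
  rw [pow_zero, mul_one, pow_one] at e2
  rw [← e1, ← e2]
  ext v
  rw [coeff_add, coeff_monomial, coeff_monomial]
  by_cases hv : coeff v P = 0
  · rw [hv]
    split_ifs with h1 h2 h2 <;> simp_all
  · obtain ⟨h1, h2⟩ := bin_supp hP hv
    have h3 : (v 0 = 1 ∧ v 1 = 0) ∨ (v 0 = 0 ∧ v 1 = 1) := by omega
    have hne : ∀ i j i' j' : ℕ, i ≠ i' → (ex3 i j 0 : Fin 3 →₀ ℕ) ≠ ex3 i' j' 0 := by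
      intro i j i' j' hii h
      apply hii
      rw [← (ex3_apply i j).1, h, (ex3_apply i' j').1]
    rcases h3 with ⟨h4, h5⟩ | ⟨h4, h5⟩ <;> rw [h4, h5] at h1 <;> rw [h1]
    · rw [if_pos rfl, if_neg (hne _ _ _ _ (by decide))]
      ring
    · rw [if_neg (hne _ _ _ _ (by decide)), if_pos rfl]
      ring


/-- The form of degree two. -/
private def P2 (α β γ : ℂ) : MvPolynomial (Fin 3) ℂ :=
  C α * X 0 ^ 2 + C β * (X 0 * X 1) + C γ * X 1 ^ 2

/-- The form of degree one. -/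
private def P1 (α β : ℂ) : MvPolynomial (Fin 3) ℂ := C α * X 0 + C β * X 1

private theorem d0_P2 (e : ℕ) (α β γ : ℂ) : pderiv 0 (gw e (P2 α β γ)) =
    3 * X 0 ^ 2 + X 2 ^ e * (2 * C α * X 0 + C β * X 1) := by
  unfold gw P2
  simp only [map_add, Derivation.leibniz, Derivation.leibniz_pow, pderiv_X_self, smul_eq_mul,
    nsmul_eq_mul, pderiv_C, pderiv_X_of_ne (show (2 : Fin 3) ≠ 0 by decide),
    pderiv_X_of_ne (show (1 : Fin 3) ≠ 0 by decide)]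
  push_cast
  ring

private theorem d1_P2 (e : ℕ) (α β γ : ℂ) : pderiv 1 (gw e (P2 α β γ)) =
    3 * X 1 ^ 2 + X 2 ^ e * (C β * X 0 + 2 * C γ * X 1) := by
  unfold gw P2
  simp only [map_add, Derivation.leibniz, Derivation.leibniz_pow, pderiv_X_self, smul_eq_mul,
    nsmul_eq_mul, pderiv_C, pderiv_X_of_ne (show (2 : Fin 3) ≠ 1 by decide),
    pderiv_X_of_ne (show (0 : Fin 3) ≠ 1 by decide)]
  push_cast
  ring

private theorem d0_P1 (e : ℕ) (α β : ℂ) : pderiv 0 (gw e (P1 α β)) =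
    3 * X 0 ^ 2 + X 2 ^ e * C α := by
  unfold gw P1
  simp only [map_add, Derivation.leibniz, Derivation.leibniz_pow, pderiv_X_self, smul_eq_mul,
    nsmul_eq_mul, pderiv_C, pderiv_X_of_ne (show (2 : Fin 3) ≠ 0 by decide),
    pderiv_X_of_ne (show (1 : Fin 3) ≠ 0 by decide)]
  push_cast
  ring

private theorem d1_P1 (e : ℕ) (α β : ℂ) : pderiv 1 (gw e (P1 α β)) =
    3 * X 1 ^ 2 + X 2 ^ e * C β := by
  unfold gw P1
  simp only [map_add, Derivation.leibniz, Derivation.leibniz_pow, pderiv_X_self, smul_eq_mul,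
    nsmul_eq_mul, pderiv_C, pderiv_X_of_ne (show (2 : Fin 3) ≠ 1 by decide),
    pderiv_X_of_ne (show (0 : Fin 3) ≠ 1 by decide)]
  push_cast
  ring

private theorem e0_P2 (e : ℕ) (α β γ : ℂ) (q : Fin 3 → ℂ) :
    eval q (pderiv 0 (gw e (P2 α β γ))) =
      3 * q 0 ^ 2 + q 2 ^ e * (2 * α * q 0 + β * q 1) := by
  rw [d0_P2]
  simp only [map_add, map_mul, map_pow, eval_X, eval_C, map_ofNat]

private theorem e1_P2 (e : ℕ) (α β γ : ℂ) (q : Fin 3 → ℂ) :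
    eval q (pderiv 1 (gw e (P2 α β γ))) =
      3 * q 1 ^ 2 + q 2 ^ e * (β * q 0 + 2 * γ * q 1) := by
  rw [d1_P2]
  simp only [map_add, map_mul, map_pow, eval_X, eval_C, map_ofNat]

private theorem e0_P1 (e : ℕ) (α β : ℂ) (q : Fin 3 → ℂ) :
    eval q (pderiv 0 (gw e (P1 α β))) = 3 * q 0 ^ 2 + q 2 ^ e * α := by
  rw [d0_P1]
  simp only [map_add, map_mul, map_pow, eval_X, eval_C, map_ofNat]

private theorem e1_P1 (e : ℕ) (α β : ℂ) (q : Fin 3 → ℂ) :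
    eval q (pderiv 1 (gw e (P1 α β))) = 3 * q 1 ^ 2 + q 2 ^ e * β := by
  rw [d1_P1]
  simp only [map_add, map_mul, map_pow, eval_X, eval_C, map_ofNat]

private theorem e00_P2 (e : ℕ) (α β γ : ℂ) (q : Fin 3 → ℂ) :
    eval q (pderiv 0 (pderiv 0 (gw e (P2 α β γ)))) = 6 * q 0 + q 2 ^ e * (2 * α) := by
  rw [d0_P2]
  have h3 : (3 : MvPolynomial (Fin 3) ℂ) = C 3 := (map_ofNat C 3).symm
  have h2 : (2 : MvPolynomial (Fin 3) ℂ) = C 2 := (map_ofNat C 2).symm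
  rw [h3, h2]
  simp only [map_add, Derivation.leibniz, Derivation.leibniz_pow, pderiv_X_self, smul_eq_mul,
    nsmul_eq_mul, pderiv_C, pderiv_X_of_ne (show (2 : Fin 3) ≠ 0 by decide),
    pderiv_X_of_ne (show (1 : Fin 3) ≠ 0 by decide), map_mul, map_pow, eval_X, eval_C,
    map_natCast, map_zero, map_one]
  push_cast
  ring

private theorem e01_P2 (e : ℕ) (α β γ : ℂ) (q : Fin 3 → ℂ) :
    eval q (pderiv 0 (pderiv 1 (gw e (P2 α β γ)))) = q 2 ^ e * β := by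
  rw [d1_P2]
  have h3 : (3 : MvPolynomial (Fin 3) ℂ) = C 3 := (map_ofNat C 3).symm
  have h2 : (2 : MvPolynomial (Fin 3) ℂ) = C 2 := (map_ofNat C 2).symm
  rw [h3, h2]
  simp only [map_add, Derivation.leibniz, Derivation.leibniz_pow, pderiv_X_self, smul_eq_mul,
    nsmul_eq_mul, pderiv_C, pderiv_X_of_ne (show (2 : Fin 3) ≠ 0 by decide),
    pderiv_X_of_ne (show (1 : Fin 3) ≠ 0 by decide), map_mul, map_pow, eval_X, eval_C,
    map_natCast, map_zero, map_one]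
  push_cast
  ring

private theorem e11_P2 (e : ℕ) (α β γ : ℂ) (q : Fin 3 → ℂ) :
    eval q (pderiv 1 (pderiv 1 (gw e (P2 α β γ)))) = 6 * q 1 + q 2 ^ e * (2 * γ) := by
  rw [d1_P2]
  have h3 : (3 : MvPolynomial (Fin 3) ℂ) = C 3 := (map_ofNat C 3).symm
  have h2 : (2 : MvPolynomial (Fin 3) ℂ) = C 2 := (map_ofNat C 2).symm
  rw [h3, h2]
  simp only [map_add, Derivation.leibniz, Derivation.leibniz_pow, pderiv_X_self, smul_eq_mul,
    nsmul_eq_mul, pderiv_C, pderiv_X_of_ne (show (2 : Fin 3) ≠ 1 by decide),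
    pderiv_X_of_ne (show (0 : Fin 3) ≠ 1 by decide), map_mul, map_pow, eval_X, eval_C,
    map_natCast, map_zero, map_one]
  push_cast
  ring

private theorem e00_P1 (e : ℕ) (α β : ℂ) (q : Fin 3 → ℂ) :
    eval q (pderiv 0 (pderiv 0 (gw e (P1 α β)))) = 6 * q 0 := by
  rw [d0_P1]
  have h3 : (3 : MvPolynomial (Fin 3) ℂ) = C 3 := (map_ofNat C 3).symm
  rw [h3]
  simp only [map_add, Derivation.leibniz, Derivation.leibniz_pow, pderiv_X_self, smul_eq_mul,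
    nsmul_eq_mul, pderiv_C, pderiv_X_of_ne (show (2 : Fin 3) ≠ 0 by decide),
    map_mul, map_pow, eval_X, eval_C, map_natCast, map_zero, map_one]
  push_cast
  ring

private theorem e11_P1 (e : ℕ) (α β : ℂ) (q : Fin 3 → ℂ) :
    eval q (pderiv 1 (pderiv 1 (gw e (P1 α β)))) = 6 * q 1 := by
  rw [d1_P1]
  have h3 : (3 : MvPolynomial (Fin 3) ℂ) = C 3 := (map_ofNat C 3).symm
  rw [h3]
  simp only [map_add, Derivation.leibniz, Derivation.leibniz_pow, pderiv_X_self, smul_eq_mul,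
    nsmul_eq_mul, pderiv_C, pderiv_X_of_ne (show (2 : Fin 3) ≠ 1 by decide),
    map_mul, map_pow, eval_X, eval_C, map_natCast, map_zero, map_one]
  push_cast
  ring

private theorem P2_ne {α β γ : ℂ} (h : P2 α β γ ≠ 0) : ¬ (α = 0 ∧ β = 0 ∧ γ = 0) := by
  rintro ⟨rfl, rfl, rfl⟩
  apply h
  unfold P2
  simp

private theorem P1_ne {α β : ℂ} (h : P1 α β ≠ 0) : ¬ (α = 0 ∧ β = 0) := by
  rintro ⟨rfl, rfl⟩
  apply h
  unfold P1
  simp

private theorem ne_of {q : Fin 3 → ℂ} (h : q ≠ 0) : ¬ (q 0 = 0 ∧ q 1 = 0 ∧ q 2 = 0) := by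
  rintro ⟨h0, h1, h2⟩
  apply h
  ext i
  fin_cases i
  · exact h0
  · exact h1
  · exact h2

private theorem q2_ne_P2 {e : ℕ} (he : 2 ≤ e) {α β γ : ℂ} {q : Fin 3 → ℂ} (hq : q ≠ 0)
    (hc : ∀ j, eval q (pderiv j (gw e (P2 α β γ))) = 0) : q 2 ≠ 0 := by
  intro h2
  have c0 := hc 0
  have c1 := hc 1
  rw [e0_P2, h2, zero_pow (by omega)] at c0
  rw [e1_P2, h2, zero_pow (by omega)] at c1
  have h0 : q 0 ^ 2 = 0 := by linear_combination (1 / 3 : ℂ) * c0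
  have h1 : q 1 ^ 2 = 0 := by linear_combination (1 / 3 : ℂ) * c1
  exact ne_of hq ⟨pow_eq_zero_iff (by norm_num) |>.1 h0, pow_eq_zero_iff (by norm_num) |>.1 h1, h2⟩

private theorem q2_ne_P1 {e : ℕ} (he : 2 ≤ e) {α β : ℂ} {q : Fin 3 → ℂ} (hq : q ≠ 0)
    (hc : ∀ j, eval q (pderiv j (gw e (P1 α β))) = 0) : q 2 ≠ 0 := by
  intro h2
  have c0 := hc 0
  have c1 := hc 1
  rw [e0_P1, h2, zero_pow (by omega)] at c0
  rw [e1_P1, h2, zero_pow (by omega)] at c1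
  have h0 : q 0 ^ 2 = 0 := by linear_combination (1 / 3 : ℂ) * c0
  have h1 : q 1 ^ 2 = 0 := by linear_combination (1 / 3 : ℂ) * c1
  exact ne_of hq ⟨pow_eq_zero_iff (by norm_num) |>.1 h0, pow_eq_zero_iff (by norm_num) |>.1 h1, h2⟩

private theorem q01_ne_P1 {e : ℕ} (he : 2 ≤ e) {α β : ℂ} {q : Fin 3 → ℂ} (hq : q ≠ 0)
    (hP : P1 α β ≠ 0) (hc : ∀ j, eval q (pderiv j (gw e (P1 α β))) = 0) :
    q 0 ≠ 0 ∨ q 1 ≠ 0 := by
  by_contra hcon
  push Not at hcon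
  have h2 := pow_ne_zero e (q2_ne_P1 he hq hc)
  have c0 := hc 0
  have c1 := hc 1
  rw [e0_P1, hcon.1] at c0
  rw [e1_P1, hcon.2] at c1
  have hα : q 2 ^ e * α = 0 := by linear_combination c0
  have hβ : q 2 ^ e * β = 0 := by linear_combination c1
  exact P1_ne hP ⟨(mul_eq_zero.1 hα).resolve_left h2, (mul_eq_zero.1 hβ).resolve_left h2⟩

/-- The critical points outside the origin have `q_2 ≠ 0`, and the hessian of the section
`x_2 = q_2` is not zero there. -/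
theorem crit_gw {e s : ℕ} (he : 2 ≤ e) (hs : s = 2 ∨ s = 1) {P : MvPolynomial (Fin 3) ℂ}
    (hP : BinForm P s) {q : Fin 3 → ℂ} (hq : q ≠ 0) (hc : ∀ j, eval q (pderiv j (gw e P)) = 0) :
    q 2 ≠ 0 ∧ ∃ i j : Fin 3, i ≠ 2 ∧ j ≠ 2 ∧ eval q (pderiv i (pderiv j (gw e P))) ≠ 0 := by
  rcases hs with rfl | rfl
  · obtain ⟨α, β, γ, hPe⟩ := bin_two hP
    have hPe' : P = P2 α β γ := hPe
    have hne : P2 α β γ ≠ 0 := hPe' ▸ hP.ne
    rw [hPe'] at hc ⊢
    have h2 := q2_ne_P2 he hq hc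
    refine ⟨h2, ?_⟩
    have h2e := pow_ne_zero e h2
    by_contra hcon
    push Not at hcon
    have k00 := hcon 0 0 (by decide) (by decide)
    have k01 := hcon 0 1 (by decide) (by decide)
    have k11 := hcon 1 1 (by decide) (by decide)
    rw [e00_P2] at k00
    rw [e01_P2] at k01
    rw [e11_P2] at k11
    have hβ : β = 0 := (mul_eq_zero.1 k01).resolve_left h2e
    have c0 := hc 0
    have c1 := hc 1
    rw [e0_P2, hβ] at c0
    rw [e1_P2, hβ] at c1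
    have hq0 : q 0 = - (q 2 ^ e * α) / 3 := by linear_combination (1 / 6 : ℂ) * k00
    have hq1 : q 1 = - (q 2 ^ e * γ) / 3 := by linear_combination (1 / 6 : ℂ) * k11
    have hα2 : (q 2 ^ e * α) ^ 2 = 0 := by
      rw [hq0] at c0
      linear_combination (-3 : ℂ) * c0
    have hγ2 : (q 2 ^ e * γ) ^ 2 = 0 := by
      rw [hq1] at c1
      linear_combination (-3 : ℂ) * c1
    have hα := (mul_eq_zero.1 (pow_eq_zero_iff (by norm_num) |>.1 hα2)).resolve_left h2e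
    have hγ := (mul_eq_zero.1 (pow_eq_zero_iff (by norm_num) |>.1 hγ2)).resolve_left h2e
    exact P2_ne hne ⟨hα, hβ, hγ⟩
  · obtain ⟨α, β, hPe⟩ := bin_one hP
    have hPe' : P = P1 α β := hPe
    have hne : P1 α β ≠ 0 := hPe' ▸ hP.ne
    rw [hPe'] at hc ⊢
    refine ⟨q2_ne_P1 he hq hc, ?_⟩
    rcases q01_ne_P1 he hq hne hc with h | h
    · refine ⟨0, 0, by decide, by decide, ?_⟩
      rw [e00_P1]
      exact mul_ne_zero (by norm_num) h
    · refine ⟨1, 1, by decide, by decide, ?_⟩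
      rw [e11_P1]
      exact mul_ne_zero (by norm_num) h

private theorem finite_quartic (b c d : ℂ) :
    {x : ℂ | 27 * x ^ 4 + b * x ^ 3 + c * x ^ 2 + d * x = 0}.Finite := by
  set p : Polynomial ℂ := Polynomial.C 27 * Polynomial.X ^ 4 + Polynomial.C b * Polynomial.X ^ 3 +
    Polynomial.C c * Polynomial.X ^ 2 + Polynomial.C d * Polynomial.X with hp
  have hc4 : p.coeff 4 = 27 := by
    rw [hp]
    simp only [Polynomial.coeff_add, Polynomial.coeff_C_mul, Polynomial.coeff_X_pow,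
      Polynomial.coeff_X]
    norm_num
  have hp0 : p ≠ 0 := by
    intro h
    rw [h, Polynomial.coeff_zero] at hc4
    norm_num at hc4
  refine (p.rootSet_finite ℂ).subset ?_
  intro x hx
  rw [Polynomial.mem_rootSet]
  refine ⟨hp0, ?_⟩
  rw [hp]
  simp only [map_add, map_mul, map_pow, Polynomial.aeval_X, Polynomial.aeval_C,
    Algebra.algebraMap_self, RingHom.id_apply]
  exact hx

private theorem finite_square (d : ℂ) : {x : ℂ | 3 * x ^ 2 + d = 0}.Finite := by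
  refine (finite_quartic 0 (9 * d) 0).subset ?_
  intro x hx
  have h : 3 * x ^ 2 + d = 0 := hx
  show 27 * x ^ 4 + 0 * x ^ 3 + 9 * d * x ^ 2 + 0 * x = 0
  linear_combination 9 * x ^ 2 * h

private theorem exists_t {s : ℕ} (hs : s = 2 ∨ s = 1) {z : ℂ} (hz : z ≠ 0) :
    ∃ t : ℂ, t ≠ 0 ∧ t ^ (3 - s) = z := by
  obtain ⟨t, ht⟩ := IsAlgClosed.exists_pow_nat_eq z (n := 3 - s) (by omega)
  refine ⟨t, ?_, ht⟩
  rintro rfl
  rw [zero_pow (by omega)] at ht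
  exact hz ht.symm

private theorem sc_eq {e s : ℕ} {t x y : ℂ} {q : Fin 3 → ℂ} (h0 : q 0 = t ^ e * x)
    (h1 : q 1 = t ^ e * y) (h2 : q 2 = t ^ (3 - s)) : q = YW.sc (wts e s) t ![x, y, 1] := by
  ext i
  unfold YW.sc wts
  fin_cases i
  · simpa using h0
  · simpa using h1
  · simpa using h2

/-- The finite set of representatives. -/
private theorem fin_of {e s : ℕ} {A B : Set ℂ} (hA : A.Finite) (hB : B.Finite)
    {G : MvPolynomial (Fin 3) ℂ}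
    (H : ∀ q : Fin 3 → ℂ, q ≠ 0 → (∀ j, eval q (pderiv j G) = 0) →
      ∃ t x y : ℂ, x ∈ A ∧ y ∈ B ∧ q 0 = t ^ e * x ∧ q 1 = t ^ e * y ∧ q 2 = t ^ (3 - s)) :
    ∃ P : Finset (Fin 3 → ℂ), ∀ q, q ≠ 0 → (∀ j, eval q (pderiv j G) = 0) →
      ∃ p ∈ P, ∃ t : ℂ, q = YW.sc (wts e s) t p := by
  classical
  refine ⟨(hA.toFinset ×ˢ hB.toFinset).image (fun z => ![z.1, z.2, 1]), ?_⟩
  intro q hq hc
  obtain ⟨t, x, y, hx, hy, h0, h1, h2⟩ := H q hq hc
  refine ⟨![x, y, 1], ?_, t, sc_eq h0 h1 h2⟩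
  rw [Finset.mem_image]
  exact ⟨(x, y), Finset.mem_product.2 ⟨hA.mem_toFinset.2 hx, hB.mem_toFinset.2 hy⟩, rfl⟩

private theorem fin_P2 {e : ℕ} (he : 2 ≤ e) (α β γ : ℂ) :
    ∃ P : Finset (Fin 3 → ℂ), ∀ q, q ≠ 0 → (∀ j, eval q (pderiv j (gw e (P2 α β γ))) = 0) →
      ∃ p ∈ P, ∃ t : ℂ, q = YW.sc (wts e 2) t p := by
  refine fin_of (finite_quartic (36 * α) (12 * α ^ 2 - 6 * γ * β) (β ^ 3 - 4 * α * β * γ))
    (finite_quartic (36 * γ) (12 * γ ^ 2 - 6 * α * β) (β ^ 3 - 4 * α * β * γ)) ?_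
  intro q hq hc
  have h2 := q2_ne_P2 he hq hc
  have h2e := pow_ne_zero e h2
  have c0 := hc 0
  have c1 := hc 1
  rw [e0_P2] at c0
  rw [e1_P2] at c1
  obtain ⟨x, hx⟩ : ∃ x, q 0 = q 2 ^ e * x := ⟨q 0 / q 2 ^ e, by field_simp⟩
  obtain ⟨y, hy⟩ : ∃ y, q 1 = q 2 ^ e * y := ⟨q 1 / q 2 ^ e, by field_simp⟩
  rw [hx, hy] at c0 c1
  have d0 : 3 * x ^ 2 + (2 * α * x + β * y) = 0 := by
    have h : (q 2 ^ e) ^ 2 * (3 * x ^ 2 + (2 * α * x + β * y)) = 0 := by linear_combination c0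
    exact (mul_eq_zero.1 h).resolve_left (pow_ne_zero 2 h2e)
  have d1 : 3 * y ^ 2 + (β * x + 2 * γ * y) = 0 := by
    have h : (q 2 ^ e) ^ 2 * (3 * y ^ 2 + (β * x + 2 * γ * y)) = 0 := by linear_combination c1
    exact (mul_eq_zero.1 h).resolve_left (pow_ne_zero 2 h2e)
  refine ⟨q 2, x, y, ?_, ?_, hx, hy, (pow_one _).symm⟩
  · show 27 * x ^ 4 + 36 * α * x ^ 3 + (12 * α ^ 2 - 6 * γ * β) * x ^ 2 +
      (β ^ 3 - 4 * α * β * γ) * x = 0
    linear_combination β ^ 2 * d1 + (3 * (3 * x ^ 2 + 2 * α * x) - 3 * (β * y) - 2 * γ * β) * d0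
  · show 27 * y ^ 4 + 36 * γ * y ^ 3 + (12 * γ ^ 2 - 6 * α * β) * y ^ 2 +
      (β ^ 3 - 4 * α * β * γ) * y = 0
    linear_combination β ^ 2 * d0 + (3 * (3 * y ^ 2 + 2 * γ * y) - 3 * (β * x) - 2 * α * β) * d1

private theorem fin_P1 {e : ℕ} (he : 2 ≤ e) (α β : ℂ) :
    ∃ P : Finset (Fin 3 → ℂ), ∀ q, q ≠ 0 → (∀ j, eval q (pderiv j (gw e (P1 α β))) = 0) →
      ∃ p ∈ P, ∃ t : ℂ, q = YW.sc (wts e 1) t p := by
  refine fin_of (finite_square α) (finite_square β) ?_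
  intro q hq hc
  have h2 := q2_ne_P1 he hq hc
  obtain ⟨t, ht0, ht⟩ := exists_t (s := 1) (Or.inr rfl) h2
  have hte := pow_ne_zero e ht0
  have c0 := hc 0
  have c1 := hc 1
  rw [e0_P1] at c0
  rw [e1_P1] at c1
  obtain ⟨x, hx⟩ : ∃ x, q 0 = t ^ e * x := ⟨q 0 / t ^ e, by field_simp⟩
  obtain ⟨y, hy⟩ : ∃ y, q 1 = t ^ e * y := ⟨q 1 / t ^ e, by field_simp⟩
  have hz : q 2 ^ e = (t ^ e) ^ 2 := by
    rw [← ht, ← pow_mul, ← pow_mul, mul_comm]
  rw [hx, hz] at c0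
  rw [hy, hz] at c1
  refine ⟨t, x, y, ?_, ?_, hx, hy, ht.symm⟩
  · have h : (t ^ e) ^ 2 * (3 * x ^ 2 + α) = 0 := by linear_combination c0
    exact (mul_eq_zero.1 h).resolve_left (pow_ne_zero 2 hte)
  · have h : (t ^ e) ^ 2 * (3 * y ^ 2 + β) = 0 := by linear_combination c1
    exact (mul_eq_zero.1 h).resolve_left (pow_ne_zero 2 hte)

private theorem gw_ne {e : ℕ} (he : 2 ≤ e) (P : MvPolynomial (Fin 3) ℂ) :
    gw e P ≠ 0 := by
  intro h
  have h1 := congrArg (eval (![1, 0, 0] : Fin 3 → ℂ)) h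
  unfold gw at h1
  simp [zero_pow (show e ≠ 0 by omega)] at h1

/-- The conditions `WC` for `g`. -/
theorem wc_of_gw {g P : MvPolynomial (Fin 3) ℂ} {e s : ℕ} (he : 2 ≤ e)
    (hs : s = 2 ∨ (s = 1 ∧ Odd e)) (hP : BinForm P s)
    (hlow : ∀ v ∈ g.support, 3 * e ≤ ∑ i, wts e s i * v i)
    (hg : weightedHomogeneousComponent (wts e s) (3 * e) g = gw e P) :
    YW.WC g (wts e s) (3 * e) := by
  have hLF : YW.LF g (wts e s) (3 * e) = gw e P := by
    rw [YW.LF_eq]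
    exact hg
  refine ⟨?_, ?_, by omega, ?_, ?_, ?_, ?_⟩
  · intro i
    unfold wts
    fin_cases i
    · show 0 < e
      omega
    · show 0 < e
      omega
    · show 0 < 3 - s
      omega
  · intro i
    unfold wts
    fin_cases i
    · show e < 3 * e
      omega
    · show e < 3 * e
      omega
    · show 3 - s < 3 * e
      omega
  · intro v hv
    exact hlow v hv
  · rw [hLF]
    exact gw_ne he P
  · rw [hLF]
    rcases hs with rfl | ⟨rfl, ho⟩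
    · obtain ⟨α, β, γ, hPe⟩ := bin_two hP
      have hPe' : P = P2 α β γ := hPe
      rw [hPe']
      exact fin_P2 he α β γ
    · obtain ⟨α, β, hPe⟩ := bin_one hP
      have hPe' : P = P1 α β := hPe
      rw [hPe']
      exact fin_P1 he α β
  · rw [hLF]
    intro q hq hc m hm
    rcases hs with rfl | ⟨rfl, ho⟩
    · have h2 := (crit_gw he (Or.inl rfl) hP hq hc).1
      have h := hm 2 h2
      have h' : m ∣ 1 := h
      exact Nat.dvd_one.1 h'
    · have h2 := (crit_gw he (Or.inr rfl) hP hq hc).1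
      have h : m ∣ 2 := hm 2 h2
      obtain ⟨α, β, hPe⟩ := bin_one hP
      have hPe' : P = P1 α β := hPe
      have hne : P1 α β ≠ 0 := hPe' ▸ hP.ne
      rw [hPe'] at hc
      have hme : m ∣ e := by
        rcases q01_ne_P1 he hq hne hc with h0 | h0
        · exact hm 0 h0
        · exact hm 1 h0
      have hcop : Nat.Coprime 2 e := (Nat.coprime_two_left).2 ho
      exact Nat.dvd_one.1 (hcop ▸ Nat.dvd_gcd h hme)

end T3

end MPb07157
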