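import Pool.Agent.Lib.MP_b07157_agT3.Defs
import Pool.Agent.Lib.MP_b07157_agM.IFT

/-!
# The Tschirnhausen form
-/

noncomputable section

namespace MPb07157

open MvPolynomial

namespace T3

namespace Ts

/-- The series `g` at `x_i = 0`, `i ∈ S`. -/
def killF (S : Finset (Fin 3)) (g : MvPowerSeries (Fin 3) ℂ) : MvPowerSeries (Fin 3) ℂ :=
  fun v => if ∀ i ∈ S, v i = 0 then MvPowerSeries.coeff v g else 0

theorem coeff_killF (S : Finset (Fin 3)) (g : MvPowerSeries (Fin 3) ℂ) (v : Fin 3 →₀ ℕ) :
    MvPowerSeries.coeff v (killF S g) = if ∀ i ∈ S, v i = 0 then MvPowerSeries.coeff v g else 0 :=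
  rfl

theorem killF_mul (S : Finset (Fin 3)) (g h : MvPowerSeries (Fin 3) ℂ) :
    killF S (g * h) = killF S g * killF S h := by
  classical
  ext v
  rw [coeff_killF, MvPowerSeries.coeff_mul, MvPowerSeries.coeff_mul]
  split_ifs with hv
  · refine Finset.sum_congr rfl fun p hp => ?_
    rw [Finset.HasAntidiagonal.mem_antidiagonal] at hp
    have h1 : ∀ i, p.1 i + p.2 i = v i := fun i => by rw [← hp]; rfl
    rw [coeff_killF, coeff_killF, if_pos, if_pos]
    · intro i hi
      have := h1 i
      have := hv i hi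
      omega
    · intro i hi
      have := h1 i
      have := hv i hi
      omega
  · symm
    refine Finset.sum_eq_zero fun p hp => ?_
    rw [Finset.HasAntidiagonal.mem_antidiagonal] at hp
    have h1 : ∀ i, p.1 i + p.2 i = v i := fun i => by rw [← hp]; rfl
    rw [coeff_killF, coeff_killF]
    split_ifs with h2 h3
    · exfalso
      apply hv
      intro i hi
      have := h1 i
      have := h2 i hi
      have := h3 i hi
      omega
    · rw [mul_zero]
    · rw [zero_mul]
    · rw [zero_mul]

theorem killF_C (S : Finset (Fin 3)) (c : ℂ) :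
    killF S (MvPowerSeries.C c) = MvPowerSeries.C c := by
  classical
  ext v
  rw [coeff_killF, MvPowerSeries.coeff_C]
  split_ifs with h1 h2 h2
  · rfl
  · rfl
  · exfalso
    apply h1
    intro i _
    rw [h2]
    rfl
  · rfl

/-- The substitution `x_i ↦ 0`, `i ∈ S`. -/
def kill (S : Finset (Fin 3)) : MvPowerSeries (Fin 3) ℂ →ₐ[ℂ] MvPowerSeries (Fin 3) ℂ where
  toFun := killF S
  map_one' := by
    have := killF_C S 1
    rwa [map_one] at this
  map_mul' := killF_mul S
  map_zero' := by
    have := killF_C S 0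
    rwa [map_zero] at this
  map_add' := by
    intro g h
    ext v
    rw [coeff_killF, map_add, map_add, coeff_killF, coeff_killF]
    split_ifs
    · rfl
    · rw [add_zero]
  commutes' := by
    intro c
    exact killF_C S c

theorem coeff_kill (S : Finset (Fin 3)) (g : MvPowerSeries (Fin 3) ℂ) (v : Fin 3 →₀ ℕ) :
    MvPowerSeries.coeff v (kill S g) = if ∀ i ∈ S, v i = 0 then MvPowerSeries.coeff v g else 0 :=
  rfl

theorem kill_X (S : Finset (Fin 3)) (j : Fin 3) :
    kill S (MvPowerSeries.X j) = if j ∈ S then 0 else MvPowerSeries.X j := by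
  classical
  ext v
  rw [coeff_kill]
  split_ifs with h1 h2 h2
  · rw [MvPowerSeries.coeff_X, if_neg, map_zero]
    rintro rfl
    have := h1 j h2
    rw [Finsupp.single_eq_same] at this
    exact one_ne_zero this
  · rfl
  · rw [map_zero]
  · rw [MvPowerSeries.coeff_X, if_neg]
    rintro rfl
    apply h1
    intro i hi
    rw [Finsupp.single_eq_of_ne]
    rintro rfl
    exact h2 hi

theorem kill_kill (S T : Finset (Fin 3)) (hST : S ⊆ T) (g : MvPowerSeries (Fin 3) ℂ) :
    kill S (kill T g) = kill T g := by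
  ext v
  rw [coeff_kill, coeff_kill]
  split_ifs with h1 h2 h2
  · rfl
  · rfl
  · exact absurd (fun i hi => h2 i (hST hi)) h1
  · rfl

/-- Algebra homomorphisms and polynomials. -/
theorem hom_coe (θ : MvPowerSeries (Fin 3) ℂ →ₐ[ℂ] MvPowerSeries (Fin 3) ℂ)
    (p : MvPolynomial (Fin 3) ℂ) :
    θ (p : MvPowerSeries (Fin 3) ℂ) =
      aeval (fun i => θ (MvPowerSeries.X i : MvPowerSeries (Fin 3) ℂ)) p := by
  induction p using MvPolynomial.induction_on with
  | C a =>
    rw [MvPolynomial.coe_C, MvPolynomial.aeval_C]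
    exact θ.commutes a
  | add p q hp hq => rw [MvPolynomial.coe_add, map_add, hp, hq, map_add]
  | mul_X p j hp => rw [MvPolynomial.coe_mul, map_mul, hp, map_mul, MvPolynomial.coe_X, aeval_X]

theorem hom_aeval (θ : MvPowerSeries (Fin 3) ℂ →ₐ[ℂ] MvPowerSeries (Fin 3) ℂ)
    (c : Fin 3 → MvPowerSeries (Fin 3) ℂ) (p : MvPolynomial (Fin 3) ℂ) :
    θ (aeval c p) = aeval (fun i => θ (c i)) p := by
  induction p using MvPolynomial.induction_on with
  | C a =>
    rw [MvPolynomial.aeval_C, MvPolynomial.aeval_C]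
    exact θ.commutes a
  | add p q hp hq => rw [map_add, map_add, hp, hq, map_add]
  | mul_X p j hp => rw [map_mul, map_mul, hp, map_mul, aeval_X, aeval_X]

theorem taylor {R : Type*} [CommRing R] [Algebra ℂ R] (b : Fin 3 → R) (i : Fin 3) (t : R)
    (f : MvPolynomial (Fin 3) ℂ) :
    ∃ g : R, aeval (Function.update b i (b i + t)) f = aeval b f + t * aeval b (pderiv i f) +
      t ^ 2 * (algebraMap ℂ R (1 / 2) * aeval b (pderiv i (pderiv i f))) + t ^ 3 * g := by
  classical
  have h2 : (2 : R) * algebraMap ℂ R (1 / 2) = 1 := by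
    rw [← map_ofNat (algebraMap ℂ R) 2, ← map_mul]
    norm_num
  induction f using MvPolynomial.induction_on with
  | C a => exact ⟨0, by simp⟩
  | add p q hp hq =>
    obtain ⟨g, hg⟩ := hp
    obtain ⟨h, hh⟩ := hq
    refine ⟨g + h, ?_⟩
    simp only [map_add, hg, hh]
    ring
  | mul_X p j hp =>
    obtain ⟨g, hg⟩ := hp
    by_cases hj : j = i
    · subst hj
      refine ⟨algebraMap ℂ R (1 / 2) * aeval b (pderiv j (pderiv j p)) + g * (b j + t), ?_⟩
      rw [map_mul, hg, aeval_X, Function.update_self, pderiv_mul, pderiv_X_self, mul_one,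
        map_add (pderiv j), pderiv_mul, pderiv_X_self, mul_one]
      simp only [map_mul, map_add, aeval_X]
      linear_combination -(t ^ 2 * aeval b (pderiv j p)) * h2
    · refine ⟨g * b j, ?_⟩
      rw [map_mul, hg, aeval_X, Function.update_of_ne hj, pderiv_mul, pderiv_X_of_ne hj, mul_zero,
        add_zero, pderiv_mul, pderiv_X_of_ne hj, mul_zero, add_zero]
      simp only [map_mul, aeval_X]
      ring

theorem coeff_tsch (f : MvPolynomial (Fin 3) ℂ) {i : Fin 3} (hi : i ∈ ({0, 1} : Finset (Fin 3)))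
    {b c : Fin 3 → MvPowerSeries (Fin 3) ℂ} (hc : ∀ j, kill {i} (c j) = c j)
    (hcb : ∀ j, kill {0, 1} (c j) = b j) (hb : aeval b (pderiv i (pderiv i f)) = 0) (k : ℕ) :
    MvPowerSeries.coeff (Finsupp.single i 2 + Finsupp.single 2 k)
      (aeval (Function.update c i (c i + MvPowerSeries.X i)) f : MvPowerSeries (Fin 3) ℂ) = 0 := by
  classical
  have hi2 : i ≠ 2 := by
    rintro rfl
    simp at hi
  obtain ⟨g, hg⟩ := taylor c i (MvPowerSeries.X i) f
  have hk : ∀ (p : MvPolynomial (Fin 3) ℂ) (v : Fin 3 →₀ ℕ), v i ≠ 0 →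
      MvPowerSeries.coeff v (aeval c p : MvPowerSeries (Fin 3) ℂ) = 0 := by
    intro p v hv
    have h1 : kill {i} (aeval c p) = aeval c p := by
      rw [hom_aeval]
      have : (fun j => kill {i} (c j)) = c := funext hc
      rw [this]
    rw [← h1, coeff_kill, if_neg]
    intro h
    exact hv (h i (Finset.mem_singleton_self i))
  rw [hg]
  simp only [map_add]
  have e1 : MvPowerSeries.coeff (Finsupp.single i 2 + Finsupp.single 2 k)
      (aeval c f : MvPowerSeries (Fin 3) ℂ) = 0 := by
    apply hk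
    simp
  have e2 : MvPowerSeries.coeff (Finsupp.single i 2 + Finsupp.single 2 k)
      (MvPowerSeries.X i * aeval c (pderiv i f) : MvPowerSeries (Fin 3) ℂ) = 0 := by
    rw [MvPowerSeries.X, MvPowerSeries.coeff_monomial_mul]
    split_ifs
    · rw [hk, mul_zero]
      simp [hi2.symm]
    · rfl
  have e3 : MvPowerSeries.coeff (Finsupp.single i 2 + Finsupp.single 2 k)
      (MvPowerSeries.X i ^ 2 * (algebraMap ℂ (MvPowerSeries (Fin 3) ℂ) (1 / 2) *
        aeval c (pderiv i (pderiv i f))) : MvPowerSeries (Fin 3) ℂ) = 0 := by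
    rw [MvPowerSeries.X_pow_eq, MvPowerSeries.coeff_monomial_mul]
    split_ifs
    · have h1 : kill {0, 1} (algebraMap ℂ (MvPowerSeries (Fin 3) ℂ) (1 / 2) *
          aeval c (pderiv i (pderiv i f))) = 0 := by
        rw [map_mul, hom_aeval]
        simp only [hcb]
        rw [hb, mul_zero]
      have h2 : Finsupp.single i 2 + Finsupp.single 2 k - Finsupp.single i 2 =
          (Finsupp.single 2 k : Fin 3 →₀ ℕ) := add_tsub_cancel_left _ _
      rw [h2]
      have h3 : MvPowerSeries.coeff (Finsupp.single 2 k) (kill {0, 1}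
          (algebraMap ℂ (MvPowerSeries (Fin 3) ℂ) (1 / 2) *
          aeval c (pderiv i (pderiv i f)))) = MvPowerSeries.coeff (Finsupp.single 2 k)
          (algebraMap ℂ (MvPowerSeries (Fin 3) ℂ) (1 / 2) *
          aeval c (pderiv i (pderiv i f))) := by
        rw [coeff_kill, if_pos]
        intro j hj
        rw [Finsupp.single_eq_of_ne]
        rintro rfl
        simp at hj
      rw [← h3, h1, map_zero, mul_zero]
    · rfl
  have e4 : MvPowerSeries.coeff (Finsupp.single i 2 + Finsupp.single 2 k)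
      (MvPowerSeries.X i ^ 3 * g : MvPowerSeries (Fin 3) ℂ) = 0 := by
    rw [MvPowerSeries.X_pow_eq, MvPowerSeries.coeff_monomial_mul, if_neg]
    intro h
    have := h i
    simp [hi2.symm] at this
  rw [e1, e2, e3, e4]
  simp

end Ts

open Ts in
/-- The coefficients of `x_0^2 x_2^k` and `x_1^2 x_2^k` can be killed. Proof: `(1/6) ∂_0^2 f`,
`(1/6) ∂_1^2 f`, `x_2` are formal coordinates (`IFT.exists_equiv`), `e X_0 = (1/6) ∂_0^2 f`, …; let
`H_i = e.symm X_i`; `φ`, `ψ` are the restrictions of `H_0`, `H_1` to `x_0 = x_1 = 0`. The coefficient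
of `x_0^2 x_2^k` in `f(x_0 + φ, x_1 + ψ, x_2)` is half the coefficient of `x_2^k` in
`(∂_0^2 f)(φ, ψ, x_2)`. -/
theorem exists_tsch {f : MvPolynomial (Fin 3) ℂ} (hf : Nf f) :
    ∃ φ ψ : MvPowerSeries (Fin 3) ℂ, Zs φ ∧ Zs ψ ∧
      ∀ k, MvPowerSeries.coeff (ex3 2 0 k) (aeval (sh φ ψ) f : MvPowerSeries (Fin 3) ℂ) = 0 ∧
        MvPowerSeries.coeff (ex3 0 2 k) (aeval (sh φ ψ) f : MvPowerSeries (Fin 3) ℂ) = 0 := by
  classical
  have hc3 : ∀ v : Fin 3 →₀ ℕ, v.degree = 3 → coeff v f = coeff v (X 0 ^ 3 + X 1 ^ 3) := by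
    intro v hv
    rw [← hf.three, coeff_homogeneousComponent, if_pos hv]
  have hlow : ∀ v : Fin 3 →₀ ℕ, v.degree < 3 → coeff v f = 0 := by
    intro v hv
    have := congrArg (coeff v) (hf.low _ hv)
    rwa [coeff_homogeneousComponent, if_pos rfl, coeff_zero] at this
  have hlin : ∀ i ∈ ({0, 1} : Finset (Fin 3)), ∀ j : Fin 3,
      coeff (Finsupp.single j 1) (pderiv i (pderiv i f)) = if j = i then 6 else 0 := by
    intro i hi j
    rw [coeff_pderiv, coeff_pderiv, hc3 _ (by simp [Finsupp.degree_single])]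
    rw [coeff_add, coeff_X_pow, coeff_X_pow]
    simp only [Finset.mem_insert, Finset.mem_singleton] at hi
    rcases hi with rfl | rfl <;> fin_cases j <;>
      simp [Finsupp.ext_iff, Fin.forall_fin_succ, Finsupp.single_apply] <;> norm_num
  have hcon : ∀ i : Fin 3, coeff 0 (pderiv i (pderiv i f)) = 0 := by
    intro i
    rw [coeff_pderiv, coeff_pderiv, hlow _ (by simp [Finsupp.degree_single]), zero_mul, zero_mul]
  set a : Fin 3 → MvPowerSeries (Fin 3) ℂ :=
    ![((pderiv 0 (pderiv 0 f) : MvPolynomial (Fin 3) ℂ) : MvPowerSeries (Fin 3) ℂ),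
      ((pderiv 1 (pderiv 1 f) : MvPolynomial (Fin 3) ℂ) : MvPowerSeries (Fin 3) ℂ),
      MvPowerSeries.X 2] with ha
  have ha0 : a 0 = ((pderiv 0 (pderiv 0 f) : MvPolynomial (Fin 3) ℂ) : MvPowerSeries (Fin 3) ℂ) :=
    rfl
  have ha1 : a 1 = ((pderiv 1 (pderiv 1 f) : MvPolynomial (Fin 3) ℂ) : MvPowerSeries (Fin 3) ℂ) :=
    rfl
  have ha2 : a 2 = MvPowerSeries.X 2 := rfl
  have hac : ∀ i, MvPowerSeries.constantCoeff (a i) = 0 := by
    intro i
    fin_cases i
    · show MvPowerSeries.constantCoeff (a 0) = 0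
      rw [ha0, ← MvPowerSeries.coeff_zero_eq_constantCoeff_apply, MvPolynomial.coeff_coe, hcon]
    · show MvPowerSeries.constantCoeff (a 1) = 0
      rw [ha1, ← MvPowerSeries.coeff_zero_eq_constantCoeff_apply, MvPolynomial.coeff_coe, hcon]
    · show MvPowerSeries.constantCoeff (a 2) = 0
      rw [ha2, MvPowerSeries.constantCoeff_X]
  have hJ : (Matrix.of fun i j => MvPowerSeries.coeff (Finsupp.single j 1) (a i)).det ≠ 0 := by
    have h0 : ∀ j, MvPowerSeries.coeff (Finsupp.single j 1) (a 0) = if j = 0 then 6 else 0 := by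
      intro j
      rw [ha0, MvPolynomial.coeff_coe, hlin 0 (by simp)]
    have h1 : ∀ j, MvPowerSeries.coeff (Finsupp.single j 1) (a 1) = if j = 1 then 6 else 0 := by
      intro j
      rw [ha1, MvPolynomial.coeff_coe, hlin 1 (by simp)]
    have h2 : ∀ j : Fin 3, MvPowerSeries.coeff (Finsupp.single j 1) (a 2) =
        if j = 2 then (1 : ℂ) else 0 := by
      intro j
      rw [ha2, MvPowerSeries.coeff_X]
      fin_cases j <;> simp [Finsupp.ext_iff, Fin.forall_fin_succ, Finsupp.single_apply]
    rw [Matrix.det_fin_three]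
    simp only [Matrix.of_apply, h0, h1, h2]
    norm_num [Fin.ext_iff]
  obtain ⟨e, he⟩ := IFT.exists_equiv hac hJ
  have heX : ∀ i, e (MvPowerSeries.X i) = a i := by
    intro i
    have := he (X i)
    rwa [MvPolynomial.coe_X, aeval_X] at this
  set b : Fin 3 → MvPowerSeries (Fin 3) ℂ :=
    ![kill {0, 1} (e.symm (MvPowerSeries.X 0)), kill {0, 1} (e.symm (MvPowerSeries.X 1)),
      MvPowerSeries.X 2] with hbdef
  set θ : MvPowerSeries (Fin 3) ℂ →ₐ[ℂ] MvPowerSeries (Fin 3) ℂ :=
    (kill {0, 1}).comp e.symm.toAlgHom with hθ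
  have hθa : ∀ g, θ g = kill {0, 1} (e.symm g) := fun g => rfl
  have hθX : (fun i => θ (MvPowerSeries.X i)) = b := by
    funext i
    rw [hθa]
    fin_cases i
    · rfl
    · rfl
    · show kill {0, 1} (e.symm (MvPowerSeries.X 2)) = MvPowerSeries.X 2
      have h1 : e.symm (MvPowerSeries.X 2) = MvPowerSeries.X 2 := by
        rw [AlgEquiv.symm_apply_eq, heX, ha2]
      rw [h1, kill_X, if_neg (by simp)]
  have hθp : ∀ p : MvPolynomial (Fin 3) ℂ, θ (p : MvPowerSeries (Fin 3) ℂ) = aeval b p := by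
    intro p
    rw [hom_coe, hθX]
  have hb0 : ∀ i ∈ ({0, 1} : Finset (Fin 3)), aeval b (pderiv i (pderiv i f)) = 0 := by
    intro i hi
    rw [← hθp, hθa]
    have h1 : ((pderiv i (pderiv i f) : MvPolynomial (Fin 3) ℂ) : MvPowerSeries (Fin 3) ℂ) =
        e (MvPowerSeries.X i) := by
      rw [heX]
      simp only [Finset.mem_insert, Finset.mem_singleton] at hi
      rcases hi with rfl | rfl
      · rw [ha0]
      · rw [ha1]
    rw [h1, AlgEquiv.symm_apply_apply, kill_X, if_pos hi]
  -- no constant terms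
  have hcc : ∀ i, MvPowerSeries.constantCoeff (e.symm (MvPowerSeries.X i)) = 0 := by
    intro i
    by_contra hne
    have h1 : IsUnit (e.symm (MvPowerSeries.X i)) :=
      MvPowerSeries.isUnit_iff_constantCoeff.2 (isUnit_iff_ne_zero.2 hne)
    have h2 := h1.map e
    rw [AlgEquiv.apply_symm_apply] at h2
    have h3 := MvPowerSeries.isUnit_iff_constantCoeff.1 h2
    rw [MvPowerSeries.constantCoeff_X] at h3
    exact not_isUnit_zero h3
  have hkc : ∀ g : MvPowerSeries (Fin 3) ℂ, MvPowerSeries.constantCoeff (kill {0, 1} g) =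
      MvPowerSeries.constantCoeff g := by
    intro g
    rw [← MvPowerSeries.coeff_zero_eq_constantCoeff_apply, coeff_kill, if_pos,
      MvPowerSeries.coeff_zero_eq_constantCoeff_apply]
    intro i _
    rfl
  have hbc : ∀ i, MvPowerSeries.constantCoeff (b i) = 0 := by
    intro i
    fin_cases i
    · show MvPowerSeries.constantCoeff (kill {0, 1} (e.symm (MvPowerSeries.X 0))) = 0
      rw [hkc, hcc]
    · show MvPowerSeries.constantCoeff (kill {0, 1} (e.symm (MvPowerSeries.X 1))) = 0
      rw [hkc, hcc]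
    · show MvPowerSeries.constantCoeff (MvPowerSeries.X 2) = 0
      rw [MvPowerSeries.constantCoeff_X]
  -- the orders
  have hord : ∀ i ∈ ({0, 1} : Finset (Fin 3)), IFT.Ge 2 (b i) := by
    intro i hi
    have hr : IFT.Ge 2 (((pderiv i (pderiv i f) : MvPolynomial (Fin 3) ℂ) :
        MvPowerSeries (Fin 3) ℂ) - MvPowerSeries.C 6 * MvPowerSeries.X i) := by
      intro v hv
      have hv' : v.degree = 0 ∨ v.degree = 1 := by omega
      rcases hv' with h0 | h1
      · rw [Finsupp.degree_eq_zero_iff] at h0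
        subst h0
        rw [map_sub, MvPolynomial.coeff_coe, hcon, MvPowerSeries.coeff_C_mul]
        simp
      · obtain ⟨l, rfl⟩ := IFT.exists_single h1
        rw [map_sub, MvPolynomial.coeff_coe, hlin i hi, MvPowerSeries.coeff_C_mul,
          MvPowerSeries.coeff_X]
        by_cases hl : l = i
        · subst hl
          simp
        · rw [if_neg hl, if_neg]
          · simp
          · intro h
            exact hl (Finsupp.single_left_injective one_ne_zero h)
    have h1 := hr.phi hbc
    rw [map_sub, map_mul] at h1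
    have h2 : IFT.phi hbc ((pderiv i (pderiv i f) : MvPolynomial (Fin 3) ℂ) :
        MvPowerSeries (Fin 3) ℂ) = aeval b (pderiv i (pderiv i f)) := by
      unfold IFT.phi
      rw [MvPowerSeries.substAlgHom_coe]
    have h3 : IFT.phi hbc (MvPowerSeries.X i) = b i := by
      unfold IFT.phi
      rw [MvPowerSeries.substAlgHom_X]
    have h4 : IFT.phi hbc (MvPowerSeries.C 6) = MvPowerSeries.C 6 :=
      (IFT.phi hbc).commutes 6
    rw [h2, h3, h4, hb0 i hi, zero_sub] at h1
    intro v hv
    have h5 := h1 v hv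
    rw [map_neg, MvPowerSeries.coeff_C_mul, neg_eq_zero, mul_eq_zero] at h5
    exact h5.resolve_left (by norm_num)
  have hzs : ∀ (i : Fin 3) (hi : i ∈ ({0, 1} : Finset (Fin 3))) (g : MvPowerSeries (Fin 3) ℂ),
      b i = kill {0, 1} g → Zs (b i) := by
    intro i hi g hg v hv
    by_cases h : v 0 = 0 ∧ v 1 = 0
    · apply hord i hi
      rw [Finsupp.degree_eq_sum, Fin.sum_univ_three]
      omega
    · rw [hg, coeff_kill, if_neg]
      intro h1
      exact h ⟨h1 0 (by simp), h1 1 (by simp)⟩
  refine ⟨b 0, b 1, hzs 0 (by simp) _ rfl, hzs 1 (by simp) _ rfl, fun k => ⟨?_, ?_⟩⟩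
  · have h1 := coeff_tsch f (i := 0) (by simp) (b := b)
      (c := ![b 0, MvPowerSeries.X 1 + b 1, MvPowerSeries.X 2]) ?_ ?_ (hb0 0 (by simp)) k
    · have h2 : ex3 2 0 k = Finsupp.single 0 2 + Finsupp.single 2 k := by
        unfold ex3
        rw [Finsupp.single_zero, add_zero]
      rw [h2]
      have h3 : sh (b 0) (b 1) = Function.update ![b 0, MvPowerSeries.X 1 + b 1, MvPowerSeries.X 2] 0
          ((![b 0, MvPowerSeries.X 1 + b 1, MvPowerSeries.X 2] : Fin 3 → MvPowerSeries (Fin 3) ℂ) 0
            + MvPowerSeries.X 0) := by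
        funext j
        fin_cases j
        · exact add_comm _ _
        · rfl
        · rfl
      rw [h3]
      exact h1
    · intro j
      fin_cases j
      · exact kill_kill {0} {0, 1} (by simp) _
      · show kill {0} (MvPowerSeries.X 1 + b 1) = MvPowerSeries.X 1 + b 1
        rw [map_add, kill_X, if_neg (by simp)]
        congr 1
        exact kill_kill {0} {0, 1} (by simp) _
      · show kill {0} (MvPowerSeries.X 2) = MvPowerSeries.X 2
        rw [kill_X, if_neg (by simp)]
    · intro j
      fin_cases j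
      · exact kill_kill {0, 1} {0, 1} (by simp) _
      · show kill {0, 1} (MvPowerSeries.X 1 + b 1) = b 1
        rw [map_add, kill_X, if_pos (by simp), zero_add]
        exact kill_kill {0, 1} {0, 1} (by simp) _
      · show kill {0, 1} (MvPowerSeries.X 2) = MvPowerSeries.X 2
        rw [kill_X, if_neg (by simp)]
  · have h1 := coeff_tsch f (i := 1) (by simp) (b := b)
      (c := ![MvPowerSeries.X 0 + b 0, b 1, MvPowerSeries.X 2]) ?_ ?_ (hb0 1 (by simp)) k
    · have h2 : ex3 0 2 k = Finsupp.single 1 2 + Finsupp.single 2 k := by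
        unfold ex3
        rw [Finsupp.single_zero, zero_add]
      rw [h2]
      have h3 : sh (b 0) (b 1) = Function.update ![MvPowerSeries.X 0 + b 0, b 1, MvPowerSeries.X 2] 1
          ((![MvPowerSeries.X 0 + b 0, b 1, MvPowerSeries.X 2] : Fin 3 → MvPowerSeries (Fin 3) ℂ) 1
            + MvPowerSeries.X 1) := by
        funext j
        fin_cases j
        · rfl
        · exact add_comm _ _
        · rfl
      rw [h3]
      exact h1
    · intro j
      fin_cases j
      · show kill {1} (MvPowerSeries.X 0 + b 0) = MvPowerSeries.X 0 + b 0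
        rw [map_add, kill_X, if_neg (by simp)]
        congr 1
        exact kill_kill {1} {0, 1} (by simp) _
      · exact kill_kill {1} {0, 1} (by simp) _
      · show kill {1} (MvPowerSeries.X 2) = MvPowerSeries.X 2
        rw [kill_X, if_neg (by simp)]
    · intro j
      fin_cases j
      · show kill {0, 1} (MvPowerSeries.X 0 + b 0) = b 0
        rw [map_add, kill_X, if_pos (by simp), zero_add]
        exact kill_kill {0, 1} {0, 1} (by simp) _
      · exact kill_kill {0, 1} {0, 1} (by simp) _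
      · show kill {0, 1} (MvPowerSeries.X 2) = MvPowerSeries.X 2
        rw [kill_X, if_neg (by simp)]

end T3

end MPb07157
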