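import Pool.Agent.Lib.MP_b07157_agT3.Defs
import Pool.Agent.Lib.MP_b07157_agT3.Tsch

/-!
# The 3-jet is not changed by `x_0 ↦ x_0 + φ`, `x_1 ↦ x_1 + ψ`
-/

noncomputable section

namespace MPb07157

open MvPolynomial

namespace T3

open IFT

/-- `A` and `A'` agree up to terms of degree `> a`, and have no terms of degree `< a`. -/
def Cl (a : ℕ) (A A' : MvPowerSeries (Fin 3) ℂ) : Prop := Ge a A ∧ Ge (a + 1) (A' - A)

theorem Cl.right {a : ℕ} {A A' : MvPowerSeries (Fin 3) ℂ} (h : Cl a A A') : Ge a A' := by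
  have h1 := (h.2.mono (Nat.le_succ a)).add h.1
  rwa [sub_add_cancel] at h1

theorem Cl.mul {a b : ℕ} {A A' B B' : MvPowerSeries (Fin 3) ℂ} (hA : Cl a A A') (hB : Cl b B B') :
    Cl (a + b) (A * B) (A' * B') := by
  refine ⟨hA.1.mul hB.1, ?_⟩
  have e1 : A' * B' - A * B = (A' - A) * B' + A * (B' - B) := by ring
  rw [e1]
  refine Ge.add ?_ ?_
  · have := hA.2.mul hB.right
    rwa [show a + 1 + b = a + b + 1 by ring] at this
  · have := hA.1.mul hB.2
    rwa [← add_assoc] at this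

theorem Cl.one : Cl 0 (1 : MvPowerSeries (Fin 3) ℂ) 1 := by
  refine ⟨ge_zero _, ?_⟩
  rw [sub_self]
  exact Ge.zero _

theorem Cl.pow {A A' : MvPowerSeries (Fin 3) ℂ} (hA : Cl 1 A A') (j : ℕ) :
    Cl j (A ^ j) (A' ^ j) := by
  induction j with
  | zero =>
    rw [pow_zero, pow_zero]
    exact Cl.one
  | succ j ih =>
    rw [pow_succ, pow_succ]
    exact ih.mul hA

theorem ge_X (i : Fin 3) : Ge 1 (MvPowerSeries.X i : MvPowerSeries (Fin 3) ℂ) :=
  ge_one_iff.2 (MvPowerSeries.constantCoeff_X i)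

theorem Zs.ge {φ : MvPowerSeries (Fin 3) ℂ} (h : Zs φ) : Ge 2 φ := by
  intro v hv
  apply h
  rw [Finsupp.degree_eq_sum, Fin.sum_univ_three] at hv
  omega

theorem cl_sh {φ ψ : MvPowerSeries (Fin 3) ℂ} (hφ : Zs φ) (hψ : Zs ψ) (i : Fin 3) :
    Cl 1 (MvPowerSeries.X i) (sh φ ψ i) := by
  refine ⟨ge_X i, ?_⟩
  fin_cases i
  · show Ge 2 (MvPowerSeries.X 0 + φ - MvPowerSeries.X 0)
    rw [add_sub_cancel_left]
    exact hφ.ge
  · show Ge 2 (MvPowerSeries.X 1 + ψ - MvPowerSeries.X 1)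
    rw [add_sub_cancel_left]
    exact hψ.ge
  · show Ge 2 (MvPowerSeries.X 2 - MvPowerSeries.X 2)
    rw [sub_self]
    exact Ge.zero _

/-- The terms of degree at most 3 of a polynomial of order 3 are not changed. -/
theorem coeff_sh {f : MvPolynomial (Fin 3) ℂ} (hlow : ∀ j < 3, homogeneousComponent j f = 0)
    {φ ψ : MvPowerSeries (Fin 3) ℂ} (hφ : Zs φ) (hψ : Zs ψ) {v : Fin 3 →₀ ℕ} (hv : v.degree ≤ 3) :
    MvPowerSeries.coeff v (aeval (sh φ ψ) f : MvPowerSeries (Fin 3) ℂ) = coeff v f := by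
  classical
  have key : Ge 4 ((aeval (sh φ ψ) f : MvPowerSeries (Fin 3) ℂ) -
      (f : MvPowerSeries (Fin 3) ℂ)) := by
    have e1 := Ts.hom_coe (AlgHom.id ℂ _) f
    rw [AlgHom.id_apply] at e1
    simp only [AlgHom.id_apply] at e1
    rw [e1, aeval_def, aeval_def, eval₂_eq', eval₂_eq', ← Finset.sum_sub_distrib]
    refine Ge.sum _ _ fun u hu => ?_
    have hu3 : 3 ≤ u.degree := by
      by_contra hcon
      push Not at hcon
      have h2 := congrArg (coeff u) (hlow _ hcon)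
      rw [coeff_homogeneousComponent, if_pos rfl, coeff_zero] at h2
      exact (mem_support_iff.1 hu) h2
    have h3 : Cl (u 0 + u 1 + u 2) (∏ i, (MvPowerSeries.X i : MvPowerSeries (Fin 3) ℂ) ^ u i)
        (∏ i, sh φ ψ i ^ u i) := by
      rw [Fin.prod_univ_three, Fin.prod_univ_three]
      exact (((cl_sh hφ hψ 0).pow _).mul ((cl_sh hφ hψ 1).pow _)).mul ((cl_sh hφ hψ 2).pow _)
    rw [← mul_sub]
    refine Ge.C_mul _ (h3.2.mono ?_)
    rw [Finsupp.degree_eq_sum, Fin.sum_univ_three] at hu3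
    omega
  have h1 := key v (by omega)
  rw [map_sub, MvPolynomial.coeff_coe, sub_eq_zero] at h1
  exact h1

end T3

end MPb07157
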