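import Pool.Agent.Lib.MP_b07157_agT3.Defs
import Pool.Agent.Lib.MP_b07157_agM.IFT
import Pool.Agent.Lib.MP_b07157_agR.Cor

/-!
# Three planes through a smooth curve
-/

noncomputable section

namespace MPb07157

open MvPolynomial

namespace T3

/-- A cubic with the hessian `s (x + a y) (y + b x)` is a sum of two cubes. -/
private theorem cubes_aux {R : Type} [CommRing R] {U0 u1 u2 U3 a b D : R}
    (hS1 : U0 * a - u1 * (1 + a * b) + u2 * b = 0) (hS2 : u1 * a - u2 * (1 + a * b) + U3 * b = 0)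
    (hD : D * (1 - a ^ 3 * b ^ 3) = 1) (x y : R) :
    U0 * x ^ 3 + 3 * u1 * x ^ 2 * y + 3 * u2 * x * y ^ 2 + U3 * y ^ 3 =
      D * (U0 - b ^ 3 * U3) * (x + a * y) ^ 3 + D * (U3 - a ^ 3 * U0) * (y + b * x) ^ 3 := by
  linear_combination (-(U0 * x ^ 3 + 3 * u1 * x ^ 2 * y + 3 * u2 * x * y ^ 2 + U3 * y ^ 3)) * hD -
    3 * D * (1 - a * b) * ((1 + a * b) * x ^ 2 * y + a * x * y ^ 2) * hS1 -
    3 * D * (1 - a * b) * (b * x ^ 2 * y + (1 + a * b) * x * y ^ 2) * hS2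

private theorem exists_inv {s : MvPowerSeries (Fin 3) ℂ} (h : MvPowerSeries.constantCoeff s = 1) :
    ∃ t : MvPowerSeries (Fin 3) ℂ, s * t = 1 ∧ MvPowerSeries.constantCoeff t = 1 := by
  have h1 : IsUnit s := MvPowerSeries.isUnit_iff_constantCoeff.2 (by rw [h]; exact isUnit_one)
  obtain ⟨u, hu⟩ := h1
  refine ⟨(u⁻¹ : (MvPowerSeries (Fin 3) ℂ)ˣ), ?_, ?_⟩
  · rw [← hu, Units.mul_inv]
  · have h2 : MvPowerSeries.constantCoeff ((u : MvPowerSeries (Fin 3) ℂ) *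
        ((u⁻¹ : (MvPowerSeries (Fin 3) ℂ)ˣ) : MvPowerSeries (Fin 3) ℂ)) = 1 := by
      rw [Units.mul_inv, map_one]
    rw [map_mul, hu, h, one_mul] at h2
    exact h2

/-- the hessian covariant -/
private theorem exists_ab {U0 u1 u2 U3 : MvPowerSeries (Fin 3) ℂ}
    (h0 : MvPowerSeries.constantCoeff U0 = 1) (h1 : MvPowerSeries.constantCoeff u1 = 0)
    (h2 : MvPowerSeries.constantCoeff u2 = 0) (h3 : MvPowerSeries.constantCoeff U3 = 1) :
    ∃ a b : MvPowerSeries (Fin 3) ℂ, MvPowerSeries.constantCoeff a = 0 ∧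
      MvPowerSeries.constantCoeff b = 0 ∧ U0 * a - u1 * (1 + a * b) + u2 * b = 0 ∧
      u1 * a - u2 * (1 + a * b) + U3 * b = 0 := by
  obtain ⟨p, hp⟩ : ∃ p, p = U0 * u2 - u1 ^ 2 := ⟨_, rfl⟩
  obtain ⟨q, hq⟩ : ∃ q, q = U0 * U3 - u1 * u2 := ⟨_, rfl⟩
  obtain ⟨r, hr⟩ : ∃ r, r = u1 * U3 - u2 ^ 2 := ⟨_, rfl⟩
  have hp0 : MvPowerSeries.constantCoeff p = 0 := by
    rw [hp, map_sub, map_mul, map_pow, h0, h1, h2]
    norm_num
  have hq0 : MvPowerSeries.constantCoeff q = 1 := by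
    rw [hq, map_sub, map_mul, map_mul, h0, h1, h2, h3]
    norm_num
  have hr0 : MvPowerSeries.constantCoeff r = 0 := by
    rw [hr, map_sub, map_mul, map_pow, h1, h2, h3]
    norm_num
  obtain ⟨δ, hδ0, hδ⟩ := ARL.exists_root (N := 2) (by norm_num) (U := q ^ 2 - 4 * p * r) (by
    rw [map_sub, map_pow, map_mul, map_mul, hp0, hq0, hr0]
    norm_num)
  obtain ⟨h, hh⟩ : ∃ h : MvPowerSeries (Fin 3) ℂ, h = MvPowerSeries.C (1 / 2 : ℂ) := ⟨_, rfl⟩
  have h2h : 2 * h = 1 := by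
    have : (2 : MvPowerSeries (Fin 3) ℂ) = MvPowerSeries.C (2 : ℂ) := by
      rw [map_ofNat]
    rw [this, hh, ← map_mul]
    norm_num
  obtain ⟨s, hs⟩ : ∃ s, s = h * (q + δ) := ⟨_, rfl⟩
  have hs0 : MvPowerSeries.constantCoeff s = 1 := by
    rw [hs, map_mul, map_add, hq0, hδ0, hh, MvPowerSeries.constantCoeff_C]
    norm_num
  obtain ⟨t, hst, ht0⟩ := exists_inv hs0
  have hsq : s ^ 2 - q * s + p * r = 0 := by
    rw [hs]
    linear_combination h ^ 2 * hδ + (h * q * (q + δ) - p * r * (1 + 2 * h)) * h2h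
  have hq1 : q = s * (1 + t * r * (t * p)) := by
    linear_combination (-t) * hsq + (s - q - t * p * r) * hst
  have syz1 : U0 * r - u1 * q + u2 * p = 0 := by
    rw [hp, hq, hr]
    ring
  have syz2 : u1 * r - u2 * q + U3 * p = 0 := by
    rw [hp, hq, hr]
    ring
  refine ⟨t * r, t * p, ?_, ?_, ?_, ?_⟩
  · rw [map_mul, hr0, mul_zero]
  · rw [map_mul, hp0, mul_zero]
  · linear_combination t * syz1 + t * u1 * hq1 + u1 * (1 + t * r * (t * p)) * hst
  · linear_combination t * syz2 + t * u2 * hq1 + u2 * (1 + t * r * (t * p)) * hst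

private theorem exists_div {φ : MvPowerSeries (Fin 3) ℂ} (w : Fin 3 →₀ ℕ)
    (h : ∀ v : Fin 3 →₀ ℕ, ¬ w ≤ v → MvPowerSeries.coeff v φ = 0) :
    ∃ ψ : MvPowerSeries (Fin 3) ℂ, φ = MvPowerSeries.monomial w 1 * ψ ∧
      MvPowerSeries.constantCoeff ψ = MvPowerSeries.coeff w φ := by
  classical
  obtain ⟨ψ, hψ⟩ : ∃ ψ : MvPowerSeries (Fin 3) ℂ,
      ∀ v, MvPowerSeries.coeff v ψ = MvPowerSeries.coeff (v + w) φ :=
    ⟨fun v => MvPowerSeries.coeff (v + w) φ, fun v => rfl⟩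
  refine ⟨ψ, ?_, ?_⟩
  · ext v
    rw [MvPowerSeries.coeff_monomial_mul]
    by_cases hv : w ≤ v
    · rw [if_pos hv, one_mul, hψ, tsub_add_cancel_of_le hv]
    · rw [if_neg hv, h v hv]
  · rw [← MvPowerSeries.coeff_zero_eq_constantCoeff_apply, hψ, zero_add]

private theorem monomial_ex3 (i j : ℕ) : (MvPowerSeries.monomial (ex3 i j 0) (1 : ℂ)) =
    MvPowerSeries.X 0 ^ i * MvPowerSeries.X 1 ^ j := by
  rw [MvPowerSeries.X_pow_eq, MvPowerSeries.X_pow_eq, MvPowerSeries.monomial_mul_monomial, mul_one]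
  congr 1
  unfold ex3
  rw [Finsupp.single_zero, add_zero]

private theorem ex3_le {i j : ℕ} {v : Fin 3 →₀ ℕ} : ex3 i j 0 ≤ v ↔ i ≤ v 0 ∧ j ≤ v 1 := by
  rw [Finsupp.le_def]
  constructor
  · intro h
    have h0 := h 0
    have h1 := h 1
    simp [ex3] at h0 h1
    exact ⟨h0, h1⟩
  · rintro ⟨h0, h1⟩ l
    fin_cases l <;> simp [ex3, h0, h1]

/-- the decomposition of an element of `(x_0, x_1)^3` -/
private theorem exists_decomp {G : MvPowerSeries (Fin 3) ℂ}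
    (hG : ∀ v : Fin 3 →₀ ℕ, v 0 + v 1 < 3 → MvPowerSeries.coeff v G = 0) :
    ∃ U0 U1 U2 U3 : MvPowerSeries (Fin 3) ℂ,
      G = U0 * MvPowerSeries.X 0 ^ 3 + U1 * MvPowerSeries.X 0 ^ 2 * MvPowerSeries.X 1 +
        U2 * MvPowerSeries.X 0 * MvPowerSeries.X 1 ^ 2 + U3 * MvPowerSeries.X 1 ^ 3 ∧
      MvPowerSeries.constantCoeff U0 = MvPowerSeries.coeff (ex3 3 0 0) G ∧
      MvPowerSeries.constantCoeff U1 = MvPowerSeries.coeff (ex3 2 1 0) G ∧
      MvPowerSeries.constantCoeff U2 = MvPowerSeries.coeff (ex3 1 2 0) G ∧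
      MvPowerSeries.constantCoeff U3 = MvPowerSeries.coeff (ex3 0 3 0) G := by
  classical
  obtain ⟨F, hF⟩ : ∃ F : (ℕ → Prop) → MvPowerSeries (Fin 3) ℂ,
      ∀ (q : ℕ → Prop) (v : Fin 3 →₀ ℕ), MvPowerSeries.coeff v (F q) =
        if q (v 0) then MvPowerSeries.coeff v G else 0 :=
    ⟨fun q v => if q (v 0) then MvPowerSeries.coeff v G else 0, fun q v => rfl⟩
  have hex : ∀ i j : ℕ, (ex3 i j 0 : Fin 3 →₀ ℕ) 0 = i := by
    intro i j
    simp [ex3]
  have key : ∀ (q : ℕ → Prop) (i j : ℕ), (∀ a b, q a → 3 ≤ a + b → i ≤ a ∧ j ≤ b) → q i →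
      ∃ ψ : MvPowerSeries (Fin 3) ℂ, F q = MvPowerSeries.X 0 ^ i * MvPowerSeries.X 1 ^ j * ψ ∧
        MvPowerSeries.constantCoeff ψ = MvPowerSeries.coeff (ex3 i j 0) G := by
    intro q i j hq hqi
    obtain ⟨ψ, h1, h2⟩ := exists_div (φ := F q) (ex3 i j 0) (fun v hv => by
      rw [hF]
      split_ifs with h
      · refine hG v ?_
        by_contra hc
        exact hv (ex3_le.2 (hq (v 0) (v 1) h (by omega)))
      · rfl)
    refine ⟨ψ, by rw [h1, monomial_ex3], ?_⟩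
    rw [h2, hF, hex, if_pos hqi]
  obtain ⟨U0, e0, c0⟩ := key (fun a => 3 ≤ a) 3 0 (fun a b h1 h2 => ⟨h1, Nat.zero_le _⟩) le_rfl
  obtain ⟨U1, e1, c1⟩ := key (fun a => a = 2) 2 1
    (fun a b h1 h2 => ⟨by omega, by omega⟩) rfl
  obtain ⟨U2, e2, c2⟩ := key (fun a => a = 1) 1 2
    (fun a b h1 h2 => ⟨by omega, by omega⟩) rfl
  obtain ⟨U3, e3, c3⟩ := key (fun a => a = 0) 0 3
    (fun a b h1 h2 => ⟨by omega, by omega⟩) rfl
  refine ⟨U0, U1, U2, U3, ?_, c0, c1, c2, c3⟩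
  have hsum : G = F (fun a => 3 ≤ a) + F (fun a => a = 2) + F (fun a => a = 1) +
      F (fun a => a = 0) := by
    ext v
    rw [map_add, map_add, map_add, hF (fun a => 3 ≤ a) v, hF (fun a => a = 2) v,
      hF (fun a => a = 1) v, hF (fun a => a = 0) v]
    have h4 : 3 ≤ v 0 ∨ v 0 = 2 ∨ v 0 = 1 ∨ v 0 = 0 := by omega
    rcases h4 with h | h | h | h
    · rw [if_pos h, if_neg (by omega), if_neg (by omega), if_neg (by omega)]
      ring
    · rw [if_neg (by omega), if_pos h, if_neg (by omega), if_neg (by omega)]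
      ring
    · rw [if_neg (by omega), if_neg (by omega), if_pos h, if_neg (by omega)]
      ring
    · rw [if_neg (by omega), if_neg (by omega), if_neg (by omega), if_pos h]
      ring
  rw [hsum, e0, e1, e2, e3]
  ring

private theorem coeff_one_mul (l : Fin 3) (f g : MvPowerSeries (Fin 3) ℂ) :
    MvPowerSeries.coeff (Finsupp.single l 1) (f * g) =
      MvPowerSeries.constantCoeff f * MvPowerSeries.coeff (Finsupp.single l 1) g +
        MvPowerSeries.coeff (Finsupp.single l 1) f * MvPowerSeries.constantCoeff g := by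
  rw [MvPowerSeries.coeff_mul, Finsupp.antidiagonal_single, Finset.sum_map,
    Finset.Nat.antidiagonal_succ, Finset.sum_cons, Finset.Nat.antidiagonal_zero,
    Finset.map_singleton, Finset.sum_singleton]
  simp

private theorem coeff_one_X (l j : Fin 3) : MvPowerSeries.coeff (Finsupp.single l 1)
    (MvPowerSeries.X j : MvPowerSeries (Fin 3) ℂ) = if l = j then 1 else 0 := by
  classical
  rw [MvPowerSeries.coeff_X]
  by_cases h : l = j
  · rw [if_pos h, if_pos (by rw [h])]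
  · rw [if_neg h, if_neg]
    intro h2
    exact h (Finsupp.single_left_injective one_ne_zero h2)

/-- a product `α (x + a y)`, `α(0) = 1`, `a(0) = 0` -/
private theorem lin_part {α a : MvPowerSeries (Fin 3) ℂ} (hα : MvPowerSeries.constantCoeff α = 1)
    (ha : MvPowerSeries.constantCoeff a = 0) (i j l : Fin 3) :
    MvPowerSeries.constantCoeff (α * (MvPowerSeries.X i + a * MvPowerSeries.X j)) = 0 ∧
    MvPowerSeries.coeff (Finsupp.single l 1) (α * (MvPowerSeries.X i + a * MvPowerSeries.X j)) =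
      if l = i then 1 else 0 := by
  constructor
  · rw [map_mul, map_add, map_mul, MvPowerSeries.constantCoeff_X, MvPowerSeries.constantCoeff_X]
    ring
  · rw [coeff_one_mul, map_add, coeff_one_mul, coeff_one_X, hα, ha, map_add, map_mul,
      MvPowerSeries.constantCoeff_X, MvPowerSeries.constantCoeff_X]
    ring

private theorem exists_omega : ∃ w : ℂ, w ^ 2 + w + 1 = 0 ∧ w ^ 2 - w ≠ 0 := by
  obtain ⟨t, ht⟩ := IsAlgClosed.exists_pow_nat_eq (-3 : ℂ) (n := 2) (by norm_num)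
  refine ⟨(-1 + t) / 2, ?_, ?_⟩
  · linear_combination ht / 4
  · have h1 : ((-1 + t) / 2) ^ 2 - (-1 + t) / 2 = -t := by
      linear_combination ht / 4
    rw [h1]
    intro h2
    have h3 : t = 0 := neg_eq_zero.1 h2
    rw [h3] at ht
    norm_num at ht

/-- A power series in `(x_0, x_1)^3` with the 3-jet `x_0^3 + x_1^3` is a product of three planes in
suitable formal coordinates. Proof: `G = U_0 x_0^3 + U_1 x_0^2 x_1 + U_2 x_0 x_1^2 + U_3 x_1^3`,
`U_0(0) = U_3(0) = 1`, `U_1(0) = U_2(0) = 0`. Either the roots of `U_0 T^3 + U_1 T^2 + U_2 T + U_3`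
(Hensel), `G = U_0 ∏ (x_0 - r_i x_1)`, `u = (r_2 - r_3) (x_0 - r_1 x_1)`,
`v = (r_3 - r_1) (x_0 - r_2 x_1)`, `u + v = (r_2 - r_1) (x_0 - r_3 x_1)`; or Cardano: the hessian
covariant is `unit * (x_0 + a x_1) (x_1 + b x_0)` (`ARL.exists_root`, `N = 2`), and
`G = A (x_0 + a x_1)^3 + B (x_1 + b x_0)^3` with units `A`, `B` (`ARL.exists_root`, `N = 3`);
`x^3 + y^3 = -(ω (x + ω y)) (ω² (x + ω² y)) (ω (x + ω y) + ω² (x + ω² y))`. -/
theorem exists_equiv_inf {G : MvPowerSeries (Fin 3) ℂ}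
    (hG : ∀ v : Fin 3 →₀ ℕ, v 0 + v 1 < 3 → MvPowerSeries.coeff v G = 0)
    (h0 : MvPowerSeries.coeff (ex3 3 0 0) G = 1) (h1 : MvPowerSeries.coeff (ex3 2 1 0) G = 0)
    (h2 : MvPowerSeries.coeff (ex3 1 2 0) G = 0) (h3 : MvPowerSeries.coeff (ex3 0 3 0) G = 1) :
    ∃ (E : MvPowerSeries (Fin 3) ℂ ≃ₐ[ℂ] MvPowerSeries (Fin 3) ℂ)
      (u : (MvPowerSeries (Fin 3) ℂ)ˣ),
      G = u * E ((X 0 * X 1 * (X 0 + X 1) : MvPolynomial (Fin 3) ℂ) :
        MvPowerSeries (Fin 3) ℂ) := by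
  obtain ⟨U0, U1, U2, U3, hdec, c0, c1, c2, c3⟩ := exists_decomp hG
  rw [h0] at c0
  rw [h1] at c1
  rw [h2] at c2
  rw [h3] at c3
  obtain ⟨z, hz⟩ : ∃ z : MvPowerSeries (Fin 3) ℂ, z = MvPowerSeries.C (1 / 3 : ℂ) := ⟨_, rfl⟩
  have h3z : 3 * z = 1 := by
    have : (3 : MvPowerSeries (Fin 3) ℂ) = MvPowerSeries.C (3 : ℂ) := by
      rw [map_ofNat]
    rw [this, hz, ← map_mul]
    norm_num
  obtain ⟨a, b, ha, hb, hS1, hS2⟩ := exists_ab (U0 := U0) (u1 := z * U1) (u2 := z * U2)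
    (U3 := U3) c0 (by rw [map_mul, c1, mul_zero]) (by rw [map_mul, c2, mul_zero]) c3
  obtain ⟨D, hD, hD0⟩ := exists_inv (s := 1 - a ^ 3 * b ^ 3) (by
    rw [map_sub, map_mul, map_pow, map_pow, ha, hb, map_one]
    norm_num)
  obtain ⟨α, hα0, hα⟩ := ARL.exists_root (N := 3) (by norm_num) (U := D * (U0 - b ^ 3 * U3)) (by
    rw [map_mul, map_sub, map_mul, map_pow, hD0, c0, hb]
    norm_num)
  obtain ⟨β, hβ0, hβ⟩ := ARL.exists_root (N := 3) (by norm_num) (U := D * (U3 - a ^ 3 * U0)) (by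
    rw [map_mul, map_sub, map_mul, map_pow, hD0, c3, ha]
    norm_num)
  obtain ⟨ω, hω, hω'⟩ := exists_omega
  obtain ⟨x, hx⟩ : ∃ x, x = α * (MvPowerSeries.X 0 + a * MvPowerSeries.X 1) := ⟨_, rfl⟩
  obtain ⟨y, hy⟩ : ∃ y, y = β * (MvPowerSeries.X 1 + b * MvPowerSeries.X 0) := ⟨_, rfl⟩
  have hGxy : G = x ^ 3 + y ^ 3 := by
    have h4 := cubes_aux hS1 hS2 (by rw [mul_comm]; exact hD) (MvPowerSeries.X 0)
      (MvPowerSeries.X 1)
    rw [hx, hy, mul_pow, mul_pow, hα, hβ, ← h4, hdec]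
    linear_combination (-(U1 * MvPowerSeries.X 0 ^ 2 * MvPowerSeries.X 1 +
      U2 * MvPowerSeries.X 0 * MvPowerSeries.X 1 ^ 2)) * h3z
  obtain ⟨w, hw⟩ : ∃ w : MvPowerSeries (Fin 3) ℂ, w = MvPowerSeries.C ω := ⟨_, rfl⟩
  have hw1 : w ^ 2 + w + 1 = 0 := by
    rw [hw, ← map_pow, ← map_add, ← map_one (MvPowerSeries.C (σ := Fin 3) (R := ℂ)), ← map_add, hω,
      map_zero]
  have hx0 : MvPowerSeries.constantCoeff x = 0 := by
    rw [hx]
    exact (lin_part hα0 ha 0 1 0).1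
  have hy0 : MvPowerSeries.constantCoeff y = 0 := by
    rw [hy]
    exact (lin_part hβ0 hb 1 0 0).1
  have hx1 : ∀ l, MvPowerSeries.coeff (Finsupp.single l 1) x = if l = 0 then 1 else 0 := by
    intro l
    rw [hx]
    exact (lin_part hα0 ha 0 1 l).2
  have hy1 : ∀ l, MvPowerSeries.coeff (Finsupp.single l 1) y = if l = 1 then 1 else 0 := by
    intro l
    rw [hy]
    exact (lin_part hβ0 hb 1 0 l).2
  let A : Fin 3 → MvPowerSeries (Fin 3) ℂ :=
    ![w * (x + w * y), w ^ 2 * (x + w ^ 2 * y), MvPowerSeries.X 2]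
  have hA0 : ∀ i, MvPowerSeries.constantCoeff (A i) = 0 := by
    intro i
    fin_cases i
    · show MvPowerSeries.constantCoeff (w * (x + w * y)) = 0
      rw [map_mul, map_add, map_mul, hx0, hy0]
      ring
    · show MvPowerSeries.constantCoeff (w ^ 2 * (x + w ^ 2 * y)) = 0
      rw [map_mul, map_add, map_mul, hx0, hy0]
      ring
    · exact MvPowerSeries.constantCoeff_X _
  have hwC : ∀ (k : ℕ) (l : Fin 3) (g : MvPowerSeries (Fin 3) ℂ),
      MvPowerSeries.coeff (Finsupp.single l 1) (w ^ k * g) =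
        ω ^ k * MvPowerSeries.coeff (Finsupp.single l 1) g := by
    intro k l g
    rw [hw, ← map_pow, MvPowerSeries.coeff_C_mul]
  have hA1 : ∀ l, MvPowerSeries.coeff (Finsupp.single l 1) (A 0) =
      ω * ((if l = 0 then 1 else 0) + ω * (if l = 1 then 1 else 0)) := by
    intro l
    show MvPowerSeries.coeff (Finsupp.single l 1) (w * (x + w * y)) = _
    have e : w * (x + w * y) = w ^ 1 * x + w ^ 2 * y := by ring
    rw [e, map_add, hwC, hwC, hx1, hy1]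
    ring
  have hA2 : ∀ l, MvPowerSeries.coeff (Finsupp.single l 1) (A 1) =
      ω ^ 2 * ((if l = 0 then 1 else 0) + ω ^ 2 * (if l = 1 then 1 else 0)) := by
    intro l
    show MvPowerSeries.coeff (Finsupp.single l 1) (w ^ 2 * (x + w ^ 2 * y)) = _
    have e : w ^ 2 * (x + w ^ 2 * y) = w ^ 2 * x + w ^ 4 * y := by ring
    rw [e, map_add, hwC, hwC, hx1, hy1]
    ring
  have hA3 : ∀ l, MvPowerSeries.coeff (Finsupp.single l 1) (A 2) = if l = 2 then 1 else 0 :=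
    fun l => coeff_one_X l 2
  obtain ⟨E, hE⟩ := IFT.exists_equiv hA0 (by
    rw [Matrix.det_fin_three]
    simp only [Matrix.of_apply, hA1, hA2, hA3]
    have e01 : (0 : Fin 3) ≠ 1 := by decide
    have e02 : (0 : Fin 3) ≠ 2 := by decide
    have e12 : (1 : Fin 3) ≠ 2 := by decide
    simp only [if_true, e01, e02, e12, e01.symm, e02.symm, e12.symm, if_false]
    intro h5
    apply hω'
    linear_combination h5 - (ω ^ 3 - 2 * ω ^ 2 + ω) * hω)
  refine ⟨E, -1, ?_⟩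
  rw [hE]
  have h7 : MvPolynomial.aeval A (X 0 * X 1 * (X 0 + X 1) : MvPolynomial (Fin 3) ℂ) =
      A 0 * A 1 * (A 0 + A 1) := by
    rw [map_mul, map_mul, map_add, MvPolynomial.aeval_X, MvPolynomial.aeval_X]
  rw [h7, hGxy]
  show x ^ 3 + y ^ 3 = ((-1 : (MvPowerSeries (Fin 3) ℂ)ˣ) : MvPowerSeries (Fin 3) ℂ) *
    (w * (x + w * y) * (w ^ 2 * (x + w ^ 2 * y)) * (w * (x + w * y) + w ^ 2 * (x + w ^ 2 * y)))
  rw [Units.val_neg, Units.val_one]
  have key1 : w * (x + w * y) + w ^ 2 * (x + w ^ 2 * y) = -(x + y) := by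
    linear_combination (x + y * (w ^ 2 - w + 1)) * hw1
  have key2 : w * (x + w * y) * (w ^ 2 * (x + w ^ 2 * y)) = x ^ 2 - x * y + y ^ 2 := by
    linear_combination (x ^ 2 * (w - 1) + x * y * (w ^ 3 - w + 1) +
      y ^ 2 * (w - 1) * (w ^ 3 + 1)) * hw1
  rw [key1, key2]
  ring

end T3

end MPb07157
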