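import Pool.Agent.Lib.MP_b07157_agT3.Defs

/-!
# Three concurrent lines: linear normal form
-/

noncomputable section

namespace MPb07157

open MvPolynomial

namespace T3

namespace LinAux

/-- The substitution of the linear forms with the rows of `M` as coefficients. -/
private def lm (M : Matrix (Fin 3) (Fin 3) ℂ) :
    MvPolynomial (Fin 3) ℂ →ₐ[ℂ] MvPolynomial (Fin 3) ℂ :=
  aeval fun i => ∑ j, C (M i j) * X j

private theorem lm_comp (M N : Matrix (Fin 3) (Fin 3) ℂ) (F : MvPolynomial (Fin 3) ℂ) :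
    lm N (lm M F) = lm (M * N) F := by
  have h : (lm N).comp (lm M) = lm (M * N) := by
    refine MvPolynomial.algHom_ext fun i => ?_
    rw [AlgHom.comp_apply]
    unfold lm
    rw [aeval_X, aeval_X, map_sum]
    simp only [map_mul, aeval_C, aeval_X, algebraMap_eq, Finset.mul_sum, Matrix.mul_apply, map_sum,
      Finset.sum_mul]
    rw [Finset.sum_comm]
    refine Finset.sum_congr rfl fun j _ => Finset.sum_congr rfl fun k _ => ?_
    ring
  exact congrArg (fun φ => φ F) h

private theorem lm_one (F : MvPolynomial (Fin 3) ℂ) : lm 1 F = F := by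
  have h : lm 1 = AlgHom.id ℂ _ := by
    refine MvPolynomial.algHom_ext fun i => ?_
    unfold lm
    rw [aeval_X, AlgHom.id_apply, Finset.sum_eq_single i]
    · rw [Matrix.one_apply_eq, map_one, one_mul]
    · intro j _ hj
      rw [Matrix.one_apply_ne hj.symm, map_zero, zero_mul]
    · intro h
      exact absurd (Finset.mem_univ _) h
  rw [h]
  rfl

private theorem eval_lm (M : Matrix (Fin 3) (Fin 3) ℂ) (F : MvPolynomial (Fin 3) ℂ)
    (x : Fin 3 → ℂ) : eval x (lm M F) = eval (M.mulVec x) F := by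
  have h : (aeval x : MvPolynomial (Fin 3) ℂ →ₐ[ℂ] ℂ).comp (lm M) = aeval (M.mulVec x) := by
    refine MvPolynomial.algHom_ext fun i => ?_
    rw [AlgHom.comp_apply]
    unfold lm
    rw [aeval_X, aeval_X, map_sum]
    simp only [map_mul, aeval_C, aeval_X, Matrix.mulVec, dotProduct]
    rfl
  have h1 := congrArg (fun φ => φ F) h
  exact h1

/-- The chain rule. -/
private theorem pderiv_lm (M : Matrix (Fin 3) (Fin 3) ℂ) (F : MvPolynomial (Fin 3) ℂ) (j : Fin 3) :
    pderiv j (lm M F) = ∑ k, C (M k j) * lm M (pderiv k F) := by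
  have hX : ∀ i, pderiv j (lm M (X i)) = C (M i j) := by
    intro i
    unfold lm
    rw [aeval_X, map_sum, Finset.sum_eq_single j]
    · rw [pderiv_C_mul, pderiv_X_self, mul_one]
    · intro k _ hk
      rw [pderiv_C_mul, pderiv_X_of_ne hk, mul_zero]
    · intro h
      exact absurd (Finset.mem_univ _) h
  induction F using MvPolynomial.induction_on with
  | C a =>
    have h1 : lm M (C a) = C a := (lm M).commutes a
    rw [h1, pderiv_C]
    symm
    refine Finset.sum_eq_zero fun k _ => ?_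
    rw [pderiv_C, map_zero, mul_zero]
  | add p q hp hq =>
    rw [map_add, map_add, hp, hq, ← Finset.sum_add_distrib]
    refine Finset.sum_congr rfl fun k _ => ?_
    rw [map_add, map_add, mul_add]
  | mul_X p i hp =>
    rw [map_mul, Derivation.leibniz, hX, hp, smul_eq_mul, smul_eq_mul]
    have h1 : ∀ k, lm M (pderiv k (p * X i)) =
        lm M p * lm M (pderiv k (X i)) + lm M (X i) * lm M (pderiv k p) := by
      intro k
      rw [Derivation.leibniz, smul_eq_mul, smul_eq_mul, map_add, map_mul, map_mul]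
    simp only [h1]
    rw [Finset.mul_sum, ← Finset.sum_congr rfl fun k _ => (mul_add _ _ _).symm,
      Finset.sum_add_distrib]
    refine congrArg₂ (· + ·) ?_ ?_
    · rw [Finset.sum_eq_single i]
      · rw [pderiv_X_self, map_one, mul_one, mul_comm]
      · intro k _ hk
        rw [pderiv_X_of_ne hk.symm, map_zero, mul_zero, mul_zero]
      · intro h
        exact absurd (Finset.mem_univ _) h
    · refine Finset.sum_congr rfl fun k _ => ?_
      ring

private theorem pd_comm (i j : Fin 3) (F : MvPolynomial (Fin 3) ℂ) :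
    pderiv i (pderiv j F) = pderiv j (pderiv i F) := by
  classical
  induction F using MvPolynomial.induction_on with
  | C a => simp
  | add p r hp hr => simp only [map_add, hp, hr]
  | mul_X p l hp =>
    have hX : ∀ a b : Fin 3, pderiv a (pderiv b (X l : MvPolynomial (Fin 3) ℂ)) = 0 := by
      intro a b
      by_cases h : l = b
      · subst h
        rw [pderiv_X_self, pderiv_one]
      · rw [pderiv_X_of_ne h, map_zero]
    simp only [Derivation.leibniz, map_add, smul_eq_mul, hp, hX]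
    ring

/-- The triple point is a vertex of the cone. -/
private theorem vertex {F : MvPolynomial (Fin 3) ℂ} (hF : F.IsHomogeneous 3) {q : Fin 3 → ℂ}
    (hqq : ∀ i j, eval q (pderiv i (pderiv j F)) = 0) : ∑ k, C (q k) * pderiv k F = 0 := by
  set H : MvPolynomial (Fin 3) ℂ := ∑ k, C (q k) * pderiv k F with hH
  have hH2 : H.IsHomogeneous 2 := by
    rw [hH]
    refine IsHomogeneous.sum _ _ _ fun k _ => ?_
    have h1 := (isHomogeneous_C (Fin 3) (q k)).mul (hF.pderiv (i := k))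
    rwa [zero_add] at h1
  have hcomm := pd_comm
  have hconst : ∀ i j k, ∃ c : ℂ, pderiv k (pderiv i (pderiv j F)) = C c := by
    intro i j k
    have h1 : (pderiv k (pderiv i (pderiv j F))).IsHomogeneous 0 :=
      ((hF.pderiv (i := j)).pderiv (i := i)).pderiv (i := k)
    exact ⟨_, totalDegree_eq_zero_iff_eq_C.1 ((totalDegree_zero_iff_isHomogeneous _).2 h1)⟩
  have hL : ∀ i j, ∑ k, C (q k) * pderiv k (pderiv i (pderiv j F)) = 0 := by
    intro i j
    have h1 : (pderiv i (pderiv j F)).IsHomogeneous 1 := (hF.pderiv (i := j)).pderiv (i := i)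
    have h2 := h1.sum_X_mul_pderiv
    have h3 := congrArg (eval q) h2
    rw [one_smul, hqq, map_sum] at h3
    choose c hc using hconst i j
    simp only [hc, map_mul, eval_X, eval_C] at h3
    simp only [hc]
    rw [← map_zero C, ← h3, map_sum]
    simp only [map_mul]
  have hH0 : ∀ i j, pderiv i (pderiv j H) = 0 := by
    intro i j
    rw [← hL i j, hH, map_sum, map_sum]
    refine Finset.sum_congr rfl fun k _ => ?_
    rw [pderiv_C_mul, pderiv_C_mul, hcomm j k, hcomm i k]
  have hH1 : ∀ j, pderiv j H = 0 := by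
    intro j
    have h1 := (hH2.pderiv (i := j)).sum_X_mul_pderiv
    rw [show (2 - 1 : ℕ) = 1 from rfl, one_smul] at h1
    rw [← h1]
    refine Finset.sum_eq_zero fun i _ => ?_
    rw [hH0, mul_zero]
  have h1 := hH2.sum_X_mul_pderiv
  rw [Finset.sum_eq_zero (fun j _ => by rw [hH1, mul_zero])] at h1
  rw [nsmul_eq_mul] at h1
  have h2 : ((2 : ℕ) : MvPolynomial (Fin 3) ℂ) ≠ 0 := by
    exact_mod_cast (two_ne_zero : (2 : MvPolynomial (Fin 3) ℂ) ≠ 0)
  exact (mul_eq_zero.1 h1.symm).resolve_left h2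

private theorem exists_cube_root_one : ∃ w : ℂ, w ^ 2 + w + 1 = 0 := by
  obtain ⟨s, hs⟩ := IsAlgClosed.exists_pow_nat_eq (-3 : ℂ) two_pos
  exact ⟨(s - 1) / 2, by linear_combination (1 / 4 : ℂ) * hs⟩

private theorem two_cubes_aux {α β g w : ℂ} (hw2 : w ^ 2 + w + 1 = 0) (hw1 : (1 : ℂ) - w ≠ 0)
    {r₁ r₂ r₃ : ℂ} (h : ∀ x y : ℂ, (1 + w) * (β * (x - r₂ * y)) - w * (α * (x - r₁ * y)) =
      g * (x - r₃ * y)) (x y : ℂ) :
    ((β - w * α) / (1 - w) * x + (w * α * r₁ - β * r₂) / (1 - w) * y) ^ 3 +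
      ((α - β) / (1 - w) * x + (β * r₂ - α * r₁) / (1 - w) * y) ^ 3 =
      α * (x - r₁ * y) * (β * (x - r₂ * y)) * (g * (x - r₃ * y)) := by
  have f1 : ((β - w * α) / (1 - w) * x + (w * α * r₁ - β * r₂) / (1 - w) * y) +
      ((α - β) / (1 - w) * x + (β * r₂ - α * r₁) / (1 - w) * y) = α * (x - r₁ * y) := by
    field_simp
    ring
  have f2 : ((β - w * α) / (1 - w) * x + (w * α * r₁ - β * r₂) / (1 - w) * y) +
      w * ((α - β) / (1 - w) * x + (β * r₂ - α * r₁) / (1 - w) * y) = β * (x - r₂ * y) := by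
    field_simp
    ring
  generalize (β - w * α) / (1 - w) * x + (w * α * r₁ - β * r₂) / (1 - w) * y = Y at *
  generalize (α - β) / (1 - w) * x + (β * r₂ - α * r₁) / (1 - w) * y = Z at *
  rw [← h x y, ← f1, ← f2]
  linear_combination (-(Y ^ 2 * Z) - w * Y * Z ^ 2 + (1 - w) * Z ^ 3) * hw2

/-- A binary cubic form with three different factors is a sum of two cubes. -/
private theorem two_cubes {c r₁ r₂ r₃ : ℂ} (hc : c ≠ 0) (h12 : r₁ ≠ r₂) (h13 : r₁ ≠ r₃)
    (h23 : r₂ ≠ r₃) : ∃ a b a' b' : ℂ, a * b' - a' * b ≠ 0 ∧ ∀ x y : ℂ,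
      (a * x + b * y) ^ 3 + (a' * x + b' * y) ^ 3 =
        c * ((x - r₁ * y) * (x - r₂ * y) * (x - r₃ * y)) := by
  obtain ⟨w, hw2⟩ := exists_cube_root_one
  have hw1 : (1 : ℂ) - w ≠ 0 := by
    intro h
    have h1 : w = 1 := by linear_combination -h
    rw [h1] at hw2
    norm_num at hw2
  have e12 : r₁ - r₂ ≠ 0 := sub_ne_zero.2 h12
  have e13 : r₁ - r₃ ≠ 0 := sub_ne_zero.2 h13
  have e23 : r₃ - r₂ ≠ 0 := sub_ne_zero.2 h23.symm
  obtain ⟨u, v, hu0, hv0, huv1, huv2⟩ : ∃ u v : ℂ, u ≠ 0 ∧ v ≠ 0 ∧ u + v = 1 ∧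
      u * r₁ + v * r₂ = r₃ := by
    refine ⟨(r₃ - r₂) / (r₁ - r₂), (r₁ - r₃) / (r₁ - r₂), div_ne_zero e23 e12,
      div_ne_zero e13 e12, ?_, ?_⟩
    · rw [← add_div, div_eq_one_iff_eq e12]
      ring
    · field_simp
      ring
  obtain ⟨l, hl⟩ := IsAlgClosed.exists_pow_nat_eq (-(c / (u * v))) (n := 3) (by norm_num)
  have hl0 : l ≠ 0 := by
    rintro rfl
    rw [zero_pow (by norm_num)] at hl
    have h1 : c / (u * v) ≠ 0 := div_ne_zero hc (mul_ne_zero hu0 hv0)
    exact h1 (neg_eq_zero.1 hl.symm)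
  have hluv : l ^ 3 * (u * v) = -c := by
    rw [hl, neg_mul, div_mul_cancel₀ _ (mul_ne_zero hu0 hv0)]
  have hw3 : w ^ 3 = 1 := by linear_combination (w - 1) * hw2
  have hw0 : w ≠ 0 := by
    rintro h
    rw [h] at hw2
    norm_num at hw2
  have hprod : l * u * (l * v * w ^ 2) * -(w * l) = c := by
    linear_combination -(l ^ 3 * u * v) * hw3 - hluv
  obtain ⟨α, hα⟩ : ∃ α : ℂ, α = l * u := ⟨_, rfl⟩
  obtain ⟨β, hβ⟩ : ∃ β : ℂ, β = l * v * w ^ 2 := ⟨_, rfl⟩
  have hα0 : α ≠ 0 := by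
    rw [hα]
    exact mul_ne_zero hl0 hu0
  have hβ0 : β ≠ 0 := by
    rw [hβ]
    exact mul_ne_zero (mul_ne_zero hl0 hv0) (pow_ne_zero _ hw0)
  rw [← hα, ← hβ] at hprod
  refine ⟨(β - w * α) / (1 - w), (w * α * r₁ - β * r₂) / (1 - w), (α - β) / (1 - w),
    (β * r₂ - α * r₁) / (1 - w), ?_, fun x y => ?_⟩
  · have h1 : (β - w * α) / (1 - w) * ((β * r₂ - α * r₁) / (1 - w)) -
        (α - β) / (1 - w) * ((w * α * r₁ - β * r₂) / (1 - w)) =
        α * β * (r₂ - r₁) / (1 - w) := by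
      rw [div_mul_div_comm, div_mul_div_comm, ← sub_div, div_eq_div_iff (mul_ne_zero hw1 hw1) hw1]
      ring
    rw [h1]
    exact div_ne_zero (mul_ne_zero (mul_ne_zero hα0 hβ0) (sub_ne_zero.2 h12.symm)) hw1
  · rw [two_cubes_aux hw2 hw1 (g := -(w * l)) (r₃ := r₃) (fun x y => ?_) x y, ← hprod]
    · ring
    · have g2 : x - r₃ * y = u * (x - r₁ * y) + v * (x - r₂ * y) := by
        rw [← huv2]
        linear_combination -x * huv1
      rw [g2, hα, hβ]
      linear_combination (l * v * (x - r₂ * y) * w) * hw2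

private theorem exists_val {F : MvPolynomial (Fin 3) ℂ} (h : F ≠ 0) : ∃ p, eval p F ≠ 0 := by
  by_contra hcon
  push Not at hcon
  exact h (MvPolynomial.funext fun x => by rw [hcon x, map_zero])

/-- The matrix with the columns `p`, `r`, `q`. -/
private def cols (p r q : Fin 3 → ℂ) : Matrix (Fin 3) (Fin 3) ℂ :=
  !![p 0, r 0, q 0; p 1, r 1, q 1; p 2, r 2, q 2]

private theorem exists_cols {p q : Fin 3 → ℂ} (hq : q ≠ 0) (hpq : ∀ c : ℂ, p ≠ c • q) :
    ∃ r, (cols p r q).det ≠ 0 := by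
  by_contra hcon
  push Not at hcon
  have e : ∀ r : Fin 3 → ℂ, p 0 * r 1 * q 2 - p 0 * q 1 * r 2 - r 0 * p 1 * q 2 +
      r 0 * q 1 * p 2 + q 0 * p 1 * r 2 - q 0 * r 1 * p 2 = 0 := by
    intro r
    have h := hcon r
    unfold cols at h
    rw [Matrix.det_fin_three] at h
    simpa using h
  have e0 := e ![1, 0, 0]
  have e1 := e ![0, 1, 0]
  have e2 := e ![0, 0, 1]
  simp only [Matrix.cons_val_zero, Matrix.cons_val_one, Matrix.cons_val, mul_zero, mul_one,
    zero_mul, one_mul, sub_zero, zero_sub, add_zero] at e0 e1 e2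
  obtain ⟨j, hj⟩ := Function.ne_iff.1 hq
  rw [Pi.zero_apply] at hj
  apply hpq (p j / q j)
  funext i
  rw [Pi.smul_apply, smul_eq_mul, div_mul_eq_mul_div, eq_div_iff hj]
  have g0 : p 1 * q 2 = q 1 * p 2 := by linear_combination -e0
  have g1 : p 0 * q 2 = q 0 * p 2 := by linear_combination e1
  have g2 : p 0 * q 1 = q 0 * p 1 := by linear_combination -e2
  fin_cases j <;> fin_cases i <;> simp <;>
    first
      | ring1
      | linear_combination g0
      | linear_combination -g0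
      | linear_combination g1
      | linear_combination -g1
      | linear_combination g2
      | linear_combination -g2

private theorem monomial_ex3 (i j k : ℕ) (c : ℂ) :
    (monomial (ex3 i j k) c : MvPolynomial (Fin 3) ℂ) = C c * X 0 ^ i * X 1 ^ j * X 2 ^ k := by
  unfold ex3
  rw [X_pow_eq_monomial, X_pow_eq_monomial, X_pow_eq_monomial, C_mul_monomial, monomial_mul,
    monomial_mul, mul_one, mul_one, mul_one]

/-- A cubic form which does not depend on `x_2`. -/
private theorem binary {G : MvPolynomial (Fin 3) ℂ} (hG : G.IsHomogeneous 3)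
    (h2 : pderiv 2 G = 0) : ∃ a b c d : ℂ,
      G = C a * X 0 ^ 3 + C b * (X 0 ^ 2 * X 1) + C c * (X 0 * X 1 ^ 2) + C d * X 1 ^ 3 := by
  classical
  have hv : ∀ v ∈ G.support, v 2 = 0 := by
    intro v hv
    by_contra hne
    have h3 := congrArg (coeff (v - Finsupp.single 2 1)) h2
    have h4 : v - Finsupp.single 2 1 + Finsupp.single 2 1 = v := by
      apply tsub_add_cancel_of_le
      rw [Finsupp.single_le_iff]
      omega
    rw [coeff_pderiv, coeff_zero, h4] at h3
    have h5 : (((v - Finsupp.single 2 1 : Fin 3 →₀ ℕ) 2 : ℂ) + 1) ≠ 0 :=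
      Nat.cast_add_one_ne_zero _
    rcases mul_eq_zero.1 h3 with h6 | h6
    · exact mem_support_iff.1 hv h6
    · exact h5 (by exact_mod_cast h6)
  set S : Finset (Fin 3 →₀ ℕ) := {ex3 3 0 0, ex3 2 1 0, ex3 1 2 0, ex3 0 3 0} with hS
  have hsub : G.support ⊆ S := by
    intro v hvs
    have h3 := hv v hvs
    have h4 : v 0 + v 1 + v 2 = 3 := by
      have h5 := hG (mem_support_iff.1 hvs)
      rw [Finsupp.weight_apply, Finsupp.sum_fintype _ _ (by simp)] at h5
      simpa [Fin.sum_univ_three] using h5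
    have h6 : v = ex3 (v 0) (v 1) 0 := by
      ext i
      unfold ex3
      fin_cases i <;> simp [h3]
    have h7 : v 1 ≤ 3 := by omega
    have h8 : v 0 = 3 - v 1 := by omega
    rw [h6, h8, hS]
    interval_cases v 1 <;> simp
  have hsum : G = ∑ v ∈ S, monomial v (coeff v G) := by
    conv_lhs => rw [G.as_sum]
    refine Finset.sum_subset hsub fun v _ hv' => ?_
    rw [notMem_support_iff.1 hv', monomial_zero]
  have hne : ∀ i j i' j' : ℕ, i ≠ i' → ex3 i j 0 ≠ ex3 i' j' 0 := by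
    intro i j i' j' hii h
    apply hii
    have h9 := DFunLike.congr_fun h 0
    unfold ex3 at h9
    simpa using h9
  refine ⟨coeff (ex3 3 0 0) G, coeff (ex3 2 1 0) G, coeff (ex3 1 2 0) G, coeff (ex3 0 3 0) G, ?_⟩
  conv_lhs => rw [hsum]
  rw [hS, Finset.sum_insert, Finset.sum_insert, Finset.sum_insert, Finset.sum_singleton,
    monomial_ex3, monomial_ex3, monomial_ex3, monomial_ex3]
  · ring
  · simpa using hne _ _ _ _ (by norm_num)
  · simp only [Finset.mem_insert, Finset.mem_singleton, not_or]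
    exact ⟨hne _ _ _ _ (by norm_num), hne _ _ _ _ (by norm_num)⟩
  · simp only [Finset.mem_insert, Finset.mem_singleton, not_or]
    exact ⟨hne _ _ _ _ (by norm_num), hne _ _ _ _ (by norm_num), hne _ _ _ _ (by norm_num)⟩

/-- A cubic polynomial splits. -/
private theorem cubic_roots {a : ℂ} (ha : a ≠ 0) (b c d : ℂ) : ∃ r₁ r₂ r₃ : ℂ,
    b = a * -(r₁ + r₂ + r₃) ∧ c = a * (r₁ * r₂ + r₁ * r₃ + r₂ * r₃) ∧ d = a * -(r₁ * r₂ * r₃) := by
  set P : Cubic ℂ := ⟨a, b, c, d⟩ with hP
  have hs : (Polynomial.map (RingHom.id ℂ) P.toPoly).Splits := IsAlgClosed.splits _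
  obtain ⟨x, y, z, h⟩ := (Cubic.splits_iff_roots_eq_three (φ := RingHom.id ℂ) (P := P) ha).1 hs
  refine ⟨x, y, z, ?_, ?_, ?_⟩
  · exact Cubic.b_eq_three_roots (φ := RingHom.id ℂ) (P := P) ha h
  · exact Cubic.c_eq_three_roots (φ := RingHom.id ℂ) (P := P) ha h
  · exact Cubic.d_eq_three_roots (φ := RingHom.id ℂ) (P := P) ha h

private theorem not_isUnit_lin (r : ℂ) : ¬ IsUnit (X 0 - C r * X 1 : MvPolynomial (Fin 3) ℂ) := by
  intro h
  have h1 := h.map (eval (0 : Fin 3 → ℂ))
  rw [map_sub, map_mul, eval_X, eval_X, Pi.zero_apply, Pi.zero_apply, mul_zero, sub_zero] at h1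
  exact not_isUnit_zero h1

end LinAux

open LinAux

/-- A squarefree cubic form in three variables with a triple point is `x_0^3 + x_1^3` in suitable
linear coordinates. Proof: a linear change moves the triple point to `(0, 0, 1)`, then `F` depends
only on `x_0`, `x_1`; a further change gives `c (x_0^3 + p x_0 x_1^2 + q x_1^3)`, with
`4 p^3 + 27 q^2 ≠ 0` since `F` is squarefree; if `p ≠ 0`, let `a ≠ b` be the roots of
`T^2 + (3 q / p) T - p / 3`, then `x^3 + p x y^2 + q y^3 = A (x - a y)^3 + B (x - b y)^3`,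
`A = b / (b - a)`, `B = - a / (b - a)`. -/
theorem exists_lin {F : MvPolynomial (Fin 3) ℂ} (hF : F.IsHomogeneous 3) (hsq : Squarefree F)
    {q : Fin 3 → ℂ} (hq : q ≠ 0) (hqq : ∀ i j, eval q (pderiv i (pderiv j F)) = 0) :
    ∃ M : Matrix (Fin 3) (Fin 3) ℂ, M.det ≠ 0 ∧
      aeval (fun i => ∑ j, C (M i j) * X j) F = (X 0 ^ 3 + X 1 ^ 3 : MvPolynomial (Fin 3) ℂ) := by
  have hvert := vertex hF hqq
  obtain ⟨p, hp⟩ := exists_val hsq.ne_zero
  have hpq : ∀ c : ℂ, p ≠ c • q := by
    rintro c rfl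
    apply hp
    -- `F (c q) = 0`
    have h1 := hF.sum_X_mul_pderiv
    have h2 : ∀ j, eval q (pderiv j F) = 0 := by
      intro j
      have h3 := congrArg (eval q) (hF.pderiv (i := j)).sum_X_mul_pderiv
      rw [map_sum, Finset.sum_eq_zero (fun i _ => by rw [map_mul, hqq, mul_zero]), map_nsmul,
        nsmul_eq_mul] at h3
      exact (mul_eq_zero.1 h3.symm).resolve_left (by norm_num)
    have h3 := congrArg (eval q) h1
    rw [map_sum, Finset.sum_eq_zero (fun i _ => by rw [map_mul, h2, mul_zero]), map_nsmul,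
      nsmul_eq_mul] at h3
    have h4 : eval q F = 0 := (mul_eq_zero.1 h3.symm).resolve_left (by norm_num)
    have h5 : eval (c • q) F = c ^ 3 * eval q F := by
      rw [eval_eq', eval_eq', Finset.mul_sum]
      refine Finset.sum_congr rfl fun v hv => ?_
      have h6 : ∑ i, v i = 3 := by
        have h7 := hF (mem_support_iff.1 hv)
        rw [Finsupp.weight_apply, Finsupp.sum_fintype _ _ (by simp)] at h7
        simpa using h7
      simp only [Pi.smul_apply, smul_eq_mul, mul_pow, Finset.prod_mul_distrib]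
      rw [Finset.prod_pow_eq_pow_sum, h6]
      ring
    rw [h5, h4, mul_zero]
  obtain ⟨r, hr⟩ := exists_cols hq hpq
  set M₀ := cols p r q with hM₀
  have hu₀ : IsUnit M₀.det := isUnit_iff_ne_zero.2 hr
  set G := lm M₀ F with hG
  have hG3 : G.IsHomogeneous 3 := by
    rw [hG]
    unfold lm
    have h0 : ∀ i, (∑ j, C (M₀ i j) * X j : MvPolynomial (Fin 3) ℂ).IsHomogeneous 1 := by
      intro i
      refine IsHomogeneous.sum _ _ _ fun j _ => ?_
      have h1 := (isHomogeneous_C (Fin 3) (M₀ i j)).mul (isHomogeneous_X ℂ j)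
      rwa [zero_add] at h1
    have h2 := hF.aeval _ h0
    rwa [one_mul] at h2
  have hG2 : pderiv 2 G = 0 := by
    rw [hG, pderiv_lm, ← map_zero (lm M₀), ← hvert, map_sum]
    refine Finset.sum_congr rfl fun k _ => ?_
    have h1 : lm M₀ (C (q k)) = C (q k) := (lm M₀).commutes (q k)
    have h3 : M₀ k 2 = q k := by
      rw [hM₀]
      unfold cols
      fin_cases k <;> rfl
    rw [map_mul, h1, h3]
  obtain ⟨a, b, c, d, hGe⟩ := binary hG3 hG2
  have ha : a ≠ 0 := by
    intro ha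
    apply hp
    have h1 : eval (![1, 0, 0] : Fin 3 → ℂ) G = eval p F := by
      have h2 : M₀.mulVec ![1, 0, 0] = p := by
        funext i
        rw [hM₀]
        unfold cols
        fin_cases i <;> simp [Matrix.mulVec, dotProduct, Fin.sum_univ_three]
      rw [hG, eval_lm, h2]
    rw [← h1, hGe, ha]
    simp
  obtain ⟨r₁, r₂, r₃, hb, hc, hd⟩ := cubic_roots ha b c d
  have hfac : G = C a * ((X 0 - C r₁ * X 1) * (X 0 - C r₂ * X 1) * (X 0 - C r₃ * X 1)) := by
    rw [hGe, hb, hc, hd]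
    simp only [map_mul, map_neg, map_add]
    ring
  have hback : lm (M₀⁻¹) G = F := by
    rw [hG, lm_comp, Matrix.mul_nonsing_inv _ hu₀, lm_one]
  have hdist : ∀ (u v : ℂ) (R : MvPolynomial (Fin 3) ℂ), u = v →
      G = (X 0 - C u * X 1) * (X 0 - C v * X 1) * R → False := by
    rintro u v R rfl h
    have h1 : lm (M₀⁻¹) (X 0 - C u * X 1) * lm (M₀⁻¹) (X 0 - C u * X 1) ∣ F := by
      refine ⟨lm (M₀⁻¹) R, ?_⟩
      rw [← hback, h, map_mul, map_mul]
    have h2 := (hsq _ h1).map (lm M₀)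
    rw [lm_comp, Matrix.nonsing_inv_mul _ hu₀, lm_one] at h2
    exact not_isUnit_lin u h2
  have h12 : r₁ ≠ r₂ := fun h => hdist r₁ r₂ (C a * (X 0 - C r₃ * X 1)) h (by rw [hfac]; ring)
  have h13 : r₁ ≠ r₃ := fun h => hdist r₁ r₃ (C a * (X 0 - C r₂ * X 1)) h (by rw [hfac]; ring)
  have h23 : r₂ ≠ r₃ := fun h => hdist r₂ r₃ (C a * (X 0 - C r₁ * X 1)) h (by rw [hfac]; ring)
  obtain ⟨A, B, A', B', hdet, hcub⟩ := two_cubes ha h12 h13 h23
  set N : Matrix (Fin 3) (Fin 3) ℂ := !![A, B, 0; A', B', 0; 0, 0, 1] with hN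
  have hNd : N.det ≠ 0 := by
    rw [hN, Matrix.det_fin_three]
    simpa [mul_comm] using hdet
  have huN : IsUnit N.det := isUnit_iff_ne_zero.2 hNd
  have hGN : G = lm N (X 0 ^ 3 + X 1 ^ 3) := by
    apply MvPolynomial.funext
    intro x
    rw [hfac, eval_lm]
    simp only [map_add, map_mul, map_sub, map_pow, eval_X, eval_C]
    rw [← hcub (x 0) (x 1)]
    rw [hN]
    simp [Matrix.mulVec, dotProduct, Fin.sum_univ_three]
  refine ⟨M₀ * N⁻¹, ?_, ?_⟩
  · rw [Matrix.det_mul]
    refine mul_ne_zero hr fun h => ?_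
    have h1 := congrArg Matrix.det (Matrix.mul_nonsing_inv N huN)
    rw [Matrix.det_mul, h, mul_zero, Matrix.det_one] at h1
    exact zero_ne_one h1
  · show lm (M₀ * N⁻¹) F = _
    rw [← lm_comp, ← hG, hGN, lm_comp, Matrix.mul_nonsing_inv _ huN, lm_one]

end T3

end MPb07157
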