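import Pool.Agent.Lib.MP_b07157_agT3.LamT
import Pool.Agent.Lib.MP_b07157_agYC.BsC

/-!
# The candidate pole of `x_0^3 + x_1^3 + x_2^e P`
-/

noncomputable section

namespace MPb07157

open MvPolynomial

namespace T3

variable {κ β : ℂ} {e s : ℕ} {P : MvPolynomial (Fin 3) ℂ}

theorem lt2_of_degreeOf {K : ℕ} {g : MvPolynomial (Fin 3) ℂ} (h : degreeOf 2 g < K) : Lt2 K g := by
  intro v hv
  exact lt_of_le_of_lt (monomial_le_degreeOf 2 hv) h

theorem degreeOf_gw (hP : ∀ v ∈ P.support, v 2 = 0) (e : ℕ) : degreeOf 2 (gw e P) ≤ e := by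
  have h0 : degreeOf 2 P = 0 := by
    rw [← Nat.le_zero, degreeOf_le_iff]
    intro v hv
    exact (hP v hv).le
  unfold gw
  refine (degreeOf_add_le _ _ _).trans (max_le ((degreeOf_add_le _ _ _).trans (max_le ?_ ?_)) ?_)
  · refine (degreeOf_pow_le _ _ _).trans ?_
    rw [degreeOf_X_of_ne (by decide)]
    omega
  · refine (degreeOf_pow_le _ _ _).trans ?_
    rw [degreeOf_X_of_ne (by decide)]
    omega
  · refine (degreeOf_mul_le _ _ _).trans ?_
    rw [h0, add_zero]
    refine (degreeOf_pow_le _ _ _).trans ?_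
    rw [degreeOf_X_self, mul_one]

/-- The powers of the polynomial. -/
theorem T_pow (h : NR κ β) (he : 0 < e) {N : ℕ} (hP : ∀ v ∈ P.support, v 2 = 0) (j : ℕ)
    (hj : j ≤ N) : T e κ β N (ev P) j (gw e P ^ j) =
      Polynomial.C (cc κ β 0 0) * (cubP ^ j * ev P ^ N) := by
  induction j with
  | zero =>
    have h1 : (gw e P ^ 0 : MvPolynomial (Fin 3) ℂ) = monomial 0 1 := by
      rw [pow_zero]
      rfl
    rw [h1, T_monomial, Finsupp.zero_apply, Finsupp.zero_apply]
    have h2 := tau_mul (κ := κ) (β := β) he N (ev P) 0 0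
    rw [mul_zero] at h2
    rw [h2, map_one, pow_zero, pow_zero, Nat.sub_zero]
    ring
  | succ j ih =>
    have h1 : Lt2 (e * N) (gw e P ^ j) := by
      apply lt2_of_degreeOf
      refine lt_of_le_of_lt (degreeOf_pow_le _ _ _) ?_
      have h2 := Nat.mul_le_mul_left j (degreeOf_gw hP e)
      have h3 : j * e < e * N := by
        rw [mul_comm e N]
        exact Nat.mul_lt_mul_of_pos_right (by omega) he
      omega
    rw [pow_succ', T_gw_mul h he hP j h1, ih (by omega), pow_succ']
    ring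

/-- The contraction with the Euler field. -/
theorem euler_id {a0 a1 a2 f : MvPolynomial (Fin 3) ℂ} {E B W D α : ℂ} {m : ℕ}
    (h1 : C E * (X 0 * pderiv 0 a1) + C E * (X 1 * pderiv 1 a1) + C B * (X 2 * pderiv 2 a1) =
      C W * a1)
    (h2 : C E * (X 0 * pderiv 0 f) + C E * (X 1 * pderiv 1 f) + C B * (X 2 * pderiv 2 f) = C D * f)
    (hW : W = m * D + E) (hα : α * D = B + 2 * E)
    (h : f * (pderiv 0 a0 + pderiv 1 a1 + pderiv 2 a2) -
      C (α + m) * (a0 * pderiv 0 f + a1 * pderiv 1 f + a2 * pderiv 2 f) = f ^ (m + 1)) :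
    (f * pderiv 2 (C E * (a2 * X 1) - C B * (X 2 * a1)) -
      C (α + m) * ((C E * (a2 * X 1) - C B * (X 2 * a1)) * pderiv 2 f)) -
    (f * pderiv 0 (C E * (X 0 * a1) - C E * (a0 * X 1)) -
      C (α + m) * ((C E * (X 0 * a1) - C E * (a0 * X 1)) * pderiv 0 f)) =
      C E * (X 1 * f ^ (m + 1)) := by
  have hW' : (C W : MvPolynomial (Fin 3) ℂ) = C (m : ℂ) * C D + C E := by
    rw [hW, map_add, map_mul]
  have hα' : (C α : MvPolynomial (Fin 3) ℂ) * C D = C B + C 2 * C E := by
    rw [← map_mul, hα, map_add, map_mul]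
  have e1 : pderiv 2 (C E * (a2 * X 1) - C B * (X 2 * a1)) =
      C E * (X 1 * pderiv 2 a2) - C B * (a1 + X 2 * pderiv 2 a1) := by
    rw [map_sub, pderiv_C_mul, pderiv_C_mul, pderiv_mul, pderiv_mul, pderiv_X_self,
      pderiv_X_of_ne (by decide)]
    ring
  have e2 : pderiv 0 (C E * (X 0 * a1) - C E * (a0 * X 1)) =
      C E * (a1 + X 0 * pderiv 0 a1) - C E * (X 1 * pderiv 0 a0) := by
    rw [map_sub, pderiv_C_mul, pderiv_C_mul, pderiv_mul, pderiv_mul, pderiv_X_self,
      pderiv_X_of_ne (by decide)]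
    ring
  have h22 : (C 2 : MvPolynomial (Fin 3) ℂ) = 2 := map_ofNat C 2
  rw [e1, e2, ← h]
  rw [hW'] at h1
  rw [h22] at hα'
  rw [map_add]
  linear_combination (-f) * h1 + (C α + C (m : ℂ)) * a1 * h2 + (a1 * f) * hα'

theorem weight3 (w : Fin 3 → ℕ) (v : Fin 3 →₀ ℕ) :
    Finsupp.weight w v = v 0 * w 0 + v 1 * w 1 + v 2 * w 2 := by
  rw [Finsupp.weight_apply, Finsupp.sum_fintype _ _ (fun i => by rw [zero_smul]),
    Fin.sum_univ_three]
  rfl

theorem isWeightedHomogeneous_gw (hs : s ≤ 3) (hP : BinForm P s) (e : ℕ) :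
    (gw e P).IsWeightedHomogeneous (wts e s) (3 * e) := by
  have h0 : wts e s 0 = e := rfl
  have h1 : wts e s 1 = e := rfl
  have h2 : wts e s 2 = 3 - s := rfl
  have hPw : P.IsWeightedHomogeneous (wts e s) (s * e) := by
    intro v hv
    have h3 := hP.hom hv
    have h4 := hP.two v (mem_support_iff.2 hv)
    rw [weight3] at h3 ⊢
    simp only [Pi.one_apply, mul_one, h4, add_zero, zero_mul, h0, h1] at h3 ⊢
    rw [← h3]
    ring
  unfold gw
  refine IsWeightedHomogeneous.add (IsWeightedHomogeneous.add ?_ ?_) ?_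
  · have := (isWeightedHomogeneous_X ℂ (wts e s) 0).pow 3
    rwa [h0, smul_eq_mul] at this
  · have := (isWeightedHomogeneous_X ℂ (wts e s) 1).pow 3
    rwa [h1, smul_eq_mul] at this
  · have := ((isWeightedHomogeneous_X ℂ (wts e s) 2).pow e).mul hPw
    rw [h2, smul_eq_mul] at this
    have h5 : e * (3 - s) + s * e = 3 * e := by
      rw [mul_comm s e, ← mul_add, Nat.sub_add_cancel hs, mul_comm]
    rwa [h5] at this

theorem ev_ne_zero (hP : BinForm P s) : ev P ≠ 0 ∧ (ev P).natDegree ≤ s := by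
  have hmono : ∀ v ∈ P.support, ev (monomial v (coeff v P)) =
      Polynomial.C (coeff v P) * Polynomial.X ^ v 0 := by
    intro v hv
    unfold ev
    rw [aeval_monomial, Finsupp.prod_fintype _ _ (fun i => pow_zero _), Fin.prod_univ_three]
    simp [hP.two v hv]
  have hsum : ev P = ∑ v ∈ P.support, Polynomial.C (coeff v P) * Polynomial.X ^ v 0 := by
    conv_lhs => rw [P.as_sum]
    rw [map_sum]
    exact Finset.sum_congr rfl hmono
  have hdeg : ∀ v ∈ P.support, v 0 + v 1 = s := by
    intro v hv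
    have h3 := hP.hom (mem_support_iff.1 hv)
    have h4 := hP.two v hv
    rw [weight3] at h3
    simpa [h4] using h3
  constructor
  · obtain ⟨v, hv⟩ := support_nonempty.2 hP.ne
    intro h0
    have h1 := congrArg (fun q => Polynomial.coeff q (v 0)) hsum
    simp only [h0, Polynomial.coeff_zero, Polynomial.finsetSum_coeff, Polynomial.coeff_C_mul,
      Polynomial.coeff_X_pow] at h1
    rw [Finset.sum_eq_single v] at h1
    · rw [if_pos rfl, mul_one] at h1
      exact (mem_support_iff.1 hv) h1.symm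
    · intro u hu huv
      rw [if_neg, mul_zero]
      intro h2
      apply huv
      have h3 := hdeg u hu
      have h4 := hdeg v hv
      have h5 := hP.two u hu
      have h6 := hP.two v hv
      ext i
      fin_cases i
      · exact h2.symm
      · show u 1 = v 1
        omega
      · show u 2 = v 2
        rw [h5, h6]
    · intro h2
      exact absurd hv h2
  · rw [hsum]
    refine Polynomial.natDegree_sum_le_of_forall_le _ _ fun v hv => ?_
    refine (Polynomial.natDegree_C_mul_X_pow_le _ _).trans ?_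
    have := hdeg v hv
    omega

/-- **The form `f^(-A/D)` is not a sum of derivatives.** -/
theorem nonEx_gw (he : 2 ≤ e) (hs : s = 2 ∨ s = 1) (hP : BinForm P s) :
    NonEx (gw e P) (((2 * e + (3 - s) : ℕ) : ℂ) / (3 * e : ℕ)) := by
  intro m a hEq
  have he0 : 0 < e := by omega
  have heC : (e : ℂ) ≠ 0 := by exact_mod_cast he0.ne'
  have hs3 : s ≤ 3 := by omega
  set b : ℕ := 3 - s with hb
  have hbs : b + s = 3 := by omega
  set f := gw e P with hf
  have hfh : f.IsWeightedHomogeneous (wts e s) (3 * e) := isWeightedHomogeneous_gw hs3 hP e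
  set α : ℂ := ((2 * e + b : ℕ) : ℂ) / (3 * e : ℕ) with hα
  have w0 : wts e s 0 = e := rfl
  have w1 : wts e s 1 = e := rfl
  have w2 : wts e s 2 = b := rfl
  -- the weighted homogeneous components
  set a' : Fin 3 → MvPolynomial (Fin 3) ℂ := fun i =>
    weightedHomogeneousComponent (wts e s) (m * (3 * e) + wts e s i) (a i) with ha'
  have hwD : ∀ i, wts e s i ≤ 3 * e := by
    intro i
    fin_cases i
    · show e ≤ 3 * e
      omega
    · show e ≤ 3 * e
      omega
    · show b ≤ 3 * e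
      omega
  have hEq' : ∑ i, (f * pderiv i (a' i) - C (α + m) * (a' i * pderiv i f)) = f ^ (m + 1) := by
    have h1 := congrArg (weightedHomogeneousComponent (wts e s) (3 * e + m * (3 * e))) hEq
    have h2 : weightedHomogeneousComponent (wts e s) (3 * e + m * (3 * e)) (f ^ (m + 1)) =
        f ^ (m + 1) := by
      apply weightedHomogeneousComponent_eq_self
      have h3 := hfh.pow (m + 1)
      have h4 : (m + 1) • (3 * e) = 3 * e + m * (3 * e) := by
        rw [smul_eq_mul]
        ring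
      rwa [h4] at h3
    rw [h2, map_sum] at h1
    rw [← h1]
    refine Finset.sum_congr rfl fun i _ => ?_
    rw [map_sub, YC.bsC_comp_mul_left hfh, YC.bsC_comp_pderiv, weightedHomogeneousComponent_C_mul]
    have h5 := YC.bsC_pderiv hfh (hwD i)
    have h6 : 3 * e + m * (3 * e) = (3 * e - wts e s i) + (m * (3 * e) + wts e s i) := by
      have := hwD i
      omega
    have h7 : weightedHomogeneousComponent (wts e s) (3 * e + m * (3 * e)) (a i * pderiv i f) =
        a' i * pderiv i f := by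
      rw [mul_comm (a i), h6, YC.bsC_comp_mul_left h5, mul_comm]
    rw [h7]
  rw [Fin.sum_univ_three] at hEq'
  -- the contraction with the Euler field
  have hEu : ∀ {g : MvPolynomial (Fin 3) ℂ} {W : ℕ}, g.IsWeightedHomogeneous (wts e s) W →
      C (e : ℂ) * (X 0 * pderiv 0 g) + C (e : ℂ) * (X 1 * pderiv 1 g) +
        C (b : ℂ) * (X 2 * pderiv 2 g) = C (W : ℂ) * g := by
    intro g W hg
    have h1 := hg.sum_weight_X_mul_pderiv
    rw [Fin.sum_univ_three, w0, w1, w2] at h1
    simp only [nsmul_eq_mul] at h1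
    simpa only [map_natCast] using h1
  have hid := euler_id (a0 := a' 0) (a1 := a' 1) (a2 := a' 2) (f := f) (E := e) (B := b)
    (W := ((m * (3 * e) + e : ℕ) : ℂ)) (D := ((3 * e : ℕ) : ℂ)) (α := α) (m := m)
    (hEu (weightedHomogeneousComponent_isWeightedHomogeneous _ _)) (hEu hfh) (by push_cast; ring)
    (by
      rw [hα, div_mul_cancel₀]
      · push_cast
        ring
      · push_cast
        exact mul_ne_zero three_ne_zero heC) (by rw [← hEq']; ring)
  -- the numbers
  set κ : ℚ := 1 / e with hκ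
  set β : ℚ := (2 * e - s) / (3 * e) with hβ
  have heQ : (0 : ℚ) < e := by exact_mod_cast he0
  have hsQ : (s : ℚ) ≤ 2 := by
    have : s ≤ 2 := by omega
    exact_mod_cast this
  have hs1Q : (1 : ℚ) ≤ s := by
    have : 1 ≤ s := by omega
    exact_mod_cast this
  have he2Q : (2 : ℚ) ≤ e := by exact_mod_cast he
  have hκ0 : 0 < κ := by
    rw [hκ]
    positivity
  have hβ0 : 0 < β := by
    rw [hβ]
    apply div_pos
    · linarith
    · linarith
  have hβ1 : β < 1 := by
    rw [hβ, div_lt_one (by linarith)]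
    linarith
  have hNR : NR (κ : ℂ) (β : ℂ) := by
    refine ⟨fun l => ?_, fun l => ?_, fun l => ?_⟩
    · have h1 : κ + l ≠ 0 := by positivity
      exact_mod_cast h1
    · have h1 : β + l ≠ 0 := by
        intro h2
        have h3 : (l : ℚ) = -β := by linarith
        have h4 : (-1 : ℚ) < l := by linarith
        have h5 : (l : ℚ) < 0 := by linarith
        have h6 : (-1 : ℤ) < l := by exact_mod_cast h4
        have h7 : l < 0 := by exact_mod_cast h5
        omega
      exact_mod_cast h1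
    · have h1 : κ + β + l ≠ 0 := by positivity
      exact_mod_cast h1
  have hακβ : α = (κ : ℂ) + (β : ℂ) := by
    rw [hα, hκ, hβ]
    push_cast
    have h1 : (b : ℂ) = 3 - s := by
      have : (b : ℂ) + s = 3 := by exact_mod_cast hbs
      linear_combination this
    rw [h1]
    field_simp
    ring
  have heκ : (e : ℂ) * ((κ : ℚ) : ℂ) = 1 := by
    rw [hκ]
    push_cast
    field_simp
  -- the functional
  set U : MvPolynomial (Fin 3) ℂ := C (e : ℂ) * (a' 2 * X 1) - C (b : ℂ) * (X 2 * a' 1) with hU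
  set V : MvPolynomial (Fin 3) ℂ := C (e : ℂ) * (X 0 * a' 1) - C (e : ℂ) * (a' 0 * X 1) with hV
  set N : ℕ := m + 1 + degreeOf 2 U + degreeOf 2 V with hN
  have hUN : Lt2 (e * N) U := by
    apply lt2_of_degreeOf
    have : N ≤ e * N := Nat.le_mul_of_pos_left _ he0
    omega
  have hVN : Lt2 (e * N) V := by
    apply lt2_of_degreeOf
    have : N ≤ e * N := Nat.le_mul_of_pos_left _ he0
    omega
  have h2 := T_two hNR he heκ hP.two m hUN
  have h0 := T_zero hNR he0 hP.two m hVN
  have h3 := congrArg (T e (κ : ℂ) (β : ℂ) N (ev P) (m + 1)) hid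
  rw [hακβ] at h3
  rw [map_sub, h2, zero_sub, ← smul_eq_C_mul (X 1 * f ^ (m + 1)), map_smul, T_one_mul,
    T_pow hNR he0 hP.two (m + 1) (by omega), Polynomial.smul_eq_C_mul] at h3
  obtain ⟨hp0, hpd⟩ := ev_ne_zero hP
  have hc : -((e : ℂ) * cc (κ : ℂ) (β : ℂ) 0 0) ≠ 0 := neg_ne_zero.2 (mul_ne_zero heC (cc_zero_ne hNR))
  refine no_sol (U := T e (κ : ℂ) (β : ℂ) N (ev P) m V) (m := m) (N := N) hp0 hβ0 hκ0 ?_ hc ?_
  · have h5 : ((ev P).natDegree : ℚ) ≤ s := by exact_mod_cast hpd
    have h6 : κ * (ev P).natDegree ≤ κ * s := mul_le_mul_of_nonneg_left h5 hκ0.le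
    have h7 : 3 * β + κ * s = 2 := by
      rw [hκ, hβ]
      field_simp
      ring
    linarith
  · rw [h0]
    have h8 : T e (κ : ℂ) (β : ℂ) N (ev P) (m + 1)
        (f * pderiv 0 V - C ((κ : ℂ) + (β : ℂ) + m) * (V * pderiv 0 f)) =
        -(Polynomial.C (e : ℂ) * (Polynomial.C (cc (κ : ℂ) (β : ℂ) 0 0) *
          (cubP ^ (m + 1) * ev P ^ N))) := by
      rw [← h3, neg_neg]
    rw [h8, map_neg, map_mul]
    ring

end T3

end MPb07157
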