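import Pool.Agent.Lib.MP_b07157_agT3.Defs
import Pool.Agent.Lib.MP_b07157_agE.EDefs
import Pool.Agent.Lib.MP_b07157_agM.IFT
import Pool.Agent.Lib.MP_b07157_agZ.A4

/-!
# The slope
-/

noncomputable section

namespace MPb07157

open MvPolynomial

namespace T3

namespace Sl

theorem ex3_zero (i j k : ℕ) : ex3 i j k 0 = i := by simp [ex3]
theorem ex3_one (i j k : ℕ) : ex3 i j k 1 = j := by simp [ex3]
theorem ex3_two (i j k : ℕ) : ex3 i j k 2 = k := by simp [ex3]

theorem ex3_eta (v : Fin 3 →₀ ℕ) : ex3 (v 0) (v 1) (v 2) = v := by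
  ext i
  fin_cases i
  · exact ex3_zero _ _ _
  · exact ex3_one _ _ _
  · exact ex3_two _ _ _

theorem exists_ex3 (v : Fin 3 →₀ ℕ) : ∃ i j k, v = ex3 i j k := ⟨_, _, _, (ex3_eta v).symm⟩

theorem ex3_inj {i j k i' j' k' : ℕ} : ex3 i j k = ex3 i' j' k' ↔ i = i' ∧ j = j' ∧ k = k' := by
  constructor
  · intro h
    refine ⟨?_, ?_, ?_⟩
    · rw [← ex3_zero i j k, h, ex3_zero]
    · rw [← ex3_one i j k, h, ex3_one]
    · rw [← ex3_two i j k, h, ex3_two]
  · rintro ⟨rfl, rfl, rfl⟩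
    rfl

theorem ex3_degree (i j k : ℕ) : (ex3 i j k).degree = i + j + k := by
  rw [Finsupp.degree_eq_sum, Fin.sum_univ_three, ex3_zero, ex3_one, ex3_two]

theorem weight_eq (w : Fin 3 → ℕ) (v : Fin 3 →₀ ℕ) : Finsupp.weight w v = ∑ i, w i * v i := by
  rw [Finsupp.weight_apply, Finsupp.sum_fintype]
  · exact Finset.sum_congr rfl fun i _ => by rw [smul_eq_mul, mul_comm]
  · intro i
    rw [zero_smul]

theorem monomial_ex3 (i j k : ℕ) (c : ℂ) :
    monomial (ex3 i j k) c = C c * (X 0 ^ i * X 1 ^ j * X 2 ^ k : MvPolynomial (Fin 3) ℂ) := by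
  rw [MvPolynomial.monomial_eq, Finsupp.prod_fintype]
  · rw [Fin.prod_univ_three, ex3_zero, ex3_one, ex3_two]
  · intro i
    rw [pow_zero]

theorem coeff_ex3 (i j k i' j' k' : ℕ) (c : ℂ) :
    coeff (ex3 i j k) (C c * (X 0 ^ i' * X 1 ^ j' * X 2 ^ k') : MvPolynomial (Fin 3) ℂ) =
      if i' = i ∧ j' = j ∧ k' = k then c else 0 := by
  classical
  rw [← monomial_ex3, coeff_monomial]
  simp only [ex3_inj]

/-! ### Formal coordinates -/

theorem coe_aeval (b : Fin 3 → MvPolynomial (Fin 3) ℂ) (p : MvPolynomial (Fin 3) ℂ) :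
    ((aeval b p : MvPolynomial (Fin 3) ℂ) : MvPowerSeries (Fin 3) ℂ) =
      aeval (fun i => (b i : MvPowerSeries (Fin 3) ℂ)) p := by
  induction p using MvPolynomial.induction_on with
  | C a =>
    rw [MvPolynomial.aeval_C, MvPolynomial.aeval_C]
    exact MvPolynomial.coe_C a
  | add p q hp hq => rw [map_add, MvPolynomial.coe_add, hp, hq, map_add]
  | mul_X p j hp => rw [map_mul, MvPolynomial.coe_mul, hp, map_mul, aeval_X, aeval_X]

theorem exists_equiv_poly {b : Fin 3 → MvPolynomial (Fin 3) ℂ}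
    (hb : ∀ i, IFT.Ge 2 ((b i : MvPowerSeries (Fin 3) ℂ) - MvPowerSeries.X i)) :
    ∃ e : MvPowerSeries (Fin 3) ℂ ≃ₐ[ℂ] MvPowerSeries (Fin 3) ℂ,
      ∀ p : MvPolynomial (Fin 3) ℂ, e (p : MvPowerSeries (Fin 3) ℂ) =
        ((aeval b p : MvPolynomial (Fin 3) ℂ) : MvPowerSeries (Fin 3) ℂ) := by
  classical
  have hc : ∀ i, ∀ v : Fin 3 →₀ ℕ, v.degree < 2 →
      MvPowerSeries.coeff v (b i : MvPowerSeries (Fin 3) ℂ) =
        MvPowerSeries.coeff v (MvPowerSeries.X i : MvPowerSeries (Fin 3) ℂ) := by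
    intro i v hv
    have := hb i v hv
    rwa [map_sub, sub_eq_zero] at this
  have h0 : ∀ i, MvPowerSeries.constantCoeff ((b i : MvPowerSeries (Fin 3) ℂ)) = 0 := by
    intro i
    rw [← MvPowerSeries.coeff_zero_eq_constantCoeff_apply, hc i 0 (by simp),
      MvPowerSeries.coeff_zero_eq_constantCoeff_apply, MvPowerSeries.constantCoeff_X]
  have hJ : (Matrix.of fun i j => MvPowerSeries.coeff (Finsupp.single j 1)
      (b i : MvPowerSeries (Fin 3) ℂ)).det ≠ 0 := by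
    have h1 : (Matrix.of fun i j => MvPowerSeries.coeff (Finsupp.single j 1)
      (b i : MvPowerSeries (Fin 3) ℂ)) = (1 : Matrix (Fin 3) (Fin 3) ℂ) := by
      ext i j
      rw [Matrix.of_apply, hc i _ (by simp [Finsupp.degree_single]), MvPowerSeries.coeff_X,
        Matrix.one_apply]
      by_cases hij : i = j
      · subst hij
        simp
      · rw [if_neg hij, if_neg]
        intro h
        exact hij (Finsupp.single_left_injective one_ne_zero h).symm
    rw [h1, Matrix.det_one]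
    exact one_ne_zero
  obtain ⟨e, he⟩ := IFT.exists_equiv h0 hJ
  refine ⟨e, fun p => ?_⟩
  rw [he, coe_aeval]

theorem formEquivPow_of_eq {f g : MvPolynomial (Fin 3) ℂ}
    (e : MvPowerSeries (Fin 3) ℂ ≃ₐ[ℂ] MvPowerSeries (Fin 3) ℂ)
    (h : e (f : MvPowerSeries (Fin 3) ℂ) = (g : MvPowerSeries (Fin 3) ℂ)) :
    FormEquivPow f g 1 := by
  refine ⟨e.symm, 1, ?_⟩
  rw [← h, AlgEquiv.symm_apply_apply, pow_one, Units.val_one, one_mul]

/-! ### Congruences -/

/-- The series which are divisible by `x_2^(M+1)`. -/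
def zId (M : ℕ) : Ideal (MvPowerSeries (Fin 3) ℂ) where
  carrier := {g | ∀ v : Fin 3 →₀ ℕ, v 2 ≤ M → MvPowerSeries.coeff v g = 0}
  add_mem' := by
    intro g h hg hh v hv
    rw [map_add, hg v hv, hh v hv, add_zero]
  zero_mem' := fun v _ => map_zero _
  smul_mem' := by
    classical
    intro c g hg v hv
    rw [smul_eq_mul, MvPowerSeries.coeff_mul]
    refine Finset.sum_eq_zero fun p hp => ?_
    rw [Finset.HasAntidiagonal.mem_antidiagonal] at hp
    have h1 : p.1 2 + p.2 2 = v 2 := by rw [← hp]; rfl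
    rw [hg p.2 (by omega), mul_zero]

theorem aeval_sub_mem (J : Ideal (MvPowerSeries (Fin 3) ℂ)) {b c : Fin 3 → MvPowerSeries (Fin 3) ℂ}
    (h : ∀ i, b i - c i ∈ J) (p : MvPolynomial (Fin 3) ℂ) : aeval b p - aeval c p ∈ J := by
  induction p using MvPolynomial.induction_on with
  | C a =>
    rw [MvPolynomial.aeval_C, MvPolynomial.aeval_C, sub_self]
    exact J.zero_mem
  | add p q hp hq =>
    rw [map_add, map_add, add_sub_add_comm]
    exact J.add_mem hp hq
  | mul_X p j hp =>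
    rw [map_mul, map_mul, aeval_X, aeval_X]
    have : aeval b p * b j - aeval c p * c j = b j * (aeval b p - aeval c p) +
        aeval c p * (b j - c j) := by ring
    rw [this]
    exact J.add_mem (J.mul_mem_left _ hp) (J.mul_mem_left _ (h j))

/-- The terms of `φ` of degree at most `M` in `x_2`. -/
def tr (M : ℕ) (φ : MvPowerSeries (Fin 3) ℂ) : MvPolynomial (Fin 3) ℂ :=
  MvPowerSeries.trunc' ℂ (Finsupp.single 2 M) φ

theorem le_single_iff (M : ℕ) (v : Fin 3 →₀ ℕ) :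
    v ≤ Finsupp.single 2 M ↔ v 0 = 0 ∧ v 1 = 0 ∧ v 2 ≤ M := by
  constructor
  · intro h
    refine ⟨?_, ?_, ?_⟩
    · have := h 0
      simpa using this
    · have := h 1
      simpa using this
    · have := h 2
      simpa using this
  · rintro ⟨h0, h1, h2⟩ i
    fin_cases i
    · simp [h0]
    · simp [h1]
    · simpa using h2

theorem coeff_tr (M : ℕ) (φ : MvPowerSeries (Fin 3) ℂ) (v : Fin 3 →₀ ℕ) :
    coeff v (tr M φ) = if v 0 = 0 ∧ v 1 = 0 ∧ v 2 ≤ M then MvPowerSeries.coeff v φ else 0 := by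
  classical
  unfold tr
  rw [MvPowerSeries.coeff_trunc']
  simp only [le_single_iff]

theorem sub_tr_mem {φ : MvPowerSeries (Fin 3) ℂ} (hφ : Zs φ) (M : ℕ) :
    φ - (tr M φ : MvPowerSeries (Fin 3) ℂ) ∈ zId M := by
  intro v hv
  rw [map_sub, MvPolynomial.coeff_coe, coeff_tr]
  by_cases h : v 0 = 0 ∧ v 1 = 0
  · rw [if_pos ⟨h.1, h.2, hv⟩, sub_self]
  · rw [if_neg (fun h' => h ⟨h'.1, h'.2.1⟩), sub_zero]
    apply hφ
    tauto

theorem ge_tr {φ : MvPowerSeries (Fin 3) ℂ} (hφ : Zs φ) (M : ℕ) :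
    IFT.Ge 2 (tr M φ : MvPowerSeries (Fin 3) ℂ) := by
  intro v hv
  rw [MvPolynomial.coeff_coe, coeff_tr]
  split_ifs with h
  · apply hφ
    rw [Finsupp.degree_eq_sum, Fin.sum_univ_three] at hv
    omega
  · rfl

theorem zs_ge {φ : MvPowerSeries (Fin 3) ℂ} (hφ : Zs φ) : IFT.Ge 2 φ := by
  intro v hv
  apply hφ
  rw [Finsupp.degree_eq_sum, Fin.sum_univ_three] at hv
  omega

theorem sh_cc {φ ψ : MvPowerSeries (Fin 3) ℂ} (hφ : Zs φ) (hψ : Zs ψ) (i : Fin 3) :
    MvPowerSeries.constantCoeff (sh φ ψ i) = 0 := by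
  have h0 : ∀ {φ : MvPowerSeries (Fin 3) ℂ}, Zs φ → MvPowerSeries.constantCoeff φ = 0 := by
    intro φ hφ
    rw [← MvPowerSeries.coeff_zero_eq_constantCoeff_apply]
    exact zs_ge hφ 0 (by simp)
  fin_cases i
  · show MvPowerSeries.constantCoeff (MvPowerSeries.X 0 + φ) = 0
    rw [map_add, MvPowerSeries.constantCoeff_X, h0 hφ, add_zero]
  · show MvPowerSeries.constantCoeff (MvPowerSeries.X 1 + ψ) = 0
    rw [map_add, MvPowerSeries.constantCoeff_X, h0 hψ, add_zero]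
  · show MvPowerSeries.constantCoeff (MvPowerSeries.X 2) = 0
    rw [MvPowerSeries.constantCoeff_X]

theorem ge_cube {φ : MvPowerSeries (Fin 3) ℂ} (hφ : Zs φ) (i : Fin 3) :
    IFT.Ge 4 ((MvPowerSeries.X i + φ) ^ 3 - MvPowerSeries.X i ^ 3) := by
  have hX : IFT.Ge 1 (MvPowerSeries.X i : MvPowerSeries (Fin 3) ℂ) :=
    IFT.ge_one_iff.2 (MvPowerSeries.constantCoeff_X i)
  have hφ2 := zs_ge hφ
  have hφ1 : IFT.Ge 1 φ := hφ2.mono (by norm_num)
  have e : (MvPowerSeries.X i + φ) ^ 3 - MvPowerSeries.X i ^ 3 =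
      φ * (MvPowerSeries.C 3 * (MvPowerSeries.X i * (MvPowerSeries.X i + φ)) + φ * φ) := by
    rw [map_ofNat]
    ring
  rw [e]
  refine (hφ2.mul (IFT.Ge.add (d := 2) ?_ ?_)).mono (by norm_num)
  · exact (hX.mul (hX.add hφ1)).C_mul 3
  · exact hφ1.mul hφ1

theorem coeff_G {f : MvPolynomial (Fin 3) ℂ} (hf : Nf f) {φ ψ : MvPowerSeries (Fin 3) ℂ}
    (hφ : Zs φ) (hψ : Zs ψ) {v : Fin 3 →₀ ℕ} (hv : v.degree ≤ 3) :
    MvPowerSeries.coeff v (aeval (sh φ ψ) f : MvPowerSeries (Fin 3) ℂ) =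
      coeff v (X 0 ^ 3 + X 1 ^ 3) := by
  set r : MvPolynomial (Fin 3) ℂ := f - (X 0 ^ 3 + X 1 ^ 3) with hr
  have hr4 : IFT.Ge 4 (r : MvPowerSeries (Fin 3) ℂ) := by
    intro u hu
    rw [MvPolynomial.coeff_coe, hr, coeff_sub, sub_eq_zero]
    by_cases h3 : u.degree = 3
    · rw [← hf.three, coeff_homogeneousComponent, if_pos h3]
    · have h1 := congrArg (coeff u) (hf.low u.degree (by omega))
      rw [coeff_homogeneousComponent, if_pos rfl, coeff_zero] at h1
      rw [h1]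
      have h2 : (X 0 ^ 3 + X 1 ^ 3 : MvPolynomial (Fin 3) ℂ).IsHomogeneous 3 :=
        (isHomogeneous_X_pow 0 3).add (isHomogeneous_X_pow 1 3)
      exact (h2.coeff_eq_zero h3).symm
  have h1 := hr4.phi (sh_cc hφ hψ)
  have h2 : IFT.phi (sh_cc hφ hψ) (r : MvPowerSeries (Fin 3) ℂ) = aeval (sh φ ψ) r := by
    unfold IFT.phi
    rw [MvPowerSeries.substAlgHom_coe]
  rw [h2] at h1
  have h3 : (aeval (sh φ ψ) f : MvPowerSeries (Fin 3) ℂ) = aeval (sh φ ψ) r +
      ((MvPowerSeries.X 0 + φ) ^ 3 - MvPowerSeries.X 0 ^ 3) +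
      ((MvPowerSeries.X 1 + ψ) ^ 3 - MvPowerSeries.X 1 ^ 3) +
      ((X 0 ^ 3 + X 1 ^ 3 : MvPolynomial (Fin 3) ℂ) : MvPowerSeries (Fin 3) ℂ) := by
    have e0 : (sh φ ψ) 0 = MvPowerSeries.X 0 + φ := rfl
    have e1 : (sh φ ψ) 1 = MvPowerSeries.X 1 + ψ := rfl
    rw [hr, map_sub, map_add, map_pow, map_pow, aeval_X, aeval_X, e0, e1, MvPolynomial.coe_add,
      MvPolynomial.coe_pow, MvPolynomial.coe_pow, MvPolynomial.coe_X, MvPolynomial.coe_X]
    ring
  rw [h3, map_add, map_add, map_add, h1 v (by omega), ge_cube hφ 0 v (by omega),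
    ge_cube hψ 1 v (by omega), MvPolynomial.coeff_coe]
  ring

theorem exists_n {i j : ℕ} (k : ℕ) (h : i + j < 3) : ∃ n, n * (3 - i - j) = 6 * k := by
  have h1 : i + j = 0 ∨ i + j = 1 ∨ i + j = 2 := by omega
  rcases h1 with h1 | h1 | h1
  · refine ⟨2 * k, ?_⟩
    rw [show 3 - i - j = 3 by omega]
    ring
  · refine ⟨3 * k, ?_⟩
    rw [show 3 - i - j = 2 by omega]
    ring
  · refine ⟨6 * k, ?_⟩
    rw [show 3 - i - j = 1 by omega]
    ring

theorem exists_W {G : MvPowerSeries (Fin 3) ℂ}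
    (hne : ∃ v : Fin 3 →₀ ℕ, v 0 + v 1 < 3 ∧ MvPowerSeries.coeff v G ≠ 0) :
    ∃ W : ℕ, (∀ i j k, i + j < 3 → MvPowerSeries.coeff (ex3 i j k) G ≠ 0 →
      W * (3 - i - j) ≤ 6 * k) ∧
      ∃ i j k, i + j < 3 ∧ MvPowerSeries.coeff (ex3 i j k) G ≠ 0 ∧ W * (3 - i - j) = 6 * k := by
  classical
  have hex : ∃ n, ∃ i j k, i + j < 3 ∧ MvPowerSeries.coeff (ex3 i j k) G ≠ 0 ∧
      n * (3 - i - j) = 6 * k := by
    obtain ⟨v, hv, hv'⟩ := hne
    obtain ⟨n, hn⟩ := exists_n (v 2) hv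
    refine ⟨n, v 0, v 1, v 2, hv, ?_, hn⟩
    rwa [ex3_eta]
  refine ⟨Nat.find hex, fun i j k h hk => ?_, Nat.find_spec hex⟩
  obtain ⟨n, hn⟩ := exists_n k h
  have h1 : Nat.find hex ≤ n := Nat.find_min' hex ⟨i, j, k, h, hk, hn⟩
  rw [← hn]
  exact Nat.mul_le_mul_right _ h1

/-- The data of a Tschirnhausen form of slope `W/6`. -/
structure Sd (g : MvPolynomial (Fin 3) ℂ) (W : ℕ) : Prop where
  deg3 : ∀ v : Fin 3 →₀ ℕ, v.degree ≤ 3 → coeff v g = coeff v (X 0 ^ 3 + X 1 ^ 3)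
  low : ∀ i j k, i + j < 3 → coeff (ex3 i j k) g ≠ 0 → W * (3 - i - j) ≤ 6 * k
  ex : ∃ i j k, i + j < 3 ∧ coeff (ex3 i j k) g ≠ 0 ∧ W * (3 - i - j) = 6 * k
  t : ∀ k ≤ W, coeff (ex3 2 0 k) g = 0 ∧ coeff (ex3 0 2 k) g = 0

theorem coeff_cubes (i j k : ℕ) : coeff (ex3 i j k) (X 0 ^ 3 + X 1 ^ 3 : MvPolynomial (Fin 3) ℂ) =
    if i = 3 ∧ j = 0 ∧ k = 0 then 1 else if i = 0 ∧ j = 3 ∧ k = 0 then 1 else 0 := by
  have e : (X 0 ^ 3 + X 1 ^ 3 : MvPolynomial (Fin 3) ℂ) = C 1 * (X 0 ^ 3 * X 1 ^ 0 * X 2 ^ 0) +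
      C 1 * (X 0 ^ 0 * X 1 ^ 3 * X 2 ^ 0) := by
    simp
  rw [e, coeff_add, coeff_ex3, coeff_ex3]
  by_cases h1 : i = 3 ∧ j = 0 ∧ k = 0
  · rw [if_pos h1, if_pos (by omega), if_neg (by omega), add_zero]
  · rw [if_neg h1, if_neg (by omega), zero_add]
    by_cases h2 : i = 0 ∧ j = 3 ∧ k = 0
    · rw [if_pos h2, if_pos (by omega)]
    · rw [if_neg h2, if_neg (by omega)]

theorem Sd.hW {g : MvPolynomial (Fin 3) ℂ} {W : ℕ} (h : Sd g W) : 8 ≤ W := by
  obtain ⟨i, j, k, h1, h2, h3⟩ := h.ex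
  have h4 : 4 ≤ i + j + k := by
    by_contra hlt
    apply h2
    rw [h.deg3 _ (by rw [ex3_degree]; omega), coeff_cubes, if_neg (by omega), if_neg (by omega)]
  have h5 : i + j = 0 ∨ i + j = 1 ∨ i + j = 2 := by omega
  rcases h5 with h5 | h5 | h5
  · rw [show 3 - i - j = 3 by omega] at h3
    omega
  · rw [show 3 - i - j = 2 by omega] at h3
    omega
  · rw [show 3 - i - j = 1 by omega] at h3
    omega

/-- The truncated Tschirnhausen form. -/
theorem exists_Sd {f : MvPolynomial (Fin 3) ℂ} (hf : Nf f) {φ ψ : MvPowerSeries (Fin 3) ℂ}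
    (hφ : Zs φ) (hψ : Zs ψ)
    (hT : ∀ k, MvPowerSeries.coeff (ex3 2 0 k) (aeval (sh φ ψ) f : MvPowerSeries (Fin 3) ℂ) = 0 ∧
        MvPowerSeries.coeff (ex3 0 2 k) (aeval (sh φ ψ) f : MvPowerSeries (Fin 3) ℂ) = 0)
    (hne : ∃ v : Fin 3 →₀ ℕ, v 0 + v 1 < 3 ∧
      MvPowerSeries.coeff v (aeval (sh φ ψ) f : MvPowerSeries (Fin 3) ℂ) ≠ 0) :
    ∃ (g : MvPolynomial (Fin 3) ℂ) (W : ℕ)
      (e : MvPowerSeries (Fin 3) ℂ ≃ₐ[ℂ] MvPowerSeries (Fin 3) ℂ),
      e (f : MvPowerSeries (Fin 3) ℂ) = (g : MvPowerSeries (Fin 3) ℂ) ∧ Sd g W := by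
  obtain ⟨W, hW1, i₀, j₀, k₀, hs1, hs2, hs3⟩ := exists_W hne
  set b : Fin 3 → MvPolynomial (Fin 3) ℂ := ![X 0 + tr W φ, X 1 + tr W ψ, X 2] with hb
  have hb2 : ∀ i, IFT.Ge 2 ((b i : MvPowerSeries (Fin 3) ℂ) - MvPowerSeries.X i) := by
    intro i
    fin_cases i
    · show IFT.Ge 2 (((X 0 + tr W φ : MvPolynomial (Fin 3) ℂ) : MvPowerSeries (Fin 3) ℂ) -
        MvPowerSeries.X 0)
      rw [MvPolynomial.coe_add, MvPolynomial.coe_X, add_sub_cancel_left]
      exact ge_tr hφ W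
    · show IFT.Ge 2 (((X 1 + tr W ψ : MvPolynomial (Fin 3) ℂ) : MvPowerSeries (Fin 3) ℂ) -
        MvPowerSeries.X 1)
      rw [MvPolynomial.coe_add, MvPolynomial.coe_X, add_sub_cancel_left]
      exact ge_tr hψ W
    · show IFT.Ge 2 (((X 2 : MvPolynomial (Fin 3) ℂ) : MvPowerSeries (Fin 3) ℂ) -
        MvPowerSeries.X 2)
      rw [MvPolynomial.coe_X, sub_self]
      exact IFT.Ge.zero 2
  obtain ⟨e, he⟩ := exists_equiv_poly hb2
  have hcong : ∀ i, sh φ ψ i - (b i : MvPowerSeries (Fin 3) ℂ) ∈ zId W := by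
    intro i
    fin_cases i
    · show (MvPowerSeries.X 0 + φ) -
        ((X 0 + tr W φ : MvPolynomial (Fin 3) ℂ) : MvPowerSeries (Fin 3) ℂ) ∈ zId W
      rw [MvPolynomial.coe_add, MvPolynomial.coe_X, add_sub_add_left_eq_sub]
      exact sub_tr_mem hφ W
    · show (MvPowerSeries.X 1 + ψ) -
        ((X 1 + tr W ψ : MvPolynomial (Fin 3) ℂ) : MvPowerSeries (Fin 3) ℂ) ∈ zId W
      rw [MvPolynomial.coe_add, MvPolynomial.coe_X, add_sub_add_left_eq_sub]
      exact sub_tr_mem hψ W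
    · show MvPowerSeries.X 2 -
        ((X 2 : MvPolynomial (Fin 3) ℂ) : MvPowerSeries (Fin 3) ℂ) ∈ zId W
      rw [MvPolynomial.coe_X, sub_self]
      exact (zId W).zero_mem
  have hco : ∀ v : Fin 3 →₀ ℕ, v 2 ≤ W → coeff v (aeval b f) =
      MvPowerSeries.coeff v (aeval (sh φ ψ) f : MvPowerSeries (Fin 3) ℂ) := by
    intro v hv
    have h1 := aeval_sub_mem (zId W) hcong f v hv
    rw [map_sub, sub_eq_zero] at h1
    rw [h1, ← coe_aeval, MvPolynomial.coeff_coe]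
  refine ⟨aeval b f, W, e, he f, ?_⟩
  have hWk : 2 * k₀ ≤ W := by
    have h5 : 3 - i₀ - j₀ ≤ 3 := by omega
    have := Nat.mul_le_mul_left W h5
    omega
  have hW8 : 8 ≤ W := by
    have h4 : 4 ≤ i₀ + j₀ + k₀ := by
      by_contra hlt
      apply hs2
      rw [coeff_G hf hφ hψ (by rw [ex3_degree]; omega), coeff_cubes, if_neg (by omega),
        if_neg (by omega)]
    have h5 : i₀ + j₀ = 0 ∨ i₀ + j₀ = 1 ∨ i₀ + j₀ = 2 := by omega
    rcases h5 with h5 | h5 | h5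
    · rw [show 3 - i₀ - j₀ = 3 by omega] at hs3
      omega
    · rw [show 3 - i₀ - j₀ = 2 by omega] at hs3
      omega
    · rw [show 3 - i₀ - j₀ = 1 by omega] at hs3
      omega
  refine ⟨?_, ?_, ?_, ?_⟩
  · intro v hv
    rw [hco v ?_, coeff_G hf hφ hψ hv]
    rw [Finsupp.degree_eq_sum, Fin.sum_univ_three] at hv
    omega
  · intro i j k h1 h2
    by_cases hk : k ≤ W
    · rw [hco _ (by rwa [ex3_two])] at h2
      exact hW1 i j k h1 h2
    · have h5 : 3 - i - j ≤ 3 := by omega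
      have := Nat.mul_le_mul_left W h5
      omega
  · refine ⟨i₀, j₀, k₀, hs1, ?_, hs3⟩
    rwa [hco _ (by rw [ex3_two]; omega)]
  · intro k hk
    rw [hco _ (by rwa [ex3_two]), hco _ (by rwa [ex3_two])]
    exact hT k

/-! ### Weights -/

theorem coeff_initialPart (g : MvPolynomial (Fin 3) ℂ) (w : Fin 3 → ℕ) (v : Fin 3 →₀ ℕ) :
    coeff v (initialPart g w) = if v ∈ g.support ∧
      (∀ u ∈ g.support, ∑ j, w j * v j ≤ ∑ j, w j * u j) then coeff v g else 0 := by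
  classical
  unfold initialPart
  rw [coeff_sum]
  simp only [coeff_monomial]
  rw [Finset.sum_ite_eq']
  simp only [Finset.mem_filter]

theorem initialPart_eq_whc {g : MvPolynomial (Fin 3) ℂ} {w : Fin 3 → ℕ} {D : ℕ}
    (h1 : ∀ v ∈ g.support, D ≤ ∑ i, w i * v i) (h2 : ∃ v ∈ g.support, ∑ i, w i * v i = D) :
    initialPart g w = weightedHomogeneousComponent w D g := by
  classical
  ext v
  rw [coeff_initialPart, coeff_weightedHomogeneousComponent, weight_eq]
  by_cases hv : v ∈ g.support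
  · by_cases hD : ∑ i, w i * v i = D
    · rw [if_pos hD, if_pos ⟨hv, fun u hu => by rw [hD]; exact h1 u hu⟩]
    · rw [if_neg hD, if_neg]
      rintro ⟨-, h⟩
      obtain ⟨u, hu, hu'⟩ := h2
      have h3 := h u hu
      have h4 := h1 v hv
      omega
  · rw [notMem_support_iff.1 hv, ite_self, ite_self]

/-- The polynomial `x_0^3 + x_1^3 + q x_0 x_1 x_2^a + l x_0 x_2^b + m x_1 x_2^b + c x_2^d`. -/
def HH (q l m c : ℂ) (a b d : ℕ) : MvPolynomial (Fin 3) ℂ :=
  X 0 ^ 3 + X 1 ^ 3 + C q * (X 0 * X 1 * X 2 ^ a) + C l * (X 0 * X 2 ^ b) +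
    C m * (X 1 * X 2 ^ b) + C c * X 2 ^ d

theorem coeff_HH (q l m c : ℂ) (a b d i j k : ℕ) :
    coeff (ex3 i j k) (HH q l m c a b d) =
      (if i = 3 ∧ j = 0 ∧ k = 0 then 1 else 0) + (if i = 0 ∧ j = 3 ∧ k = 0 then 1 else 0) +
      (if i = 1 ∧ j = 1 ∧ k = a then q else 0) + (if i = 1 ∧ j = 0 ∧ k = b then l else 0) +
      (if i = 0 ∧ j = 1 ∧ k = b then m else 0) + (if i = 0 ∧ j = 0 ∧ k = d then c else 0) := by
  have e : HH q l m c a b d = C 1 * (X 0 ^ 3 * X 1 ^ 0 * X 2 ^ 0) +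
      C 1 * (X 0 ^ 0 * X 1 ^ 3 * X 2 ^ 0) + C q * (X 0 ^ 1 * X 1 ^ 1 * X 2 ^ a) +
      C l * (X 0 ^ 1 * X 1 ^ 0 * X 2 ^ b) + C m * (X 0 ^ 0 * X 1 ^ 1 * X 2 ^ b) +
      C c * (X 0 ^ 0 * X 1 ^ 0 * X 2 ^ d) := by
    simp [HH]
  rw [e]
  simp only [coeff_add, coeff_ex3]
  have h : ∀ x y z x' y' z' : ℕ, (x = x' ∧ y = y' ∧ z = z') ↔ (x' = x ∧ y' = y ∧ z' = z) := by
    intros
    omega
  simp only [h 3 0 0, h 0 3 0, h 1 1 a, h 1 0 b, h 0 1 b, h 0 0 d]

/-- The initial part of a Tschirnhausen form. -/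
def hh (g : MvPolynomial (Fin 3) ℂ) (W : ℕ) : MvPolynomial (Fin 3) ℂ :=
  HH (if 6 * (W / 6) = W then coeff (ex3 1 1 (W / 6)) g else 0)
    (if 3 * (W / 3) = W then coeff (ex3 1 0 (W / 3)) g else 0)
    (if 3 * (W / 3) = W then coeff (ex3 0 1 (W / 3)) g else 0)
    (if 2 * (W / 2) = W then coeff (ex3 0 0 (W / 2)) g else 0) (W / 6) (W / 3) (W / 2)

theorem Sd.coeff_hh {g : MvPolynomial (Fin 3) ℂ} {W : ℕ} (h : Sd g W) (i j k : ℕ) :
    coeff (ex3 i j k) (hh g W) =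
      if W * i + W * j + 6 * k = 3 * W then coeff (ex3 i j k) g else 0 := by
  have hW := h.hW
  unfold hh
  rw [coeff_HH]
  by_cases hw : W * i + W * j + 6 * k = 3 * W
  · rw [if_pos hw]
    have hij : i + j ≤ 3 := by
      by_contra hlt
      have h1 : 4 ≤ i + j := by omega
      have h2 := Nat.mul_le_mul_left W h1
      rw [mul_add] at h2
      omega
    by_cases h3 : i + j = 3
    · have hk : k = 0 := by
        have h2 : W * i + W * j = 3 * W := by rw [← mul_add, h3, mul_comm]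
        omega
      subst hk
      rw [h.deg3 (ex3 i j 0) (by rw [ex3_degree]; omega), coeff_cubes]
      by_cases h4 : i = 3
      · have : j = 0 := by omega
        subst h4 this
        simp
      · by_cases h5 : i = 0
        · have : j = 3 := by omega
          subst h5 this
          simp
        · have hj : j ≠ 0 ∧ j ≠ 3 := by omega
          simp only [h4, h5, hj.1, hj.2, false_and, and_false, if_false]
          have h6 : ¬ (i = 1 ∧ j = 1 ∧ 0 = W / 6) := by omega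
          rw [if_neg h6]
          simp
    · have h4 : i + j = 0 ∨ i + j = 1 ∨ i + j = 2 := by omega
      rcases h4 with h4 | h4 | h4
      · have hi : i = 0 := by omega
        have hj : j = 0 := by omega
        subst hi hj
        have e1 : 2 * (W / 2) = W := by omega
        have e2 : k = W / 2 := by omega
        simp [e1, e2]
      · have h5 : W * i + W * j = W := by rw [← mul_add, h4, mul_one]
        have e1 : 3 * (W / 3) = W := by omega
        have e2 : k = W / 3 := by omega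
        by_cases hi : i = 0
        · have hj : j = 1 := by omega
          subst hi hj
          simp [e1, e2]
        · have hi : i = 1 := by omega
          have hj : j = 0 := by omega
          subst hi hj
          simp [e1, e2]
      · have h5 : W * i + W * j = W * 2 := by rw [← mul_add, h4]
        have e1 : 6 * (W / 6) = W := by omega
        have e2 : k = W / 6 := by omega
        have hk : k ≤ W := by omega
        by_cases hi : i = 0
        · have hj : j = 2 := by omega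
          subst hi hj
          rw [(h.t k hk).2]
          simp
        · by_cases hi' : i = 2
          · have hj : j = 0 := by omega
            subst hi' hj
            rw [(h.t k hk).1]
            simp
          · have hi : i = 1 := by omega
            have hj : j = 1 := by omega
            subst hi hj
            simp [e1, e2]
  · rw [if_neg hw]
    have c1 : ¬ (i = 3 ∧ j = 0 ∧ k = 0) := by
      rintro ⟨rfl, rfl, rfl⟩
      omega
    have c2 : ¬ (i = 0 ∧ j = 3 ∧ k = 0) := by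
      rintro ⟨rfl, rfl, rfl⟩
      omega
    rw [if_neg c1, if_neg c2, zero_add, zero_add]
    have c3 : (if i = 1 ∧ j = 1 ∧ k = W / 6 then
        (if 6 * (W / 6) = W then coeff (ex3 1 1 (W / 6)) g else 0) else 0) = 0 := by
      split_ifs with h1 h2
      · exfalso
        obtain ⟨rfl, rfl, rfl⟩ := h1
        omega
      · rfl
      · rfl
    have c4 : (if i = 1 ∧ j = 0 ∧ k = W / 3 then
        (if 3 * (W / 3) = W then coeff (ex3 1 0 (W / 3)) g else 0) else 0) = 0 := by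
      split_ifs with h1 h2
      · exfalso
        obtain ⟨rfl, rfl, rfl⟩ := h1
        omega
      · rfl
      · rfl
    have c5 : (if i = 0 ∧ j = 1 ∧ k = W / 3 then
        (if 3 * (W / 3) = W then coeff (ex3 0 1 (W / 3)) g else 0) else 0) = 0 := by
      split_ifs with h1 h2
      · exfalso
        obtain ⟨rfl, rfl, rfl⟩ := h1
        omega
      · rfl
      · rfl
    have c6 : (if i = 0 ∧ j = 0 ∧ k = W / 2 then
        (if 2 * (W / 2) = W then coeff (ex3 0 0 (W / 2)) g else 0) else 0) = 0 := by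
      split_ifs with h1 h2
      · exfalso
        obtain ⟨rfl, rfl, rfl⟩ := h1
        omega
      · rfl
      · rfl
    rw [c3, c4, c5, c6]
    simp

theorem Sd.weight {g : MvPolynomial (Fin 3) ℂ} {W : ℕ} (h : Sd g W) {i j k : ℕ}
    (hc : coeff (ex3 i j k) g ≠ 0) : 3 * W ≤ W * i + W * j + 6 * k := by
  by_cases h3 : i + j < 3
  · have h1 := h.low i j k h3 hc
    have h2 : W * i + W * j + W * (3 - i - j) = 3 * W := by
      rw [← mul_add, ← mul_add, show i + j + (3 - i - j) = 3 by omega, mul_comm]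
    omega
  · have h1 : 3 ≤ i + j := by omega
    have h2 := Nat.mul_le_mul_left W h1
    rw [mul_add] at h2
    omega

theorem Sd.supp {g : MvPolynomial (Fin 3) ℂ} {W : ℕ} (h : Sd g W) {w : Fin 3 → ℕ} {D : ℕ}
    (hw : ∀ i j k, 3 * W ≤ W * i + W * j + 6 * k → D ≤ w 0 * i + w 1 * j + w 2 * k) :
    ∀ v ∈ g.support, D ≤ ∑ i, w i * v i := by
  intro v hv
  rw [mem_support_iff, ← ex3_eta v] at hv
  rw [Fin.sum_univ_three]
  exact hw _ _ _ (h.weight hv)

theorem Sd.whc {g : MvPolynomial (Fin 3) ℂ} {W : ℕ} (h : Sd g W) {w : Fin 3 → ℕ} {D : ℕ}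
    (hw : ∀ i j k, w 0 * i + w 1 * j + w 2 * k = D ↔ W * i + W * j + 6 * k = 3 * W) :
    weightedHomogeneousComponent w D g = hh g W := by
  classical
  ext v
  obtain ⟨i, j, k, rfl⟩ := exists_ex3 v
  rw [coeff_weightedHomogeneousComponent, weight_eq, Fin.sum_univ_three, ex3_zero, ex3_one,
    ex3_two, h.coeff_hh]
  simp only [hw]

theorem Sd.init {g : MvPolynomial (Fin 3) ℂ} {W : ℕ} (h : Sd g W) {w : Fin 3 → ℕ} {D : ℕ}
    (hw : ∀ i j k, w 0 * i + w 1 * j + w 2 * k = D ↔ W * i + W * j + 6 * k = 3 * W)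
    (hw' : ∀ i j k, 3 * W ≤ W * i + W * j + 6 * k → D ≤ w 0 * i + w 1 * j + w 2 * k) :
    initialPart g w = hh g W := by
  rw [initialPart_eq_whc (h.supp hw'), h.whc hw]
  refine ⟨ex3 3 0 0, ?_, ?_⟩
  · rw [mem_support_iff, h.deg3 _ (by rw [ex3_degree]), coeff_cubes]
    simp
  · rw [Fin.sum_univ_three, ex3_zero, ex3_one, ex3_two, hw]
    ring

/-- Not all the coefficients vanish. -/
theorem Sd.ne {g : MvPolynomial (Fin 3) ℂ} {W : ℕ} (h : Sd g W) :
    (W = 6 * (W / 6) ∧ coeff (ex3 1 1 (W / 6)) g ≠ 0) ∨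
    (W = 3 * (W / 3) ∧ (coeff (ex3 1 0 (W / 3)) g ≠ 0 ∨ coeff (ex3 0 1 (W / 3)) g ≠ 0)) ∨
    (W = 2 * (W / 2) ∧ coeff (ex3 0 0 (W / 2)) g ≠ 0) := by
  obtain ⟨i, j, k, h1, h2, h3⟩ := h.ex
  have h4 : i + j = 0 ∨ i + j = 1 ∨ i + j = 2 := by omega
  rcases h4 with h4 | h4 | h4
  · have hi : i = 0 := by omega
    have hj : j = 0 := by omega
    subst hi hj
    right; right
    have hk : k = W / 2 := by omega
    subst hk
    exact ⟨by omega, h2⟩
  · rw [show 3 - i - j = 2 by omega] at h3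
    have hk : k = W / 3 := by omega
    subst hk
    right; left
    refine ⟨by omega, ?_⟩
    by_cases hi : i = 0
    · have hj : j = 1 := by omega
      subst hi hj
      exact Or.inr h2
    · have hi : i = 1 := by omega
      have hj : j = 0 := by omega
      subst hi hj
      exact Or.inl h2
  · rw [show 3 - i - j = 1 by omega] at h3
    have hk : k = W / 6 := by omega
    have hkW : k ≤ W := by omega
    left
    refine ⟨by omega, ?_⟩
    by_cases hi : i = 0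
    · exfalso
      have hj : j = 2 := by omega
      subst hi hj
      exact h2 (h.t k hkW).2
    · by_cases hi' : i = 2
      · exfalso
        have hj : j = 0 := by omega
        subst hi' hj
        exact h2 (h.t k hkW).1
      · have hi : i = 1 := by omega
        have hj : j = 1 := by omega
        subst hi hj
        rw [← hk]
        exact h2

theorem eval_pderiv_HH (q l m c : ℂ) (a b d : ℕ) (p : Fin 3 → ℂ) :
    eval p (pderiv 0 (HH q l m c a b d)) = 3 * p 0 ^ 2 + q * p 1 * p 2 ^ a + l * p 2 ^ b ∧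
    eval p (pderiv 1 (HH q l m c a b d)) = 3 * p 1 ^ 2 + q * p 0 * p 2 ^ a + m * p 2 ^ b ∧
    eval p (pderiv 2 (HH q l m c a b d)) = q * p 0 * p 1 * (a * p 2 ^ (a - 1)) +
      l * p 0 * (b * p 2 ^ (b - 1)) + m * p 1 * (b * p 2 ^ (b - 1)) + c * (d * p 2 ^ (d - 1)) := by
  have h01 : (0 : Fin 3) ≠ 1 := by decide
  have h02 : (0 : Fin 3) ≠ 2 := by decide
  have h12 : (1 : Fin 3) ≠ 2 := by decide
  unfold HH
  refine ⟨?_, ?_, ?_⟩
  · simp only [map_add, pderiv_mul, pderiv_C, pderiv_pow, pderiv_X_self,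
      pderiv_X_of_ne h01.symm, pderiv_X_of_ne h02.symm, map_mul, map_pow, eval_X, eval_C,
      map_zero, map_one, map_natCast]
    push_cast
    ring
  · simp only [map_add, pderiv_mul, pderiv_C, pderiv_pow, pderiv_X_self,
      pderiv_X_of_ne h01, pderiv_X_of_ne h12.symm, map_mul, map_pow, eval_X, eval_C,
      map_zero, map_one, map_natCast]
    push_cast
    ring
  · simp only [map_add, pderiv_mul, pderiv_C, pderiv_pow, pderiv_X_self,
      pderiv_X_of_ne h02, pderiv_X_of_ne h12, map_mul, map_pow, eval_X, eval_C,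
      map_zero, map_one, map_natCast]
    push_cast
    ring

/-- The case of slope not in `(1/2) ℤ`. -/
theorem Sd.caseA {g : MvPolynomial (Fin 3) ℂ} {W : ℕ} (h : Sd g W) (h3 : 3 * (W / 3) ≠ W) :
    ∃ w : Fin 3 → ℕ, (∀ i, 0 < w i) ∧
      ∀ p : Fin 3 → ℂ, p ≠ 0 → ∃ i, eval p (pderiv i (initialPart g w)) ≠ 0 := by
  have hW := h.hW
  have h6 : 6 * (W / 6) ≠ W := by omega
  refine ⟨![W, W, 6], ?_, ?_⟩
  · intro i
    fin_cases i
    · show 0 < W
      omega
    · show 0 < W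
      omega
    · show 0 < 6
      omega
  · intro p hp
    rw [h.init (D := 3 * W) (fun i j k => Iff.rfl) (fun i j k h => h)]
    unfold hh
    rw [if_neg h3, if_neg h3, if_neg h6]
    have h2 : 2 * (W / 2) = W ∧ coeff (ex3 0 0 (W / 2)) g ≠ 0 := by
      rcases h.ne with h1 | h1 | h1
      · exact absurd h1.1.symm h6
      · exact absurd h1.1.symm h3
      · exact ⟨h1.1.symm, h1.2⟩
    rw [if_pos h2.1]
    obtain ⟨e0, e1, e2⟩ := eval_pderiv_HH 0 0 0 (coeff (ex3 0 0 (W / 2)) g) (W / 6) (W / 3) (W / 2) p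
    by_contra hcon
    push Not at hcon
    have c0 := hcon 0
    have c1 := hcon 1
    have c2 := hcon 2
    rw [e0] at c0
    rw [e1] at c1
    rw [e2] at c2
    have p0 : p 0 = 0 := by
      have : p 0 ^ 2 = 0 := by linear_combination (1 / 3 : ℂ) * c0
      exact pow_eq_zero_iff (two_ne_zero) |>.1 this
    have p1 : p 1 = 0 := by
      have : p 1 ^ 2 = 0 := by linear_combination (1 / 3 : ℂ) * c1
      exact pow_eq_zero_iff (two_ne_zero) |>.1 this
    have p2 : p 2 ≠ 0 := by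
      intro p2
      apply hp
      funext i
      fin_cases i
      · exact p0
      · exact p1
      · exact p2
    have hd : ((W / 2 : ℕ) : ℂ) ≠ 0 := by
      rw [Nat.cast_ne_zero]
      omega
    have : coeff (ex3 0 0 (W / 2)) g * (((W / 2 : ℕ) : ℂ) * p 2 ^ (W / 2 - 1)) ≠ 0 :=
      mul_ne_zero h2.2 (mul_ne_zero hd (pow_ne_zero _ p2))
    apply this
    linear_combination c2

theorem supp_of_coeff {P : MvPolynomial (Fin 3) ℂ}
    (h : ∀ i j k, k ≠ 0 → coeff (ex3 i j k) P = 0) : ∀ v ∈ P.support, v 2 = 0 := by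
  intro v hv
  by_contra hne
  rw [mem_support_iff, ← ex3_eta v] at hv
  exact hv (h _ _ _ hne)

theorem binForm_one {l m : ℂ} (h : l ≠ 0 ∨ m ≠ 0) :
    BinForm (C l * X 0 + C m * X 1) 1 := by
  have e : (C l * X 0 + C m * X 1 : MvPolynomial (Fin 3) ℂ) =
      C l * (X 0 ^ 1 * X 1 ^ 0 * X 2 ^ 0) + C m * (X 0 ^ 0 * X 1 ^ 1 * X 2 ^ 0) := by
    simp
  refine ⟨?_, ?_, ?_⟩
  · exact ((isHomogeneous_X ℂ (0 : Fin 3)).C_mul l).add ((isHomogeneous_X ℂ (1 : Fin 3)).C_mul m)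
  · apply supp_of_coeff
    intro i j k hk
    rw [e, coeff_add, coeff_ex3, coeff_ex3, if_neg (by omega), if_neg (by omega), add_zero]
  · intro h0
    rcases h with h | h
    · apply h
      have := congrArg (coeff (ex3 1 0 0)) h0
      rw [e, coeff_add, coeff_ex3, coeff_ex3, coeff_zero] at this
      simpa using this
    · apply h
      have := congrArg (coeff (ex3 0 1 0)) h0
      rw [e, coeff_add, coeff_ex3, coeff_ex3, coeff_zero] at this
      simpa using this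

theorem binForm_two {a q b : ℂ} (h : a ≠ 0 ∨ q ≠ 0 ∨ b ≠ 0) :
    BinForm (C a * X 0 ^ 2 + C q * (X 0 * X 1) + C b * X 1 ^ 2) 2 := by
  have e : (C a * X 0 ^ 2 + C q * (X 0 * X 1) + C b * X 1 ^ 2 : MvPolynomial (Fin 3) ℂ) =
      C a * (X 0 ^ 2 * X 1 ^ 0 * X 2 ^ 0) + C q * (X 0 ^ 1 * X 1 ^ 1 * X 2 ^ 0) +
      C b * (X 0 ^ 0 * X 1 ^ 2 * X 2 ^ 0) := by
    simp
  refine ⟨?_, ?_, ?_⟩
  · have h0 : (X 0 ^ 2 : MvPolynomial (Fin 3) ℂ).IsHomogeneous 2 := isHomogeneous_X_pow 0 2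
    have h1 : (X 1 ^ 2 : MvPolynomial (Fin 3) ℂ).IsHomogeneous 2 := isHomogeneous_X_pow 1 2
    have h2 : (X 0 * X 1 : MvPolynomial (Fin 3) ℂ).IsHomogeneous 2 :=
      (isHomogeneous_X ℂ (0 : Fin 3)).mul (isHomogeneous_X ℂ (1 : Fin 3))
    exact ((h0.C_mul a).add (h2.C_mul q)).add (h1.C_mul b)
  · apply supp_of_coeff
    intro i j k hk
    rw [e, coeff_add, coeff_add, coeff_ex3, coeff_ex3, coeff_ex3, if_neg (by omega),
      if_neg (by omega), if_neg (by omega), add_zero, add_zero]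
  · intro h0
    rcases h with h | h | h
    · apply h
      have := congrArg (coeff (ex3 2 0 0)) h0
      rw [e, coeff_add, coeff_add, coeff_ex3, coeff_ex3, coeff_ex3, coeff_zero] at this
      simpa using this
    · apply h
      have := congrArg (coeff (ex3 1 1 0)) h0
      rw [e, coeff_add, coeff_add, coeff_ex3, coeff_ex3, coeff_ex3, coeff_zero] at this
      simpa using this
    · apply h
      have := congrArg (coeff (ex3 0 2 0)) h0
      rw [e, coeff_add, coeff_add, coeff_ex3, coeff_ex3, coeff_ex3, coeff_zero] at this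
      simpa using this

/-- The case of a slope in `1/2 + ℤ`. -/
theorem Sd.caseB {g : MvPolynomial (Fin 3) ℂ} {W e : ℕ} (h : Sd g W) (he : W = 3 * e)
    (ho : Odd e) : ∃ P : MvPolynomial (Fin 3) ℂ, BinForm P 1 ∧
      (∀ v ∈ g.support, 3 * e ≤ ∑ i, wts e 1 i * v i) ∧
      weightedHomogeneousComponent (wts e 1) (3 * e) g = gw e P := by
  obtain ⟨r, hr⟩ := ho
  have e3 : W / 3 = e := by omega
  have w0 : wts e 1 0 = e := rfl
  have w1 : wts e 1 1 = e := rfl
  have w2 : wts e 1 2 = 2 := rfl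
  refine ⟨C (coeff (ex3 1 0 e) g) * X 0 + C (coeff (ex3 0 1 e) g) * X 1, binForm_one ?_, ?_, ?_⟩
  · rcases h.ne with h1 | h1 | h1
    · exfalso
      omega
    · rw [e3] at h1
      exact h1.2
    · exfalso
      omega
  · apply h.supp
    intro i j k hijk
    rw [w0, w1, w2]
    rw [he] at hijk
    have x1 : 3 * e * i = 3 * (e * i) := by ring
    have x2 : 3 * e * j = 3 * (e * j) := by ring
    omega
  · rw [h.whc (w := wts e 1) (D := 3 * e)]
    · unfold hh gw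
      rw [if_neg (by omega), if_pos (by omega), if_pos (by omega), if_neg (by omega), e3]
      unfold HH
      rw [C_0]
      ring
    · intro i j k
      rw [w0, w1, w2, he]
      have x1 : 3 * e * i = 3 * (e * i) := by ring
      have x2 : 3 * e * j = 3 * (e * j) := by ring
      omega

/-- Substitutions of weighted homogeneous polynomials. -/
theorem whc_aeval {w : Fin 3 → ℕ} {S : Fin 3 → MvPolynomial (Fin 3) ℂ}
    (hS : ∀ i, IsWeightedHomogeneous w (S i) (w i)) (D : ℕ) (p : MvPolynomial (Fin 3) ℂ) :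
    weightedHomogeneousComponent w D (aeval S p) =
      aeval S (weightedHomogeneousComponent w D p) := by
  induction p using MvPolynomial.induction_on' with
  | add p q hp hq => rw [map_add, map_add, hp, hq, map_add, map_add]
  | monomial u a =>
    have h1 : IsWeightedHomogeneous w (aeval S (monomial u a)) (Finsupp.weight w u) := by
      rw [aeval_monomial, Finsupp.prod_fintype _ _ (fun i => pow_zero _), weight_eq]
      refine IsWeightedHomogeneous.C_mul ?_ a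
      refine IsWeightedHomogeneous.prod _ _ _ fun i _ => ?_
      have h2 := (hS i).pow (u i)
      rwa [smul_eq_mul, mul_comm] at h2
    have h2 : IsWeightedHomogeneous w (monomial u a) (Finsupp.weight w u) :=
      isWeightedHomogeneous_monomial w u a rfl
    by_cases hD : D = Finsupp.weight w u
    · subst hD
      rw [h1.weightedHomogeneousComponent_same, h2.weightedHomogeneousComponent_same]
    · rw [h1.weightedHomogeneousComponent_ne D hD, h2.weightedHomogeneousComponent_ne D hD,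
        map_zero]

theorem supp_aeval {w : Fin 3 → ℕ} {S : Fin 3 → MvPolynomial (Fin 3) ℂ}
    (hS : ∀ i, IsWeightedHomogeneous w (S i) (w i)) {D : ℕ} {p : MvPolynomial (Fin 3) ℂ}
    (hp : ∀ v ∈ p.support, D ≤ ∑ i, w i * v i) :
    ∀ v ∈ (aeval S p : MvPolynomial (Fin 3) ℂ).support, D ≤ ∑ i, w i * v i := by
  classical
  intro v hv
  rw [mem_support_iff] at hv
  have h1 : coeff v (weightedHomogeneousComponent w (∑ i, w i * v i) (aeval S p)) ≠ 0 := by
    rwa [coeff_weightedHomogeneousComponent, if_pos (weight_eq w v)]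
  rw [whc_aeval hS] at h1
  by_contra hlt
  apply h1
  have h2 : weightedHomogeneousComponent w (∑ i, w i * v i) p = 0 := by
    ext u
    rw [coeff_weightedHomogeneousComponent, coeff_zero]
    split_ifs with h3
    · by_contra h4
      have := hp u (mem_support_iff.2 h4)
      rw [weight_eq] at h3
      omega
    · rfl
  rw [h2, map_zero, coeff_zero]

/-- The translation. -/
def Sp (a b : ℂ) (e : ℕ) : Fin 3 → MvPolynomial (Fin 3) ℂ :=
  ![X 0 + C a * X 2 ^ e, X 1 + C b * X 2 ^ e, X 2]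

theorem Sp_hom (a b : ℂ) (e : ℕ) (i : Fin 3) :
    IsWeightedHomogeneous (wts e 2) (Sp a b e i) (wts e 2 i) := by
  have h0 : IsWeightedHomogeneous (wts e 2) (X 0 : MvPolynomial (Fin 3) ℂ) e :=
    isWeightedHomogeneous_X ℂ (wts e 2) 0
  have h1 : IsWeightedHomogeneous (wts e 2) (X 1 : MvPolynomial (Fin 3) ℂ) e :=
    isWeightedHomogeneous_X ℂ (wts e 2) 1
  have h2 : IsWeightedHomogeneous (wts e 2) (X 2 : MvPolynomial (Fin 3) ℂ) 1 :=
    isWeightedHomogeneous_X ℂ (wts e 2) 2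
  have h3 : IsWeightedHomogeneous (wts e 2) (X 2 ^ e : MvPolynomial (Fin 3) ℂ) e := by
    have := h2.pow e
    rwa [smul_eq_mul, mul_one] at this
  fin_cases i
  · exact h0.add (h3.C_mul a)
  · exact h1.add (h3.C_mul b)
  · exact h2

theorem Sp_ge (a b : ℂ) {e : ℕ} (he : 2 ≤ e) (i : Fin 3) :
    IFT.Ge 2 ((Sp a b e i : MvPowerSeries (Fin 3) ℂ) - MvPowerSeries.X i) := by
  have h2 : ∀ c : ℂ, IFT.Ge 2 (((C c * X 2 ^ e : MvPolynomial (Fin 3) ℂ)) :
      MvPowerSeries (Fin 3) ℂ) := by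
    intro c v hv
    rw [MvPolynomial.coeff_coe]
    have h3 : (C c * X 2 ^ e : MvPolynomial (Fin 3) ℂ) =
        C c * (X 0 ^ 0 * X 1 ^ 0 * X 2 ^ e) := by simp
    rw [h3, ← ex3_eta v, coeff_ex3, if_neg]
    rintro ⟨-, -, h4⟩
    rw [Finsupp.degree_eq_sum, Fin.sum_univ_three] at hv
    omega
  fin_cases i
  · show IFT.Ge 2 (((X 0 + C a * X 2 ^ e : MvPolynomial (Fin 3) ℂ) : MvPowerSeries (Fin 3) ℂ) -
      MvPowerSeries.X 0)
    rw [MvPolynomial.coe_add, MvPolynomial.coe_X, add_sub_cancel_left]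
    exact h2 a
  · show IFT.Ge 2 (((X 1 + C b * X 2 ^ e : MvPolynomial (Fin 3) ℂ) : MvPowerSeries (Fin 3) ℂ) -
      MvPowerSeries.X 1)
    rw [MvPolynomial.coe_add, MvPolynomial.coe_X, add_sub_cancel_left]
    exact h2 b
  · show IFT.Ge 2 (((X 2 : MvPolynomial (Fin 3) ℂ) : MvPowerSeries (Fin 3) ℂ) -
      MvPowerSeries.X 2)
    rw [MvPolynomial.coe_X, sub_self]
    exact IFT.Ge.zero 2

theorem aeval_Sp_HH {q l m c a b : ℂ} {e : ℕ} (h0 : 3 * a ^ 2 + q * b + l = 0)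
    (h1 : 3 * b ^ 2 + q * a + m = 0) (h2 : a ^ 3 + b ^ 3 + q * a * b + l * a + m * b + c = 0) :
    aeval (Sp a b e) (HH q l m c e (2 * e) (3 * e)) =
      gw e (C (3 * a) * X 0 ^ 2 + C q * (X 0 * X 1) + C (3 * b) * X 1 ^ 2) := by
  have s0 : Sp a b e 0 = X 0 + C a * X 2 ^ e := rfl
  have s1 : Sp a b e 1 = X 1 + C b * X 2 ^ e := rfl
  have s2 : Sp a b e 2 = X 2 := rfl
  have c0 := congrArg (C : ℂ → MvPolynomial (Fin 3) ℂ) h0
  have c1 := congrArg (C : ℂ → MvPolynomial (Fin 3) ℂ) h1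
  have c2 := congrArg (C : ℂ → MvPolynomial (Fin 3) ℂ) h2
  have h3 : (C 3 : MvPolynomial (Fin 3) ℂ) = 3 := map_ofNat C 3
  simp only [C_add, C_mul, C_pow, C_0, h3] at c0 c1 c2
  unfold HH gw
  simp only [map_add, map_mul, map_pow, aeval_X, s0, s1, s2, aeval_C, algebraMap_eq, h3]
  rw [pow_mul' (X 2) 2 e, pow_mul' (X 2) 3 e]
  generalize (X 2 ^ e : MvPolynomial (Fin 3) ℂ) = z
  linear_combination (X 0 * z ^ 2) * c0 + (X 1 * z ^ 2) * c1 + z ^ 3 * c2

/-- The case of an integral slope. -/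
theorem Sd.caseC {g : MvPolynomial (Fin 3) ℂ} {W e : ℕ} (h : Sd g W) (he : W = 6 * e) :
    (∃ w : Fin 3 → ℕ, (∀ i, 0 < w i) ∧
      ∀ p : Fin 3 → ℂ, p ≠ 0 → ∃ i, eval p (pderiv i (initialPart g w)) ≠ 0) ∨
    ∃ (a b : ℂ) (P : MvPolynomial (Fin 3) ℂ), BinForm P 2 ∧
      (∀ v ∈ (aeval (Sp a b e) g : MvPolynomial (Fin 3) ℂ).support,
        3 * e ≤ ∑ i, wts e 2 i * v i) ∧
      weightedHomogeneousComponent (wts e 2) (3 * e) (aeval (Sp a b e) g) = gw e P := by
  have hW := h.hW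
  have e6 : W / 6 = e := by omega
  have e3 : W / 3 = 2 * e := by omega
  have e2 : W / 2 = 3 * e := by omega
  have w0 : wts e 2 0 = e := rfl
  have w1 : wts e 2 1 = e := rfl
  have w2 : wts e 2 2 = 1 := rfl
  have hw : ∀ i j k, wts e 2 0 * i + wts e 2 1 * j + wts e 2 2 * k = 3 * e ↔
      W * i + W * j + 6 * k = 3 * W := by
    intro i j k
    rw [w0, w1, w2, he]
    have x1 : 6 * e * i = 6 * (e * i) := by ring
    have x2 : 6 * e * j = 6 * (e * j) := by ring
    omega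
  have hw' : ∀ i j k, 3 * W ≤ W * i + W * j + 6 * k →
      3 * e ≤ wts e 2 0 * i + wts e 2 1 * j + wts e 2 2 * k := by
    intro i j k hijk
    rw [w0, w1, w2]
    rw [he] at hijk
    have x1 : 6 * e * i = 6 * (e * i) := by ring
    have x2 : 6 * e * j = 6 * (e * j) := by ring
    omega
  obtain ⟨q, hq⟩ : ∃ q, q = coeff (ex3 1 1 e) g := ⟨_, rfl⟩
  obtain ⟨l, hl⟩ : ∃ l, l = coeff (ex3 1 0 (2 * e)) g := ⟨_, rfl⟩
  obtain ⟨m, hm⟩ : ∃ m, m = coeff (ex3 0 1 (2 * e)) g := ⟨_, rfl⟩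
  obtain ⟨c, hc⟩ : ∃ c, c = coeff (ex3 0 0 (3 * e)) g := ⟨_, rfl⟩
  have hhh : hh g W = HH q l m c e (2 * e) (3 * e) := by
    unfold hh
    rw [if_pos (by omega), if_pos (by omega), if_pos (by omega), if_pos (by omega), e6, e3, e2,
      ← hq, ← hl, ← hm, ← hc]
  have hne : q ≠ 0 ∨ l ≠ 0 ∨ m ≠ 0 ∨ c ≠ 0 := by
    rcases h.ne with h1 | h1 | h1
    · left
      rw [e6, ← hq] at h1
      exact h1.2
    · rw [e3, ← hl, ← hm] at h1
      rcases h1.2 with h2 | h2
      · exact Or.inr (Or.inl h2)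
      · exact Or.inr (Or.inr (Or.inl h2))
    · rw [e2, ← hc] at h1
      exact Or.inr (Or.inr (Or.inr h1.2))
  by_cases hcrit : ∀ p : Fin 3 → ℂ, p ≠ 0 →
      ∃ i, eval p (pderiv i (HH q l m c e (2 * e) (3 * e))) ≠ 0
  · left
    refine ⟨wts e 2, ?_, ?_⟩
    · intro i
      fin_cases i
      · show 0 < e
        omega
      · show 0 < e
        omega
      · show 0 < 1
        omega
    · rw [h.init hw hw', hhh]
      exact hcrit
  · right
    push Not at hcrit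
    obtain ⟨p, hp, hcr⟩ := hcrit
    obtain ⟨d0, d1, d2⟩ := eval_pderiv_HH q l m c e (2 * e) (3 * e) p
    rw [hcr 0] at d0
    rw [hcr 1] at d1
    rw [hcr 2] at d2
    have hp2 : p 2 ≠ 0 := by
      intro h2
      rw [h2, zero_pow (by omega), zero_pow (by omega)] at d0 d1
      have p0 : p 0 = 0 := by
        have : p 0 ^ 2 = 0 := by linear_combination (-1 / 3 : ℂ) * d0
        exact pow_eq_zero_iff (two_ne_zero) |>.1 this
      have p1 : p 1 = 0 := by
        have : p 1 ^ 2 = 0 := by linear_combination (-1 / 3 : ℂ) * d1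
        exact pow_eq_zero_iff (two_ne_zero) |>.1 this
      apply hp
      funext i
      fin_cases i
      · exact p0
      · exact p1
      · exact h2
    set z : ℂ := p 2 ^ e with hz
    have hz0 : z ≠ 0 := pow_ne_zero _ hp2
    obtain ⟨a, ha⟩ : ∃ a, a * z = p 0 := ⟨p 0 / z, div_mul_cancel₀ _ hz0⟩
    obtain ⟨b, hb⟩ : ∃ b, b * z = p 1 := ⟨p 1 / z, div_mul_cancel₀ _ hz0⟩
    have z2 : p 2 ^ (2 * e) = z ^ 2 := by rw [hz, ← pow_mul, mul_comm]
    have E0 : 3 * a ^ 2 + q * b + l = 0 := by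
      rw [← ha, ← hb, z2] at d0
      have : z ^ 2 * (3 * a ^ 2 + q * b + l) = 0 := by linear_combination -d0
      exact (mul_eq_zero.1 this).resolve_left (pow_ne_zero _ hz0)
    have E1 : 3 * b ^ 2 + q * a + m = 0 := by
      rw [← ha, ← hb, z2] at d1
      have : z ^ 2 * (3 * b ^ 2 + q * a + m) = 0 := by linear_combination -d1
      exact (mul_eq_zero.1 this).resolve_left (pow_ne_zero _ hz0)
    have E2' : q * a * b + 2 * l * a + 2 * m * b + 3 * c = 0 := by
      obtain ⟨r, rfl⟩ : ∃ r, e = r + 1 := ⟨e - 1, by omega⟩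
      have z1 : p 2 ^ r * p 2 = z := by
        rw [hz, pow_succ]
      have z3 : p 2 ^ (2 * (r + 1) - 1) * p 2 = z ^ 2 := by
        rw [hz, show 2 * (r + 1) - 1 = 2 * r + 1 by omega]
        ring
      have z4 : p 2 ^ (3 * (r + 1) - 1) * p 2 = z ^ 3 := by
        rw [hz, show 3 * (r + 1) - 1 = 3 * r + 2 by omega]
        ring
      have hr : ((r + 1 : ℕ) : ℂ) ≠ 0 := Nat.cast_ne_zero.2 (Nat.succ_ne_zero r)
      rw [← ha, ← hb] at d2
      push_cast at d2 hr
      have h5 : ((r : ℂ) + 1) * z ^ 3 * (q * a * b + 2 * l * a + 2 * m * b + 3 * c) = 0 := by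
        have h6 : (q * (a * z) * (b * z) * (((r : ℂ) + 1) * p 2 ^ r) +
          l * (a * z) * (2 * ((r : ℂ) + 1) * p 2 ^ (2 * (r + 1) - 1)) +
          m * (b * z) * (2 * ((r : ℂ) + 1) * p 2 ^ (2 * (r + 1) - 1)) +
          c * (3 * ((r : ℂ) + 1) * p 2 ^ (3 * (r + 1) - 1))) * p 2 = 0 := by
          rw [← d2, zero_mul]
        have h7 : (q * (a * z) * (b * z) * (((r : ℂ) + 1) * p 2 ^ r) +
          l * (a * z) * (2 * ((r : ℂ) + 1) * p 2 ^ (2 * (r + 1) - 1)) +
          m * (b * z) * (2 * ((r : ℂ) + 1) * p 2 ^ (2 * (r + 1) - 1)) +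
          c * (3 * ((r : ℂ) + 1) * p 2 ^ (3 * (r + 1) - 1))) * p 2 =
          q * (a * z) * (b * z) * (((r : ℂ) + 1) * (p 2 ^ r * p 2)) +
          l * (a * z) * (2 * ((r : ℂ) + 1) * (p 2 ^ (2 * (r + 1) - 1) * p 2)) +
          m * (b * z) * (2 * ((r : ℂ) + 1) * (p 2 ^ (2 * (r + 1) - 1) * p 2)) +
          c * (3 * ((r : ℂ) + 1) * (p 2 ^ (3 * (r + 1) - 1) * p 2)) := by ring
        rw [h7, z1, z3, z4] at h6
        linear_combination h6
      exact (mul_eq_zero.1 h5).resolve_left (mul_ne_zero hr (pow_ne_zero _ hz0))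
    have E2 : a ^ 3 + b ^ 3 + q * a * b + l * a + m * b + c = 0 := by
      linear_combination (1 / 3 : ℂ) * (a * E0 + b * E1 + E2')
    refine ⟨a, b, C (3 * a) * X 0 ^ 2 + C q * (X 0 * X 1) + C (3 * b) * X 1 ^ 2,
      binForm_two ?_, supp_aeval (Sp_hom a b e) (h.supp hw'), ?_⟩
    · by_contra hcon
      push Not at hcon
      obtain ⟨g0, g1, g2⟩ := hcon
      have a0 : a = 0 := by
        have := mul_eq_zero.1 g0
        exact this.resolve_left (by norm_num)
      have b0 : b = 0 := by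
        have := mul_eq_zero.1 g2
        exact this.resolve_left (by norm_num)
      subst a0 b0 g1
      rcases hne with h1 | h1 | h1 | h1
      · exact h1 rfl
      · apply h1
        linear_combination E0
      · apply h1
        linear_combination E1
      · apply h1
        linear_combination E2
    · rw [whc_aeval (Sp_hom a b e), h.whc hw, hhh, aeval_Sp_HH E0 E1 E2]

end Sl

open Sl in
/-- The Tschirnhausen form `x_0^3 + x_1^3 + q(z) x_0 x_1 + l_1(z) x_0 + l_2(z) x_1 + c(z) + ⋯`,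
`z = x_2`, with `(q, l_1, l_2, c) ≠ 0`. Let `W/6` be the least of `ord q`, `ord l_i / 2`,
`ord c / 3`, and `φ_W`, `ψ_W` the truncations of `φ`, `ψ` (terms with `v 2 ≤ W`); `g_0 = f(x_0 +
φ_W, x_1 + ψ_W, x_2)` is a polynomial with the same coefficients at all `v` with `v 2 ≤ W`. If `3`
does not divide `W`: weights `(W, W, 6)`, `x_0^3 + x_1^3 + c z^(W/2)` has no critical points. If
`W = 3 e`, `e` odd: `s = 1`, `P = l_1 x_0 + l_2 x_1`. If `W = 6 e`: `h = x_0^3 + x_1^3 + q x_0 x_1 +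
l_1 x_0 + l_2 x_1 + c` (leading coefficients); if the initial part has no critical point, this is
the first case; otherwise translate the singular zero `(p_0, p_1)` of `h` to the origin:
`x_0 ↦ x_0 + p_0 z^e`, `x_1 ↦ x_1 + p_1 z^e`, and get `s = 2`,
`P = 3 p_0 x_0^2 + q x_0 x_1 + 3 p_1 x_1^2`, which is not 0. -/
theorem exists_of_slope {f : MvPolynomial (Fin 3) ℂ} (hf : Nf f) {φ ψ : MvPowerSeries (Fin 3) ℂ}
    (hφ : Zs φ) (hψ : Zs ψ)
    (hT : ∀ k, MvPowerSeries.coeff (ex3 2 0 k) (aeval (sh φ ψ) f : MvPowerSeries (Fin 3) ℂ) = 0 ∧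
        MvPowerSeries.coeff (ex3 0 2 k) (aeval (sh φ ψ) f : MvPowerSeries (Fin 3) ℂ) = 0)
    (hne : ∃ v : Fin 3 →₀ ℕ, v 0 + v 1 < 3 ∧
      MvPowerSeries.coeff v (aeval (sh φ ψ) f : MvPowerSeries (Fin 3) ℂ) ≠ 0) :
    (∃ (g : MvPolynomial (Fin 3) ℂ) (w : Fin 3 → ℕ), FormEquivPow f g 1 ∧ (∀ i, 0 < w i) ∧
      ∀ p : Fin 3 → ℂ, p ≠ 0 → ∃ i, eval p (pderiv i (initialPart g w)) ≠ 0) ∨
    (∃ (g P : MvPolynomial (Fin 3) ℂ) (e s : ℕ), FormEquivPow f g 1 ∧ 2 ≤ e ∧
      (s = 2 ∨ (s = 1 ∧ Odd e)) ∧ BinForm P s ∧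
      (∀ v ∈ g.support, 3 * e ≤ ∑ i, wts e s i * v i) ∧
      weightedHomogeneousComponent (wts e s) (3 * e) g = gw e P) := by
  obtain ⟨g, W, E, hE, h⟩ := exists_Sd hf hφ hψ hT hne
  have hW := h.hW
  by_cases h3 : 3 * (W / 3) = W
  · rcases Nat.even_or_odd (W / 3) with h2 | h2
    · obtain ⟨e, he⟩ := h2
      have hWe : W = 6 * e := by omega
      rcases h.caseC hWe with ⟨w, hw, hw'⟩ | ⟨a, b, P, hP, h4, h5⟩
      · exact Or.inl ⟨g, w, formEquivPow_of_eq E hE, hw, hw'⟩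
      · right
        have he2 : 2 ≤ e := by omega
        obtain ⟨E', hE'⟩ := exists_equiv_poly (Sp_ge a b he2)
        refine ⟨aeval (Sp a b e) g, P, e, 2, formEquivPow_of_eq (E.trans E') ?_, he2, Or.inl rfl,
          hP, h4, h5⟩
        rw [AlgEquiv.trans_apply, hE, hE']
    · right
      obtain ⟨P, hP, h4, h5⟩ := h.caseB h3.symm h2
      exact ⟨g, P, W / 3, 1, formEquivPow_of_eq E hE, by omega, Or.inr ⟨rfl, h2⟩, hP, h4, h5⟩
  · left
    obtain ⟨w, hw, hw'⟩ := h.caseA h3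
    exact ⟨g, w, formEquivPow_of_eq E hE, hw, hw'⟩

end T3

end MPb07157
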