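import Pool.Agent.Lib.MP_b07157_agT3.Cork
import Pool.Agent.Lib.MP_b07157_agT3.Crit
import Pool.Agent.Lib.MP_b07157_agT3.Deg3
import Pool.Agent.Lib.MP_b07157_agT3.Inf
import Pool.Agent.Lib.MP_b07157_agT3.Lin
import Pool.Agent.Lib.MP_b07157_agT3.NonExT
import Pool.Agent.Lib.MP_b07157_agT3.Slope
import Pool.Agent.Lib.MP_b07157_agYA.Tc
import Pool.Agent.Lib.MP_b07157_agS.SMain
import Pool.Agent.Lib.MP_b07157_agM.Arr
import Pool.Agent.Lib.MP_b07157_agI.SqM

/-!
# Surface germs of multiplicity three with reduced tangent cone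
-/

noncomputable section

namespace MPb07157

open MvPolynomial

namespace T3

/-- Three planes through a line. -/
theorem smcLoc_planes : SmcLoc (X 0 * X 1 * (X 0 + X 1) : MvPolynomial (Fin 3) ℂ) := by
  have h1 : (X 0 * X 1 * (X 0 + X 1) : MvPolynomial (Fin 3) ℂ) =
      ∏ j : Fin 3, (∑ i, C ((![![1, 0, 0], ![0, 1, 0], ![1, 1, 0]] : Fin 3 → Fin 3 → ℂ) j i) *
        X i) ^ (fun _ => 1 : Fin 3 → ℕ) j := by
    rw [Fin.prod_univ_three]
    simp [Fin.sum_univ_three]
  have hne : (X 0 * X 1 * (X 0 + X 1) : MvPolynomial (Fin 3) ℂ) ≠ 0 := by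
    intro h
    have h2 := congrArg (eval (fun _ => (1 : ℂ))) h
    simp at h2
  have h0 : coeff 0 (X 0 * X 1 * (X 0 + X 1) : MvPolynomial (Fin 3) ℂ) = 0 := by
    rw [← constantCoeff_eq]
    simp
  rw [h1] at hne h0 ⊢
  exact smcLoc_arr _ _ hne h0

theorem ne_of_formEquiv {f g : MvPolynomial (Fin 3) ℂ} (hf : f ≠ 0) (h0 : coeff 0 f = 0)
    (h : FormEquivPow f g 1) : g ≠ 0 ∧ coeff 0 g = 0 := by
  obtain ⟨e, u, hfg⟩ := h
  rw [pow_one] at hfg
  constructor
  · rintro rfl
    rw [MvPolynomial.coe_zero, map_zero, mul_zero] at hfg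
    exact hf (MvPolynomial.coe_eq_zero_iff.1 hfg)
  · have h1 := congrArg MvPowerSeries.constantCoeff hfg
    rw [map_mul, constantCoeff_equiv, ← MvPowerSeries.coeff_zero_eq_constantCoeff_apply,
      MvPolynomial.coeff_coe, h0] at h1
    have hu : MvPowerSeries.constantCoeff (u : MvPowerSeries (Fin 3) ℂ) ≠ 0 := by
      have := MvPowerSeries.isUnit_iff_constantCoeff.1 u.isUnit
      exact this.ne_zero
    have h2 := (mul_eq_zero.1 h1.symm).resolve_left hu
    rwa [← MvPowerSeries.coeff_zero_eq_constantCoeff_apply, MvPolynomial.coeff_coe] at h2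

/-- Linear substitutions. -/
theorem homogeneousComponent_lin (L : Fin 3 → MvPolynomial (Fin 3) ℂ)
    (hL : ∀ i, (L i).IsHomogeneous 1) (f : MvPolynomial (Fin 3) ℂ) (j : ℕ) :
    homogeneousComponent j (aeval L f) = aeval L (homogeneousComponent j f) := by
  have h1 : aeval L f = ∑ k ∈ Finset.range (f.totalDegree + 1),
      aeval L (homogeneousComponent k f) := by
    conv_lhs => rw [← sum_homogeneousComponent f]
    rw [map_sum]
  have hh : ∀ k, (aeval L (homogeneousComponent k f)).IsHomogeneous k := by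
    intro k
    have := (homogeneousComponent_isHomogeneous k f).aeval L hL
    rwa [one_mul] at this
  rw [h1, map_sum]
  by_cases hj : j ∈ Finset.range (f.totalDegree + 1)
  · rw [Finset.sum_eq_single j]
    · rw [homogeneousComponent_of_mem (hh j), if_pos rfl]
    · intro k _ hk
      rw [homogeneousComponent_of_mem (hh k), if_neg (Ne.symm hk)]
    · exact fun h => absurd hj h
  · rw [Finset.mem_range, not_lt] at hj
    rw [homogeneousComponent_eq_zero j f (by omega), map_zero]
    refine Finset.sum_eq_zero fun k hk => ?_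
    rw [Finset.mem_range] at hk
    rw [homogeneousComponent_of_mem (hh k), if_neg (by omega)]

theorem coe_aeval (L : Fin 3 → MvPolynomial (Fin 3) ℂ) (f : MvPolynomial (Fin 3) ℂ) :
    ((aeval L f : MvPolynomial (Fin 3) ℂ) : MvPowerSeries (Fin 3) ℂ) =
      aeval (fun i => (L i : MvPowerSeries (Fin 3) ℂ)) f := by
  induction f using MvPolynomial.induction_on with
  | C c =>
    rw [MvPolynomial.aeval_C, MvPolynomial.aeval_C, MvPolynomial.algebraMap_eq, MvPolynomial.coe_C]
    rfl
  | add p q hp hq => rw [map_add, map_add, MvPolynomial.coe_add, hp, hq]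
  | mul_X p j hp => rw [map_mul, map_mul, MvPolynomial.coe_mul, hp, aeval_X, aeval_X]

theorem isHomogeneous_lin (c : Fin 3 → ℂ) :
    (∑ j, C (c j) * X j : MvPolynomial (Fin 3) ℂ).IsHomogeneous 1 := by
  refine IsHomogeneous.sum _ _ _ fun j _ => ?_
  have := (isHomogeneous_C (Fin 3) (c j)).mul (isHomogeneous_X ℂ j)
  rwa [zero_add] at this

/-- The degree three part is a sum of two cubes. -/
theorem smcLoc_of_nf {f : MvPolynomial (Fin 3) ℂ} (hf : Nf f) : SmcLoc f := by
  classical
  obtain ⟨φ, ψ, hφ, hψ, hT⟩ := exists_tsch hf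
  have hf0 : f ≠ 0 := by
    rintro rfl
    have h1 := hf.three
    rw [map_zero] at h1
    have h2 := congrArg (eval (fun _ => (1 : ℂ))) h1
    simp only [map_zero, map_add, map_pow, eval_X] at h2
    norm_num at h2
  have h00 : coeff 0 f = 0 := by
    have h1 := hf.low 0 (by norm_num)
    rw [homogeneousComponent_zero] at h1
    exact C_eq_zero.1 h1
  by_cases hne : ∃ v : Fin 3 →₀ ℕ, v 0 + v 1 < 3 ∧
      MvPowerSeries.coeff v (aeval (sh φ ψ) f : MvPowerSeries (Fin 3) ℂ) ≠ 0
  · rcases exists_of_slope hf hφ hψ hT hne with ⟨g, w, hg, hw, h⟩ | ⟨g, P, e, s, hg, he, hs, hP, hlow, hgw⟩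
    · obtain ⟨hg0, hg00⟩ := ne_of_formEquiv hf0 h00 hg
      exact SmcLoc.of_formEquivPow one_pos hg (SmcLoc.of_sqh hw h hg0 hg00)
    · refine SmcLoc.of_formEquivPow one_pos hg ?_
      have hWC := wc_of_gw he hs hP hlow hgw
      have hs' : s = 2 ∨ s = 1 := by
        rcases hs with h | ⟨h, _⟩
        · exact Or.inl h
        · exact Or.inr h
      have hLF : YW.LF g (wts e s) (3 * e) = gw e P := by
        rw [YW.LF_eq]
        exact hgw
      refine SmcLoc.of_wCork (by omega) ?_ hP hWC hLF (fun q hq hc => crit_gw he hs' hP hq hc) ?_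
      · rcases hs with h | ⟨h, k, hk⟩ <;> omega
      · rw [sum_wts]
        exact nonEx_gw he hs' hP
  · push Not at hne
    have hex : ∀ i j, (ex3 i j 0).degree = i + j := by
      intro i j
      rw [Finsupp.degree_eq_sum, Fin.sum_univ_three]
      unfold ex3
      simp
    have hc3 : ∀ v : Fin 3 →₀ ℕ, v.degree = 3 →
        MvPowerSeries.coeff v (aeval (sh φ ψ) f : MvPowerSeries (Fin 3) ℂ) =
          coeff v (X 0 ^ 3 + X 1 ^ 3 : MvPolynomial (Fin 3) ℂ) := by
      intro v hv
      rw [coeff_sh hf.low hφ hψ hv.le, ← hf.three, coeff_homogeneousComponent, if_pos hv]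
    have hval : ∀ i j, coeff (ex3 i j 0) (X 0 ^ 3 + X 1 ^ 3 : MvPolynomial (Fin 3) ℂ) =
        (if i = 3 ∧ j = 0 then 1 else 0) + (if i = 0 ∧ j = 3 then 1 else 0) := by
      intro i j
      rw [coeff_add, coeff_X_pow, coeff_X_pow]
      congr 1
      · congr 1
        apply propext
        constructor
        · intro h
          have h1 := DFunLike.congr_fun h 0
          have h2 := DFunLike.congr_fun h 1
          simp [ex3] at h1 h2
          omega
        · rintro ⟨rfl, rfl⟩
          simp [ex3]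
      · congr 1
        apply propext
        constructor
        · intro h
          have h1 := DFunLike.congr_fun h 0
          have h2 := DFunLike.congr_fun h 1
          simp [ex3] at h1 h2
          omega
        · rintro ⟨rfl, rfl⟩
          simp [ex3]
    obtain ⟨E, u, hE⟩ := exists_equiv_inf (G := (aeval (sh φ ψ) f : MvPowerSeries (Fin 3) ℂ)) hne
      (by rw [hc3 _ (hex 3 0), hval]; simp) (by rw [hc3 _ (hex 2 1), hval]; simp)
      (by rw [hc3 _ (hex 1 2), hval]; simp) (by rw [hc3 _ (hex 0 3), hval]; simp)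
    -- the change of coordinates
    have ha : ∀ i, MvPowerSeries.constantCoeff (sh φ ψ i) = 0 := fun i =>
      IFT.ge_one_iff.1 (cl_sh hφ hψ i).right
    have hJ : (Matrix.of fun i j => MvPowerSeries.coeff (Finsupp.single j 1) (sh φ ψ i)).det ≠ 0 := by
      have h1 : (Matrix.of fun i j => MvPowerSeries.coeff (Finsupp.single j 1) (sh φ ψ i)) =
          (1 : Matrix (Fin 3) (Fin 3) ℂ) := by
        ext i j
        have h2 := (cl_sh hφ hψ i).2 (Finsupp.single j 1) (by rw [Finsupp.degree_single]; omega)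
        rw [map_sub, sub_eq_zero] at h2
        rw [Matrix.of_apply, h2, MvPowerSeries.coeff_X, Matrix.one_apply]
        congr 1
        apply propext
        constructor
        · intro h3
          exact (Finsupp.single_left_injective one_ne_zero h3).symm
        · rintro rfl
          rfl
      rw [h1, Matrix.det_one]
      exact one_ne_zero
    obtain ⟨e, he⟩ := IFT.exists_equiv ha hJ
    have h3 : (f : MvPowerSeries (Fin 3) ℂ) = e.symm u * e.symm (E ((X 0 * X 1 * (X 0 + X 1) :
        MvPolynomial (Fin 3) ℂ) : MvPowerSeries (Fin 3) ℂ)) := by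
      rw [← map_mul, ← hE, ← he, AlgEquiv.symm_apply_apply]
    refine SmcLoc.of_formEquivPow one_pos ⟨E.trans e.symm, Units.map e.symm.toMonoidHom u, ?_⟩
      smcLoc_planes
    rw [pow_one, h3]
    rfl

end T3

/-- **Surface germs of multiplicity three with reduced tangent cone.** -/
theorem SmcLoc.of_triple {f : MvPolynomial (Fin 3) ℂ}
    (low : ∀ j < 3, homogeneousComponent j f = 0)
    (hsq : Squarefree (homogeneousComponent 3 f)) : SmcLoc f := by
  classical
  by_cases hq : ∃ q : Fin 3 → ℂ, q ≠ 0 ∧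
      ∀ i j, eval q (pderiv i (pderiv j (homogeneousComponent 3 f))) = 0
  · obtain ⟨q, hq0, hqq⟩ := hq
    obtain ⟨M, hM, hMF⟩ := T3.exists_lin (homogeneousComponent_isHomogeneous 3 f) hsq hq0 hqq
    set L : Fin 3 → MvPolynomial (Fin 3) ℂ := fun i => ∑ j, C (M i j) * X j with hL
    have hLh : ∀ i, (L i).IsHomogeneous 1 := fun i => T3.isHomogeneous_lin (M i)
    have hNf : T3.Nf (aeval L f) := by
      refine ⟨fun j hj => ?_, ?_⟩
      · rw [T3.homogeneousComponent_lin L hLh, low j hj, map_zero]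
      · rw [T3.homogeneousComponent_lin L hLh]
        exact hMF
    -- the change of coordinates
    set a : Fin 3 → MvPowerSeries (Fin 3) ℂ := fun i => (L i : MvPowerSeries (Fin 3) ℂ) with ha
    have hac : ∀ i, MvPowerSeries.constantCoeff (a i) = 0 := by
      intro i
      rw [← MvPowerSeries.coeff_zero_eq_constantCoeff_apply, MvPolynomial.coeff_coe]
      exact (hLh i).coeff_eq_zero (by simp)
    have hJ : (Matrix.of fun i j => MvPowerSeries.coeff (Finsupp.single j 1) (a i)).det ≠ 0 := by
      have h1 : (Matrix.of fun i j => MvPowerSeries.coeff (Finsupp.single j 1) (a i)) = M := by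
        ext i j
        rw [Matrix.of_apply, ha]
        simp only [MvPolynomial.coeff_coe, hL]
        rw [coeff_sum, Finset.sum_eq_single j]
        · rw [coeff_C_mul, coeff_X, if_pos rfl, mul_one]
        · intro l _ hl
          rw [coeff_C_mul, coeff_X, if_neg, mul_zero]
          intro h
          exact hl (Finsupp.single_left_injective one_ne_zero h)
        · exact fun h => absurd (Finset.mem_univ j) h
      rw [h1]
      exact hM
    obtain ⟨e, he⟩ := IFT.exists_equiv hac hJ
    have h2 : e (f : MvPowerSeries (Fin 3) ℂ) =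
        ((aeval L f : MvPolynomial (Fin 3) ℂ) : MvPowerSeries (Fin 3) ℂ) := by
      rw [he, T3.coe_aeval]
    refine SmcLoc.of_formEquivPow one_pos ⟨e.symm, 1, ?_⟩ (T3.smcLoc_of_nf hNf)
    rw [pow_one, Units.val_one, one_mul, ← h2, AlgEquiv.symm_apply_apply]
  · have hf2 : YA.IsTC3 f 3 1 := by
      refine ⟨low, fun j h0 h1 => by omega, hsq, fun q hq0 _ => Or.inr (Or.inr ⟨by norm_num, ?_⟩)⟩
      by_contra hcon
      push Not at hcon
      exact hq ⟨q, hq0, hcon⟩
    exact fun _ _ hp _ hb => YA.smc_tc3 (by norm_num) one_pos hf2 (fun _ => Or.inl rfl) hp hb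

end MPb07157
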