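import Pool.Agent.Lib.MP_b07157_agT3.CkDefs
import Pool.Agent.Lib.MP_b07157_agT3.CkAxis
import Pool.Agent.Lib.MP_b07157_agYA.AxR

/-!
# The components of `k` if `s₀` is not a root, weighted
-/

noncomputable section

namespace MPb07157

open MvPolynomial

namespace T3

open PC SU

/-- The components of `k` are not a problem if `s₀` is not a root. A copy of `YA.exists_ps`
(`agYA/Ps.lean`), `YA.axis_lam`, `YA.root_axis` (`agYA/Axis.lean`) and `YA.axOK2_of_root`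
(`agYA/AxR.lean`) for the charts `IsChartT`: `ξ_i` replaces `u ξ_i`, and `iot (θ 0) ^ c` replaces
`iot (θ 0) ^ (t + 2)`. (The private lemmas of `agYA/Ps.lean` have to be copied.) -/
theorem axOK2_of_rootT {t : ℕ} {f : MvPolynomial (Fin (t + 3)) ℂ} {d c : ℕ} {k : P2}
    {ξ : Fin (t + 3) → MvPowerSeries (Fin (t + 3)) ℂ} {U D : MvPowerSeries (Fin (t + 3)) ℂ}
    (hc : IsChartT f d c k ξ U D) (hk : MvPowerSeries.constantCoeff k = 0) {s₀ : ℚ}
    (h1 : s₀ ≠ -1) (hs : -1 < s₀ + ((t : ℚ) + 1) / 2) {b : Polynomial ℂ}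
    (hb : InPs (f : MvPowerSeries (Fin (t + 3)) ℂ) 1
      (b.map (MvPowerSeries.C (σ := Fin (t + 3)) (R := ℂ)))) (hb0 : b.eval (s₀ : ℂ) ≠ 0) :
    YX.AxOK2 k (s₀ + ((t : ℚ) + 1) / 2) := by
  intro θ h0 hθ hJ B hB0 hB hcon
  refine hb0 (root_axisT hc hk h0 hθ hJ ?_ hB h1 (by linarith) hb)
  by_contra hlt
  have hB1 : B = 1 := by omega
  rw [hB1] at hcon
  push_cast at hcon
  linarith

end T3

end MPb07157
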