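import Pool.Agent.Lib.MP_b07157_agT3.CkDefs
import Pool.Agent.Lib.MP_b07157_agYW.ChW
import Pool.Agent.Lib.MP_b07157_agYX.Ch2

/-!
# The weighted chart in the coordinates of the normal form `k(u, y) + x²`
-/

noncomputable section

namespace MPb07157

open MvPolynomial

namespace T3

open YV YG YG.ChGaux YW YX

/-- A copy of `YW.exists_chartW` (`agYW/ChW.lean`) with the power series `kz k 2` instead of the
polynomial `G` (`kz k 2 = kzG 0 k`, see `YA.isChartG_of_isChart`, `agYA/AxR.lean`):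
`ξ_i = E⁻¹(chW_i)`, `E⁻¹(x_0) = x_0 w'` with a unit `w'`. -/
theorem exists_chartT {f : MvPolynomial (Fin 3) ℂ} {a : Fin 3 → ℕ}
    (ha : ∀ i, 0 < a i) {D : ℕ} {q : Fin 3 → ℂ} {j₀ : Fin 3}
    {h : MvPolynomial (Fin 3) ℂ} {k : PC.P2} (hh : aeval (chW (n := 2) a q j₀) f = X 0 ^ D * h)
    (he : UEq2 (h : MvPowerSeries (Fin 3) ℂ) k 2) :
    ∃ (ξ : Fin 3 → MvPowerSeries (Fin 3) ℂ) (U J : MvPowerSeries (Fin 3) ℂ),
      IsChartT (t := 0) f D (∑ j, a j - 1) k ξ U J := by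
  have hkz : YX.kz k 2 = YG.kzG 0 k := by
    unfold YX.kz YG.kzG
    rw [Fin.sum_univ_one]
    rfl
  obtain ⟨E, u, w, h1, h2⟩ := he
  have hcc : ∀ {x : MvPowerSeries (Fin 3) ℂ}, IsUnit x →
      MvPowerSeries.constantCoeff x ≠ 0 := by
    intro x hx
    exact (hx.map (MvPowerSeries.constantCoeff (σ := Fin 3) (R := ℂ))).ne_zero
  -- the image of the first variable
  obtain ⟨w', hw', hw1⟩ : ∃ w' : MvPowerSeries (Fin 3) ℂ, IsUnit w' ∧
      E.symm (MvPowerSeries.X 0) = MvPowerSeries.X 0 * w' := by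
    refine ⟨E.symm (↑(w⁻¹) : MvPowerSeries (Fin 3) ℂ), (w⁻¹).isUnit.map E.symm, ?_⟩
    have h3 : (MvPowerSeries.X 0 : MvPowerSeries (Fin 3) ℂ) =
        E.symm (MvPowerSeries.X 0) * E.symm (w : MvPowerSeries (Fin 3) ℂ) := by
      rw [← map_mul, ← h2, AlgEquiv.symm_apply_apply]
    have h4 : E.symm (w : MvPowerSeries (Fin 3) ℂ) *
        E.symm (↑(w⁻¹) : MvPowerSeries (Fin 3) ℂ) = 1 := by
      rw [← map_mul, Units.mul_inv, map_one]
    calc E.symm (MvPowerSeries.X 0) = E.symm (MvPowerSeries.X 0) *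
          (E.symm (w : MvPowerSeries (Fin 3) ℂ) *
            E.symm (↑(w⁻¹) : MvPowerSeries (Fin 3) ℂ)) := by rw [h4, mul_one]
      _ = _ := by rw [← mul_assoc, ← h3]
  have hC : E.symm (MvPowerSeries.C ((a j₀ : ℕ) : ℂ)) = MvPowerSeries.C ((a j₀ : ℕ) : ℂ) := by
    rw [map_natCast, map_natCast]
  refine ⟨fun i => E.symm ((chW (n := 2) a q j₀ i : MvPolynomial (Fin 3) ℂ) :
      MvPowerSeries (Fin 3) ℂ),
    w' ^ D * E.symm (u : MvPowerSeries (Fin 3) ℂ),
    w' ^ (∑ j, a j - 1) * ((-1) ^ (j₀ : ℕ) * MvPowerSeries.C ((a j₀ : ℕ) : ℂ)) *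
      (Matrix.of fun k j : Fin 3 => MvPowerSeries.pderiv ℂ j
        (E.symm (MvPowerSeries.X k : MvPowerSeries (Fin 3) ℂ))).det, ?_, ?_, ?_, ?_, ?_⟩
  · exact hcc ((hw'.pow D).mul (u.isUnit.map E.symm))
  · refine hcc (((hw'.pow _).mul ((IsUnit.pow _ ?_).mul ?_)).mul (isUnit_det E.symm))
    · exact isUnit_one.neg
    · exact (IsUnit.mk0 _ (Nat.cast_ne_zero.2 (ha j₀).ne')).map _
  · intro i
    show MvPowerSeries.constantCoeff (E.symm _) = 0
    rw [coe_chW, map_mul, map_pow, hw1, mul_pow, map_mul, map_mul, map_pow,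
      MvPowerSeries.constantCoeff_X, zero_pow (ha i).ne', zero_mul, zero_mul]
  · rw [MvPowerSeries.subst_coe]
    have h5 := congrArg (fun p : MvPolynomial (Fin 3) ℂ =>
      (p : MvPowerSeries (Fin 3) ℂ)) hh
    have h6 : ((aeval (chW (n := 2) a q j₀) f : MvPolynomial (Fin 3) ℂ) :
        MvPowerSeries (Fin 3) ℂ) =
        aeval (fun i => ((chW (n := 2) a q j₀ i : MvPolynomial (Fin 3) ℂ) :
          MvPowerSeries (Fin 3) ℂ)) f := by
      have h7 : (MvPolynomial.coeToMvPowerSeries.ringHom (R := ℂ) (σ := Fin 3)).comp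
          ((aeval (chW (n := 2) a q j₀) : MvPolynomial (Fin 3) ℂ →ₐ[ℂ]
            MvPolynomial (Fin 3) ℂ) : MvPolynomial (Fin 3) ℂ →+* _) =
          ((aeval (fun i => ((chW (n := 2) a q j₀ i : MvPolynomial (Fin 3) ℂ) :
            MvPowerSeries (Fin 3) ℂ)) :
            MvPolynomial (Fin 3) ℂ →ₐ[ℂ] MvPowerSeries (Fin 3) ℂ) :
              MvPolynomial (Fin 3) ℂ →+* _) := by
        refine MvPolynomial.ringHom_ext (fun c => ?_) (fun i => ?_)
        · rw [RingHom.comp_apply, RingHom.coe_coe, RingHom.coe_coe, aeval_C, aeval_C]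
          rw [MvPolynomial.algebraMap_eq, MvPolynomial.coeToMvPowerSeries.ringHom_apply,
            MvPolynomial.coe_C]
          rfl
        · rw [RingHom.comp_apply, RingHom.coe_coe, RingHom.coe_coe, aeval_X, aeval_X,
            MvPolynomial.coeToMvPowerSeries.ringHom_apply]
      exact congrArg (fun φ : MvPolynomial (Fin 3) ℂ →+*
        MvPowerSeries (Fin 3) ℂ => φ f) h7
    have h9 := congrArg E.symm (h6.symm.trans h5)
    have h10 := MvPolynomial.comp_aeval_apply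
      (fun i => ((chW (n := 2) a q j₀ i : MvPolynomial (Fin 3) ℂ) : MvPowerSeries (Fin 3) ℂ))
      (E.symm : MvPowerSeries (Fin 3) ℂ →ₐ[ℂ] MvPowerSeries (Fin 3) ℂ) f
    have h11 : aeval (fun i => E.symm ((chW (n := 2) a q j₀ i : MvPolynomial (Fin 3) ℂ) :
        MvPowerSeries (Fin 3) ℂ)) f =
        E.symm (aeval (fun i => ((chW (n := 2) a q j₀ i : MvPolynomial (Fin 3) ℂ) :
          MvPowerSeries (Fin 3) ℂ)) f) := h10.symm
    rw [h11, h9]
    show E.symm ((X 0 ^ D * h : MvPolynomial (Fin 3) ℂ) :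
      MvPowerSeries (Fin 3) ℂ) = _
    rw [MvPolynomial.coe_mul, MvPolynomial.coe_pow, MvPolynomial.coe_X, h1, map_mul, map_pow, hw1,
      map_mul, AlgEquiv.symm_apply_apply, hkz]
    ring
  · have h5 := det_equiv E.symm (fun i => ((chW (n := 2) a q j₀ i : MvPolynomial (Fin 3) ℂ) :
      MvPowerSeries (Fin 3) ℂ))
    rw [h5, det_chW a ha q j₀, map_mul, map_mul, map_pow, map_pow, map_neg, map_one, hw1, hC]
    ring

end T3

end MPb07157
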