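import Pool.Agent.Lib.MP_b07157_agT3.CkDefs

/-!
# The cubic form and its critical points
-/

noncomputable section

namespace MPb07157

open MvPolynomial

namespace T3

private theorem crit_cub_pd2 {P : MvPolynomial (Fin 3) ℂ} {s : ℕ} (hP : BinForm P s) :
    pderiv 2 P = 0 := by
  apply pderiv_eq_zero_of_notMem_vars
  intro h
  obtain ⟨d, hd, h2⟩ := (mem_vars_iff_mem_support 2).1 h
  exact (Finsupp.mem_support_iff.1 h2) (hP.two d hd)

private theorem crit_cub_pdX {j : Fin 3} (hj : j ≠ 2) (n : ℕ) (Q : MvPolynomial (Fin 3) ℂ) :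
    pderiv j (X 2 ^ n * Q) = X 2 ^ n * pderiv j Q := by
  have h : pderiv j ((X 2 : MvPolynomial (Fin 3) ℂ) ^ n) = 0 := by
    rw [pderiv_pow, pderiv_X_of_ne (Ne.symm hj), mul_zero]
  rw [pderiv_mul, h, zero_mul, zero_add]

/-- The critical points of `x_0^3 + x_1^3 + x_2^e P` with `x_2 = 1` are those of the cubic form, and
the second derivatives with respect to `x_0`, `x_1` agree. -/
theorem crit_cub {e s : ℕ} (he : 0 < e) (hs : s ≤ 2) {P : MvPolynomial (Fin 3) ℂ}
    (hP : BinForm P s) {q : Fin 3 → ℂ} (hq : q 2 = 1)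
    (hc : ∀ j, eval q (pderiv j (gw e P)) = 0) :
    (∀ j, eval q (pderiv j (cub s P)) = 0) ∧
    ∀ i j : Fin 3, i ≠ 2 → j ≠ 2 →
      eval q (pderiv i (pderiv j (cub s P))) = eval q (pderiv i (pderiv j (gw e P))) := by
  have h2 : pderiv 2 P = 0 := crit_cub_pd2 hP
  have hX2 : ∀ n : ℕ, eval q ((X 2 : MvPolynomial (Fin 3) ℂ) ^ n) = 1 := by
    intro n
    rw [map_pow, eval_X, hq, one_pow]
  -- first derivatives in the directions 0 and 1
  have hA : ∀ (n : ℕ) (j : Fin 3), j ≠ 2 →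
      pderiv j (X 0 ^ 3 + X 1 ^ 3 + X 2 ^ n * P : MvPolynomial (Fin 3) ℂ) =
        pderiv j (X 0 ^ 3 + X 1 ^ 3 : MvPolynomial (Fin 3) ℂ) + X 2 ^ n * pderiv j P := by
    intro n j hj
    rw [map_add, crit_cub_pdX hj]
  have hB : ∀ (n : ℕ) (i j : Fin 3), i ≠ 2 → j ≠ 2 →
      eval q (pderiv i (pderiv j (X 0 ^ 3 + X 1 ^ 3 + X 2 ^ n * P : MvPolynomial (Fin 3) ℂ))) =
        eval q (pderiv i (pderiv j (X 0 ^ 3 + X 1 ^ 3 : MvPolynomial (Fin 3) ℂ))) +
          eval q (pderiv i (pderiv j P)) := by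
    intro n i j hi hj
    rw [hA n j hj, map_add, crit_cub_pdX hi, map_add, map_mul, hX2, one_mul]
  -- the derivative in the direction 2
  have hC : ∀ n : ℕ, pderiv 2 (X 0 ^ 3 + X 1 ^ 3 + X 2 ^ n * P : MvPolynomial (Fin 3) ℂ) =
      (n : MvPolynomial (Fin 3) ℂ) * X 2 ^ (n - 1) * P := by
    intro n
    have h0 : pderiv 2 ((X 0 : MvPolynomial (Fin 3) ℂ) ^ 3) = 0 := by
      rw [pderiv_pow, pderiv_X_of_ne (by decide), mul_zero]
    have h1 : pderiv 2 ((X 1 : MvPolynomial (Fin 3) ℂ) ^ 3) = 0 := by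
      rw [pderiv_pow, pderiv_X_of_ne (by decide), mul_zero]
    rw [map_add, map_add, h0, h1, pderiv_mul, h2, pderiv_pow, pderiv_X_self]
    ring
  have hP0 : eval q P = 0 := by
    have h := hc 2
    rw [gw, hC e] at h
    rw [map_mul, map_mul, hX2, mul_one] at h
    have he' : eval q ((e : MvPolynomial (Fin 3) ℂ)) ≠ 0 := by
      rw [map_natCast]
      exact Nat.cast_ne_zero.2 he.ne'
    exact (mul_eq_zero.1 h).resolve_left he'
  refine ⟨fun j => ?_, fun i j hi hj => ?_⟩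
  · by_cases hj : j = 2
    · subst hj
      rw [cub, hC, map_mul, hP0, mul_zero]
    · have h := hc j
      rw [gw, hA e j hj, map_add, map_mul, hX2, one_mul] at h
      rw [cub, hA _ j hj, map_add, map_mul, hX2, one_mul]
      exact h
  · rw [cub, gw, hB _ i j hi hj, hB _ i j hi hj]

end T3

end MPb07157
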