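import Pool.Agent.Lib.MP_b07157_agT3.Defs
import Pool.Agent.Lib.MP_b07157_agYG.Defs
import Pool.Agent.Lib.MP_b07157_agYW.Defs

/-!
# Weighted tangent cones with double points: the charts
-/

noncomputable section

namespace MPb07157

open MvPolynomial

namespace T3

open PC SU SI

/-- A chart `(u, y, x) ↦ ξ(u, y, x)` in which `f = u^d (k(u, y) + ∑ x_i²) U`, with the Jacobian
determinant `u^c` times a unit (`YG.IsChartG` is the case `ξ_i = u ξ'_i`, `c = t + 2`). -/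
structure IsChartT {t : ℕ} (f : MvPolynomial (Fin (t + 3)) ℂ) (d c : ℕ) (k : P2)
    (ξ : Fin (t + 3) → MvPowerSeries (Fin (t + 3)) ℂ) (U D : MvPowerSeries (Fin (t + 3)) ℂ) :
    Prop where
  hU : MvPowerSeries.constantCoeff U ≠ 0
  hD : MvPowerSeries.constantCoeff D ≠ 0
  hξ : ∀ i, MvPowerSeries.constantCoeff (ξ i) = 0
  hf : (MvPowerSeries.subst ξ
    (f : MvPowerSeries (Fin (t + 3)) ℂ) : MvPowerSeries (Fin (t + 3)) ℂ) =
      MvPowerSeries.X 0 ^ d * (YG.kzG t k * U)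
  hdet : (Matrix.of fun i j : Fin (t + 3) => MvPowerSeries.pderiv ℂ j (ξ i)).det =
      MvPowerSeries.X 0 ^ c * D

/-- The cubic form `x_0^3 + x_1^3 + x_2^(3-s) P`. -/
def cub (s : ℕ) (P : MvPolynomial (Fin 3) ℂ) : MvPolynomial (Fin 3) ℂ :=
  X 0 ^ 3 + X 1 ^ 3 + X 2 ^ (3 - s) * P

end T3

end MPb07157
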