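import Pool.Agent.Lib.MP_b07157_agT3.CkRes
import Pool.Agent.Lib.MP_b07157_agYG.ExG

/-!
# The residues, weighted
-/

noncomputable section

namespace MPb07157

open MvPolynomial TensorProduct

namespace T3

open PC SU SI YL YG

variable {t : ℕ} {f : MvPolynomial (Fin (t + 3)) ℂ} {d c : ℕ}
  {ξ : Fin (t + 3) → MvPowerSeries (Fin (t + 3)) ℂ} {U D : MvPowerSeries (Fin (t + 3)) ℂ}

/-- **The residues.** A copy of `YG.ex2_of_rootG` (`agYG/ExG.lean`), with `residue_kzT` instead of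
`residue_kzG` (`c` instead of `t + 2`; the last steps with `u₀ ^ c`, `c = 0` or `c = c' + 1`). -/
theorem ex2_of_rootT {k : P2} (hc : IsChartT f d c k ξ U D) {s₀ : ℚ}
    (h1 : -1 < s₀ + ((t : ℚ) + 1) / 2) (h2 : s₀ + ((t : ℚ) + 1) / 2 < 0)
    {b : Polynomial ℂ} (hb : InPs (f : MvPowerSeries (Fin (t + 3)) ℂ) 1
      (b.map (MvPowerSeries.C (σ := Fin (t + 3)) (R := ℂ)))) (hb0 : b.eval (s₀ : ℂ) ≠ 0) :
    YX.Ex2 k ((c : ℚ) + d * s₀) (s₀ + ((t : ℚ) + 1) / 2) := by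
  classical
  intro δ Θ h0 ν N m hν hN hm hsum J₀ f₀ u₀ hf₀ hu₀ J₁ F₁ U₁ hJ hF hΘ
  have hs' : (s₀ : ℂ) * (2 * ((d : ℂ) * m + N)) =
      -(2 * (ν : ℂ) + 2 * (c : ℂ) * m + ((t : ℂ) + 1) * N) := by
    have h3 := congrArg (Rat.cast : ℚ → ℂ) hsum
    push_cast at h3 ⊢
    linear_combination 2 * h3
  have hs0 : ∀ m : ℕ, (s₀ : ℂ) ≠ m := by
    intro m hm'
    have h3 : s₀ = (m : ℚ) := by exact_mod_cast hm'
    have h4 : (0 : ℚ) ≤ (t : ℚ) := Nat.cast_nonneg t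
    have h5 : (0 : ℚ) ≤ (m : ℚ) := Nat.cast_nonneg m
    rw [h3] at h2
    linarith
  have hs1 : ∀ m : ℕ, (s₀ : ℂ) + ((t + 1 : ℕ) : ℂ) / 2 ≠ -((m : ℂ) + 1) := by
    intro m hm'
    have h3 : s₀ + ((t : ℚ) + 1) / 2 = -((m : ℚ) + 1) := by
      have h6 : ((s₀ + ((t : ℚ) + 1) / 2 : ℚ) : ℂ) = ((-((m : ℚ) + 1) : ℚ) : ℂ) := by
        push_cast at hm' ⊢
        exact hm'
      exact_mod_cast h6
    have h5 : (0 : ℚ) ≤ (m : ℚ) := Nat.cast_nonneg m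
    rw [h3] at h1
    linarith
  obtain ⟨B, _, _, δ', T, Q, l, hQ, hT, hcomm, hl, hl1⟩ := exists_lam (t + 1) hs0 hs1
  obtain ⟨K', _, _, i, δ₁, w, π, hw, hδ₁, hπi, hπ1, hπδ⟩ := exists_root_ext δ hf₀ two_pos
  obtain ⟨r₀, r₁, hr⟩ := residue_kzT (B := B) hc hN hν hm hs' hb hb0
    i δ δ₁ hδ₁ hf₀ hu₀ w hw δ' hQ hT hcomm h0 hJ hF hΘ
  have h3 := congrArg (lamK l) hr
  have h3' : lamK l (∑ a, (dR (δ' a) (r₁ a) + ((1 : K') ⊗ₜ[ℂ] (algebraMap ℂ B (s₀ : ℂ) *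
      (((Q⁻¹ : Bˣ) : B) * δ' a Q))) * r₁ a)) = 0 := by
    rw [map_sum]
    exact Finset.sum_eq_zero fun a _ => lamK_dR l (δ' a) (hl a) (r₁ a)
  rw [lamK_tmul, hl1, map_one, one_mul, map_add, map_add, lamK_dL, lamK_mul, h3', add_zero] at h3
  obtain ⟨u, hu⟩ : ∃ u : K', u = ((w⁻¹ : K'ˣ) : K') := ⟨_, rfl⟩
  have hwu : (w : K') * u = 1 := by rw [hu, Units.mul_inv]
  obtain ⟨v, hv⟩ : ∃ v : K', v = (w : K') := ⟨_, rfl⟩
  rw [← hv] at hwu hw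
  rw [← hv] at h3
  have hwun : v ^ (t + 1) * u ^ (t + 1) = 1 := by rw [← mul_pow, hwu, one_pow]
  obtain ⟨ρ, hρ⟩ : ∃ ρ, lamK l r₀ = v ^ (t + 1) * ρ := ⟨u ^ (t + 1) * lamK l r₀, by
    rw [← mul_assoc, hwun, one_mul]⟩
  rw [hρ] at h3
  obtain ⟨g, hg⟩ : ∃ g : K', g = u * δ₁ v := ⟨_, rfl⟩
  have hvg : δ₁ v = v * g := by
    rw [hg, ← mul_assoc, hwu, one_mul]
  have h5 : δ₁ (v ^ (t + 1) * ρ) = v ^ (t + 1) * (δ₁ ρ + ((t : K') + 1) * g * ρ) := by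
    rw [Derivation.leibniz, Derivation.leibniz_pow, Nat.add_sub_cancel, smul_eq_mul, smul_eq_mul,
      smul_eq_mul, nsmul_eq_mul, hvg]
    push_cast
    ring
  have hu2 : u ^ 2 = i f₀⁻¹ := by
    have h8 : i f₀ * i f₀⁻¹ = 1 := by rw [← map_mul, mul_inv_cancel₀ hf₀, map_one]
    have h9 : u ^ 2 * v ^ 2 = 1 := by rw [← mul_pow, mul_comm u v, hwu, one_pow]
    rw [hw] at h9
    linear_combination (i f₀⁻¹) * h9 - (u ^ 2) * h8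
  have hg2 : 2 * g = i (δ f₀ / f₀) := by
    have h8 := congrArg δ₁ hw
    have e1 : (2 - 1 : ℕ) = 1 := rfl
    rw [hδ₁, Derivation.leibniz_pow, e1, pow_one, smul_eq_mul, nsmul_eq_mul, hvg] at h8
    push_cast at h8
    have h9 : u ^ 2 * v ^ 2 = 1 := by rw [← mul_pow, mul_comm u v, hwu, one_pow]
    rw [div_eq_inv_mul, map_mul, ← hu2, ← h8]
    linear_combination -(2 * g) * h9
  have h10 : i (u₀ ^ c * J₀) = δ₁ ρ + (((t : K') + 1) * g + algebraMap ℂ K' (s₀ : ℂ) *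
      i ((d : RatFunc ℂ) * (δ u₀ / u₀) + δ f₀ / f₀)) * ρ := by
    have h11 : v ^ (t + 1) * i (u₀ ^ c * J₀) =
        v ^ (t + 1) * (δ₁ ρ + (((t : K') + 1) * g + algebraMap ℂ K' (s₀ : ℂ) *
      i ((d : RatFunc ℂ) * (δ u₀ / u₀) + δ f₀ / f₀)) * ρ) := by
      rw [h3, h5]
      ring
    linear_combination u ^ (t + 1) * h11 - (i (u₀ ^ c * J₀) -
      (δ₁ ρ + (((t : K') + 1) * g + algebraMap ℂ K' (s₀ : ℂ) *
      i ((d : RatFunc ℂ) * (δ u₀ / u₀) + δ f₀ / f₀)) * ρ)) * hwun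
  obtain ⟨Y, hY⟩ : ∃ Y : RatFunc ℂ, Y = δ u₀ / u₀ := ⟨_, rfl⟩
  obtain ⟨Z, hZ⟩ : ∃ Z : RatFunc ℂ, Z = δ f₀ / f₀ := ⟨_, rfl⟩
  rw [← hY, ← hZ] at h10
  rw [← hZ] at hg2
  rw [← hY, ← hZ]
  obtain ⟨G, hG⟩ : ∃ G : RatFunc ℂ, G = ((t : RatFunc ℂ) + 1) / 2 * Z +
      algebraMap ℂ (RatFunc ℂ) (s₀ : ℂ) * ((d : RatFunc ℂ) * Y + Z) := ⟨_, rfl⟩
  have hiG : ((t : K') + 1) * g + algebraMap ℂ K' (s₀ : ℂ) *
      i ((d : RatFunc ℂ) * Y + Z) = i G := by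
    have h12 : i (((t : RatFunc ℂ) + 1) / 2) * 2 = (t : K') + 1 := by
      have h13 : (2 : K') = i (2 : RatFunc ℂ) := (map_ofNat i 2).symm
      rw [h13, ← map_mul, div_mul_cancel₀ _ two_ne_zero, map_add, map_natCast, map_one]
    obtain ⟨A, hA⟩ : ∃ A : RatFunc ℂ, A = ((t : RatFunc ℂ) + 1) / 2 := ⟨_, rfl⟩
    rw [← hA] at h12
    rw [hG, ← hA, map_add i (A * Z), map_mul i A Z, map_mul i _ ((d : RatFunc ℂ) * Y + Z),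
      AlgHom.commutes, ← hg2, ← h12]
    ring
  rw [hiG] at h10
  have h15 := congrArg π h10
  have h16 : ∀ a, π (i a) = a := fun a => by
    have h17 := hπi a 1
    rwa [mul_one, hπ1, mul_one] at h17
  rw [h16, map_add, hπδ, hπi] at h15
  have hsC : algebraMap ℂ (RatFunc ℂ) (s₀ : ℂ) = ((s₀ : ℚ) : RatFunc ℂ) := map_ratCast _ _
  refine ⟨π ρ / u₀ ^ c, ?_⟩
  obtain ⟨R, hR⟩ : ∃ R : RatFunc ℂ, R = π ρ / u₀ ^ c := ⟨_, rfl⟩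
  have hR' : π ρ = u₀ ^ c * R := by
    rw [hR, mul_div_cancel₀ _ (pow_ne_zero _ hu₀)]
  rw [← hR]
  have hY' : δ u₀ = u₀ * Y := by rw [hY, mul_div_cancel₀ _ hu₀]
  have hpow : δ (u₀ ^ c) = (c : RatFunc ℂ) * u₀ ^ c * Y := by
    rcases c with _ | c'
    · simp
    · rw [Derivation.leibniz_pow, Nat.add_sub_cancel, smul_eq_mul, nsmul_eq_mul, hY']
      push_cast
      ring
  rw [hR', Derivation.leibniz, hpow, smul_eq_mul, smul_eq_mul, hG, hsC] at h15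
  push_cast at h15 ⊢
  refine mul_left_cancel₀ (pow_ne_zero c hu₀) ?_
  rw [h15]
  ring

end T3

end MPb07157
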