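import Pool.Agent.Lib.MP_b07157_agT3.CkDefs
import Pool.Agent.Lib.MP_b07157_agYX.Nf
import Pool.Agent.Lib.MP_b07157_agYX.Geo3

/-!
# The weighted chart as a chart of the blow-up of a point of another germ
-/

noncomputable section

namespace MPb07157

open MvPolynomial

namespace T3

open PC SU SI YL

namespace CkFpAux

/-- The exponent of the monomial of `f'`. -/
def mu (N : ℕ) (v : Fin 3 →₀ ℕ) : Fin 3 →₀ ℕ := ex3 (v 0) (v 1) (N - v 0 - v 1)

theorem mu_zero (N : ℕ) (v : Fin 3 →₀ ℕ) : mu N v 0 = v 0 := by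
  simp [mu, ex3]

theorem mu_one (N : ℕ) (v : Fin 3 →₀ ℕ) : mu N v 1 = v 1 := by
  simp [mu, ex3]

theorem mu_two (N : ℕ) (v : Fin 3 →₀ ℕ) : mu N v 2 = N - v 0 - v 1 := by
  simp [mu, ex3]

theorem degree_mu {N : ℕ} {v : Fin 3 →₀ ℕ} (h : v 0 + v 1 ≤ N) : (mu N v).degree = N := by
  rw [Finsupp.degree_eq_sum, Fin.sum_univ_three, mu_zero, mu_one, mu_two]
  omega

theorem wt_eq (e s : ℕ) (v : Fin 3 →₀ ℕ) :
    MPb07157.wt (wts e s) v = e * v 0 + e * v 1 + (3 - s) * v 2 := by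
  unfold MPb07157.wt wts
  rw [Fin.sum_univ_three]
  rfl

/-- The degree of the monomial of `f'`. -/
def dg (e s : ℕ) (v : Fin 3 →₀ ℕ) : ℕ := 3 + (MPb07157.wt (wts e s) v - 3 * e)

theorem le_dg {e s : ℕ} (he : 0 < e) (v : Fin 3 →₀ ℕ) : v 0 + v 1 ≤ dg e s v := by
  unfold dg
  by_contra hc
  push Not at hc
  have h1 := wt_eq e s v
  have h2 : e * (3 + (MPb07157.wt (wts e s) v - 3 * e) + 1) ≤ e * (v 0 + v 1) :=
    Nat.mul_le_mul le_rfl hc
  have h3 : MPb07157.wt (wts e s) v - 3 * e ≤ e * (MPb07157.wt (wts e s) v - 3 * e) :=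
    Nat.le_mul_of_pos_left _ he
  have h4 : e * (3 + (MPb07157.wt (wts e s) v - 3 * e) + 1) =
      3 * e + e * (MPb07157.wt (wts e s) v - 3 * e) + e := by ring
  have h5 : e * (v 0 + v 1) = e * v 0 + e * v 1 := by ring
  omega

theorem aeval_mono (g : Fin 3 → MvPolynomial (Fin 3) ℂ) (v : Fin 3 →₀ ℕ) (c : ℂ) :
    aeval g (monomial v c) = C c * (g 0 ^ v 0 * g 1 ^ v 1 * g 2 ^ v 2) := by
  rw [aeval_monomial, Finsupp.prod_fintype _ _ (fun i => pow_zero _), Fin.prod_univ_three]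
  rfl

theorem ins0 (q : Fin 3 → ℂ) : (2 : Fin 3).insertNth (α := fun _ => MvPolynomial (Fin 3) ℂ) 1
    (fun l : Fin 2 => X l.succ + C (q ((2 : Fin 3).succAbove l))) 0 = X 1 + C (q 0) :=
  Fin.insertNth_apply_succAbove (α := fun _ => MvPolynomial (Fin 3) ℂ) (2 : Fin 3) 1
    (fun l : Fin 2 => X l.succ + C (q ((2 : Fin 3).succAbove l))) (0 : Fin 2)

theorem ins1 (q : Fin 3 → ℂ) : (2 : Fin 3).insertNth (α := fun _ => MvPolynomial (Fin 3) ℂ) 1
    (fun l : Fin 2 => X l.succ + C (q ((2 : Fin 3).succAbove l))) 1 = X 2 + C (q 1) :=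
  Fin.insertNth_apply_succAbove (α := fun _ => MvPolynomial (Fin 3) ℂ) (2 : Fin 3) 1
    (fun l : Fin 2 => X l.succ + C (q ((2 : Fin 3).succAbove l))) (1 : Fin 2)

theorem ins2 (q : Fin 3 → ℂ) : (2 : Fin 3).insertNth (α := fun _ => MvPolynomial (Fin 3) ℂ) 1
    (fun l : Fin 2 => X l.succ + C (q ((2 : Fin 3).succAbove l))) 2 = 1 :=
  Fin.insertNth_apply_same (α := fun _ => MvPolynomial (Fin 3) ℂ) (2 : Fin 3) 1
    (fun l : Fin 2 => X l.succ + C (q ((2 : Fin 3).succAbove l)))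

theorem aeval_chW_mono (e s : ℕ) (q : Fin 3 → ℂ) (v : Fin 3 →₀ ℕ) (c : ℂ) :
    aeval (YW.chW (n := 2) (wts e s) q 2) (monomial v c) =
      C c * (X 0 ^ MPb07157.wt (wts e s) v * ((X 1 + C (q 0)) ^ v 0 * (X 2 + C (q 1)) ^ v 1)) := by
  have h0 : YW.chW (n := 2) (wts e s) q 2 0 = X 0 ^ e * (X 1 + C (q 0)) := by
    unfold YW.chW
    rw [ins0]
    rfl
  have h1 : YW.chW (n := 2) (wts e s) q 2 1 = X 0 ^ e * (X 2 + C (q 1)) := by
    unfold YW.chW
    rw [ins1]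
    rfl
  have h2 : YW.chW (n := 2) (wts e s) q 2 2 = X 0 ^ (3 - s) := by
    unfold YW.chW
    rw [ins2, mul_one]
    rfl
  rw [aeval_mono, h0, h1, h2, wt_eq, pow_add, pow_add, pow_mul, pow_mul, pow_mul, mul_pow,
    mul_pow]
  ring

theorem aeval_chP_mono (N : ℕ) (q : Fin 3 → ℂ) (v : Fin 3 →₀ ℕ) (h : v 0 + v 1 ≤ N) (c : ℂ) :
    aeval (YL.chP q 2) (monomial (mu N v) c) =
      C c * (X 0 ^ N * ((X 1 + C (q 0)) ^ v 0 * (X 2 + C (q 1)) ^ v 1)) := by
  have h0 : YL.chP q 2 0 = X 0 * (X 1 + C (q 0)) := by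
    unfold YL.chP
    rw [ins0]
  have h1 : YL.chP q 2 1 = X 0 * (X 2 + C (q 1)) := by
    unfold YL.chP
    rw [ins1]
  have h2 : YL.chP q 2 2 = X 0 := by
    unfold YL.chP
    rw [ins2, mul_one]
  have h3 : (X 0 : MvPolynomial (Fin 3) ℂ) ^ N = X 0 ^ v 0 * X 0 ^ v 1 * X 0 ^ (N - v 0 - v 1) := by
    rw [← pow_add, ← pow_add]
    congr 1
    omega
  rw [aeval_mono, h0, h1, h2, mu_zero, mu_one, mu_two, h3, mul_pow, mul_pow]
  ring

/-- The polynomial `f'`. -/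
def fp (f : MvPolynomial (Fin 3) ℂ) (e s : ℕ) : MvPolynomial (Fin 3) ℂ :=
  ∑ v ∈ f.support, monomial (mu (dg e s v) v) (coeff v f)

theorem hc_fp {e : ℕ} (he : 0 < e) (s : ℕ) (f : MvPolynomial (Fin 3) ℂ) (j : ℕ) :
    homogeneousComponent j (fp f e s) =
      ∑ v ∈ f.support.filter (fun v => dg e s v = j), monomial (mu j v) (coeff v f) := by
  unfold fp
  rw [map_sum, Finset.sum_filter]
  refine Finset.sum_congr rfl fun v _ => ?_
  have h1 : monomial (mu (dg e s v) v) (coeff v f) ∈ homogeneousSubmodule (Fin 3) ℂ (dg e s v) := by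
    rw [mem_homogeneousSubmodule]
    exact isHomogeneous_monomial _ (degree_mu (le_dg he v))
  rw [homogeneousComponent_of_mem h1]
  by_cases h : dg e s v = j
  · rw [if_pos h, if_pos h.symm, h]
  · rw [if_neg h, if_neg (fun h' => h h'.symm)]

/-- The linear map `x_0^i x_1^j x_2^l ↦ x_0^i x_1^j x_2^(3-i-j)`. -/
def Ph : MvPolynomial (Fin 3) ℂ →ₗ[ℂ] MvPolynomial (Fin 3) ℂ :=
  (basisMonomials (Fin 3) ℂ).constr ℂ fun v => monomial (mu 3 v) (1 : ℂ)

theorem Ph_monomial (v : Fin 3 →₀ ℕ) (c : ℂ) : Ph (monomial v c) = monomial (mu 3 v) c := by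
  have h1 : (monomial v c : MvPolynomial (Fin 3) ℂ) = c • basisMonomials (Fin 3) ℂ v := by
    rw [coe_basisMonomials, smul_monomial, smul_eq_mul, mul_one]
  rw [h1, map_smul]
  unfold Ph
  rw [Module.Basis.constr_basis, smul_monomial, smul_eq_mul, mul_one]

theorem Ph_mul {s : ℕ} (hs : s ≤ 2) (e : ℕ) {P : MvPolynomial (Fin 3) ℂ} (hP : BinForm P s) :
    Ph (X 2 ^ e * P) = X 2 ^ (3 - s) * P := by
  conv_lhs => rw [← support_sum_monomial_coeff P]
  conv_rhs => rw [← support_sum_monomial_coeff P]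
  rw [Finset.mul_sum, Finset.mul_sum, map_sum]
  refine Finset.sum_congr rfl fun v hv => ?_
  have h2 := hP.two v hv
  have h3 : v 0 + v 1 = s := by
    have h4 := hP.hom (mem_support_iff.1 hv)
    have h6 : v.degree = s :=
      (DFunLike.congr_fun (Finsupp.degree_eq_weight_one (σ := Fin 3) (R := ℕ)) v).trans h4
    rw [Finsupp.degree_eq_sum, Fin.sum_univ_three] at h6
    omega
  have h5 : mu 3 (Finsupp.single 2 e + v) = Finsupp.single 2 (3 - s) + v := by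
    ext i
    fin_cases i
    · simp [mu, ex3]
    · simp [mu, ex3]
    · simp [mu, ex3]
      omega
  rw [X_pow_eq_monomial, X_pow_eq_monomial, monomial_mul, monomial_mul, Ph_monomial, h5]

theorem Ph_gw {s : ℕ} (hs : s ≤ 2) (e : ℕ) {P : MvPolynomial (Fin 3) ℂ} (hP : BinForm P s) :
    Ph (gw e P) = cub s P := by
  unfold gw cub
  have h0 : mu 3 (Finsupp.single 0 3) = Finsupp.single 0 3 := by
    ext i
    fin_cases i <;> simp [mu, ex3]
  have h1 : mu 3 (Finsupp.single 1 3) = Finsupp.single 1 3 := by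
    ext i
    fin_cases i <;> simp [mu, ex3]
  rw [map_add, map_add, Ph_mul hs e hP, X_pow_eq_monomial, X_pow_eq_monomial, Ph_monomial,
    Ph_monomial, h0, h1]

end CkFpAux

open CkFpAux in
/-- The germ `f'(x, y, z) = f(z^(e-1) x, z^(e-1) y, z^(3-s)) / z^(3(e-1))`: replace each monomial
`x_0^i x_1^j x_2^l` of `f`, of weight `e (i + j) + (3 - s) l = 3 e + m`, by
`x_0^i x_1^j x_2^(3 + m - i - j)` (`i + j ≤ 3 + m / e ≤ 3 + m`). Then `f'_j = 0` for `j < 3`, `f'_3`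
is obtained from the part of weight `3 e`, and
`u^(3e) hg f' 3 q 2 = f(u^e (x_1 + q_0), u^e (x_2 + q_1), u^(3-s))`, as `gch` replaces `x_2` by `1`
(compare the monomials; `YL.NodeRaux.aeval_chP` (`agYL/NodeR.lean`) is
`f'(u (x_1 + q_0), u (x_2 + q_1), u) = u^3 hg f' 3 q 2`). -/
theorem exists_fp {f : MvPolynomial (Fin 3) ℂ} {e s : ℕ} (he : 0 < e) (hs : s ≤ 2)
    {P : MvPolynomial (Fin 3) ℂ} (hP : BinForm P s)
    (hlow : ∀ v ∈ f.support, 3 * e ≤ MPb07157.wt (wts e s) v)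
    (hLF : YW.LF f (wts e s) (3 * e) = gw e P) {q : Fin 3 → ℂ} (hq : q 2 = 1) :
    ∃ f' : MvPolynomial (Fin 3) ℂ, (∀ j < 3, homogeneousComponent j f' = 0) ∧
      homogeneousComponent 3 f' = cub s P ∧
      aeval (YW.chW (n := 2) (wts e s) q 2) f = X 0 ^ (3 * e) * hg f' 3 q 2 := by
  have hlo : ∀ j < 3, homogeneousComponent j (fp f e s) = 0 := by
    intro j hj
    rw [hc_fp he]
    refine Finset.sum_eq_zero fun v hv => ?_
    have h1 := (Finset.mem_filter.1 hv).2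
    unfold dg at h1
    omega
  refine ⟨fp f e s, hlo, ?_, ?_⟩
  · rw [hc_fp he, ← Ph_gw hs e hP, ← hLF]
    unfold YW.LF inForm face
    rw [map_sum]
    have h1 : f.support.filter (fun v => dg e s v = 3) =
        f.support.filter (fun v => MPb07157.wt (wts e s) v = 3 * e) := by
      refine Finset.filter_congr fun v hv => ?_
      have h2 := hlow v hv
      unfold dg
      omega
    rw [h1]
    exact Finset.sum_congr rfl fun v _ => (Ph_monomial v _).symm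
  · have h1 := aeval_chP hlo q 2
    have h2 : (X 0 : MvPolynomial (Fin 3) ℂ) ^ 3 ≠ 0 := pow_ne_zero _ (X_ne_zero _)
    refine mul_left_cancel₀ h2 ?_
    have h3 : X 0 ^ 3 * (X 0 ^ (3 * e) * hg (fp f e s) 3 q 2) =
        X 0 ^ (3 * e) * aeval (YL.chP q 2) (fp f e s) := by
      rw [h1]
      ring
    rw [h3]
    conv_lhs => rw [← support_sum_monomial_coeff f]
    unfold fp
    rw [map_sum, map_sum, Finset.mul_sum, Finset.mul_sum]
    refine Finset.sum_congr rfl fun v hv => ?_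
    rw [aeval_chW_mono, aeval_chP_mono _ _ _ (le_dg he v)]
    have h4 := hlow v hv
    have h5 : (X 0 : MvPolynomial (Fin 3) ℂ) ^ 3 * X 0 ^ MPb07157.wt (wts e s) v =
        X 0 ^ (3 * e) * X 0 ^ dg e s v := by
      rw [← pow_add, ← pow_add]
      congr 1
      unfold dg
      omega
    linear_combination C (coeff v f) *
      ((X 1 + C (q 0)) ^ v 0 * (X 2 + C (q 1)) ^ v 1) * h5

end T3

end MPb07157
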