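import Pool.Agent.Lib.MP_b07157_agT3.CkDefs
import Pool.Agent.Lib.MP_b07157_agYA.Defs
import Pool.Agent.Lib.MP_b07157_agR.Der

/-!
# The chart along an arc of the base, weighted
-/

noncomputable section

namespace MPb07157

open MvPolynomial

namespace T3

open PC SU YA

/-- A block determinant. -/
private theorem det_blk {R : Type} [CommRing R] {t : ℕ} (M : Matrix (Fin (t + 3)) (Fin (t + 3)) R) (c : R)
    (h0 : ∀ i : Fin (t + 1), M i.succ.succ 0 = 0) (h1 : ∀ i : Fin (t + 1), M i.succ.succ 1 = 0)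
    (h2 : ∀ i j : Fin (t + 1), M i.succ.succ j.succ.succ = if i = j then c else 0) :
    M.det = c ^ (t + 1) * (M 0 0 * M 1 1 - M 0 1 * M 1 0) := by
  classical
  -- the determinant of a matrix of size `t + 2`
  have key : ∀ N : Matrix (Fin (t + 2)) (Fin (t + 2)) R, (∀ i : Fin (t + 1), N i.succ 0 = 0) →
      (∀ i j : Fin (t + 1), N i.succ j.succ = if i = j then c else 0) →
      N.det = N 0 0 * c ^ (t + 1) := by
    intro N hN0 hN1
    have hup : N.BlockTriangular id := by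
      intro i j hij
      revert hij
      refine Fin.cases ?_ (fun i => ?_) i
      · intro hij
        exact absurd hij (Fin.not_lt_zero _)
      · refine Fin.cases ?_ (fun j => ?_) j
        · intro _
          exact hN0 i
        · intro hij
          rw [hN1, if_neg]
          rintro rfl
          exact lt_irrefl _ hij
    rw [Matrix.det_of_isUpperTriangular hup, Fin.prod_univ_succ]
    congr 1
    have h3 : ∀ i : Fin (t + 1), N i.succ i.succ = c := fun i => by
      rw [hN1, if_pos rfl]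
    rw [Finset.prod_congr rfl fun i _ => h3 i, Finset.prod_const, Finset.card_univ,
      Fintype.card_fin]
  have e1 : (1 : Fin (t + 3)) = (0 : Fin (t + 2)).succ := rfl
  rw [Matrix.det_succ_column_zero, Fin.sum_univ_succ, Fin.sum_univ_succ]
  rw [Finset.sum_eq_zero (fun i _ => by rw [h0, mul_zero, zero_mul]), add_zero]
  have k0 : (M.submatrix ((0 : Fin (t + 3)).succAbove) Fin.succ).det = M 1 1 * c ^ (t + 1) := by
    refine key _ (fun i => ?_) (fun i j => ?_)
    · exact h1 i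
    · exact h2 i j
  have hs : ∀ i : Fin (t + 1), (0 : Fin (t + 2)).succ.succAbove i.succ = i.succ.succ := by
    intro i
    rw [Fin.succ_succAbove_succ, Fin.zero_succAbove]
  have hz : (0 : Fin (t + 2)).succ.succAbove 0 = (0 : Fin (t + 3)) :=
    Fin.succ_succAbove_zero _
  have k1 : (M.submatrix ((0 : Fin (t + 2)).succ.succAbove) Fin.succ).det =
      M 0 1 * c ^ (t + 1) := by
    refine (key _ (fun i => ?_) (fun i j => ?_)).trans ?_
    · rw [Matrix.submatrix_apply, hs]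
      exact h1 i
    · rw [Matrix.submatrix_apply, hs]
      exact h2 i j
    · rw [Matrix.submatrix_apply, hz]
      rfl
  rw [k0, k1, ← e1]
  simp only [Fin.val_zero, pow_zero, one_mul]
  have e2 : ((1 : Fin (t + 3)) : ℕ) = 1 := rfl
  rw [e2, pow_one]
  ring

private theorem hasSubst_iot (r : ℕ) : MvPowerSeries.HasSubst (fun j : Fin 2 =>
    (MvPowerSeries.X (Fin.castLE (by omega) j) : MvPowerSeries (Fin (r + 2)) ℂ)) :=
  MvPowerSeries.hasSubst_of_constantCoeff_zero fun _ => MvPowerSeries.constantCoeff_X _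

private def iotH (r : ℕ) : P2 →ₐ[ℂ] MvPowerSeries (Fin (r + 2)) ℂ :=
  MvPowerSeries.substAlgHom (R := ℂ) (hasSubst_iot r)

private theorem iotH_apply {r : ℕ} (a : P2) : iotH r a = iot a := by
  unfold iotH iot
  rw [MvPowerSeries.coe_substAlgHom]

private theorem iotH_X {r : ℕ} (j : Fin 2) : iotH r (MvPowerSeries.X j) =
    MvPowerSeries.X (Fin.castLE (by omega) j) := by
  unfold iotH
  exact MvPowerSeries.substAlgHom_X (hasSubst_iot r) j

private theorem cc_iot {r : ℕ} {a : P2} (h : MvPowerSeries.constantCoeff a = 0) :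
    MvPowerSeries.constantCoeff (iot a : MvPowerSeries (Fin (r + 2)) ℂ) = 0 := by
  unfold iot
  exact MvPowerSeries.constantCoeff_subst_eq_zero (hasSubst_iot r)
    (fun _ => MvPowerSeries.constantCoeff_X _) h

private theorem pderiv_iot {r : ℕ} (a : P2) (j : Fin (r + 2)) :
    MvPowerSeries.pderiv ℂ j (iot a) =
      ∑ i : Fin 2, (iot (MvPowerSeries.pderiv ℂ i a) : MvPowerSeries (Fin (r + 2)) ℂ) *
        MvPowerSeries.pderiv ℂ j (MvPowerSeries.X (Fin.castLE (by omega) i)) := by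
  have h1 := ARL.chain (θ := iotH r)
    (fun i => by rw [iotH_X]; exact MvPowerSeries.constantCoeff_X _)
    (MvPowerSeries.pderiv ℂ j) a
  rw [iotH_apply] at h1
  rw [h1]
  refine Finset.sum_congr rfl fun i _ => ?_
  rw [iotH_X, iotH_apply]

private theorem pderiv_iot0 {r : ℕ} (a : P2) :
    MvPowerSeries.pderiv ℂ (0 : Fin (r + 2)) (iot a) = iot (MvPowerSeries.pderiv ℂ 0 a) := by
  rw [pderiv_iot, Fin.sum_univ_two]
  have e0 : (Fin.castLE (by omega) (0 : Fin 2) : Fin (r + 2)) = 0 := rfl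
  have e1 : (Fin.castLE (by omega) (1 : Fin 2) : Fin (r + 2)) = 1 := rfl
  rw [e0, e1, MvPowerSeries.pderiv_X_self, MvPowerSeries.pderiv_X_of_ne (by simp), mul_one,
    mul_zero, add_zero]

private theorem pderiv_iot1 {r : ℕ} (a : P2) :
    MvPowerSeries.pderiv ℂ (1 : Fin (r + 2)) (iot a) = iot (MvPowerSeries.pderiv ℂ 1 a) := by
  rw [pderiv_iot, Fin.sum_univ_two]
  have e0 : (Fin.castLE (by omega) (0 : Fin 2) : Fin (r + 2)) = 0 := rfl
  have e1 : (Fin.castLE (by omega) (1 : Fin 2) : Fin (r + 2)) = 1 := rfl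
  rw [e0, e1, MvPowerSeries.pderiv_X_self, MvPowerSeries.pderiv_X_of_ne (by simp), mul_one,
    mul_zero, zero_add]

/-- The substitution `X_i = ξ_i` followed by `(u, y, x) ↦ (θ_0, θ_1, x)`: the images of `f` and of
the Jacobian determinant, and the chain rule (`A` is the adjugate of the Jacobian matrix).
(Compare `agYX/Iso2.lean`, `agYG/ResN.lean`, `ResG.lean`.) -/
theorem exists_psT {t : ℕ} {f : MvPolynomial (Fin (t + 3)) ℂ} {d c : ℕ} {k : P2}
    {ξ : Fin (t + 3) → MvPowerSeries (Fin (t + 3)) ℂ} {U D : MvPowerSeries (Fin (t + 3)) ℂ}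
    (hc : IsChartT f d c k ξ U D) {θ : Fin 2 → P2}
    (h0 : ∀ i, MvPowerSeries.constantCoeff (θ i) = 0) :
    ∃ (ps : MvPowerSeries (Fin (t + 3)) ℂ →ₐ[ℂ] MvPowerSeries (Fin (t + 1 + 2)) ℂ)
      (U' D' : (MvPowerSeries (Fin (t + 1 + 2)) ℂ)ˣ)
      (A : Fin (t + 3) → Fin (t + 1 + 2) → MvPowerSeries (Fin (t + 1 + 2)) ℂ),
      ps (f : MvPowerSeries (Fin (t + 3)) ℂ) =
        iot (θ 0) ^ d * (kx (t + 1) (MvPowerSeries.subst θ k) *
          (U' : MvPowerSeries (Fin (t + 1 + 2)) ℂ)) ∧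
      ∀ l G, iot (θ 0) ^ c * iot (jac θ) *
      (D' : MvPowerSeries (Fin (t + 1 + 2)) ℂ) * ps (MvPowerSeries.pderiv ℂ l G) =
        ∑ j, A l j * MvPowerSeries.pderiv ℂ j (ps G) := by
  classical
  -- the first substitution
  have hΦ0 : ∀ i, MvPowerSeries.constantCoeff (ξ i) = 0 := hc.hξ
  have hΦs : MvPowerSeries.HasSubst ξ :=
    MvPowerSeries.hasSubst_of_constantCoeff_zero hΦ0
  obtain ⟨Φ, hΦa, hΦX⟩ : ∃ Φ : MvPowerSeries (Fin (t + 3)) ℂ →ₐ[ℂ]
      MvPowerSeries (Fin (t + 3)) ℂ,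
      (∀ a, Φ a = MvPowerSeries.subst ξ a) ∧
      ∀ i, Φ (MvPowerSeries.X i) = ξ i := by
    refine ⟨MvPowerSeries.substAlgHom (R := ℂ) hΦs, fun a => ?_, fun i => ?_⟩
    · exact congrFun (MvPowerSeries.coe_substAlgHom hΦs) a
    · exact MvPowerSeries.substAlgHom_X hΦs i
  -- the second substitution
  obtain ⟨z, hz0, hz1, hz2⟩ : ∃ z : Fin (t + 3) → MvPowerSeries (Fin (t + 1 + 2)) ℂ,
      z 0 = iot (θ 0) ∧ z 1 = iot (θ 1) ∧
      ∀ i : Fin (t + 1), z i.succ.succ = MvPowerSeries.X i.succ.succ :=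
    ⟨Fin.cons (iot (θ 0)) (Fin.cons (iot (θ 1)) fun i => MvPowerSeries.X i.succ.succ),
      rfl, rfl, fun _ => rfl⟩
  have hzc : ∀ i, MvPowerSeries.constantCoeff (z i) = 0 := by
    intro i
    refine Fin.cases ?_ (fun i => Fin.cases ?_ (fun i => ?_) i) i
    · rw [hz0]
      exact cc_iot (h0 0)
    · have e1 : ((0 : Fin (t + 2)).succ : Fin (t + 3)) = 1 := rfl
      rw [e1, hz1]
      exact cc_iot (h0 1)
    · rw [hz2]
      exact MvPowerSeries.constantCoeff_X _
  have hzs : MvPowerSeries.HasSubst z := MvPowerSeries.hasSubst_of_constantCoeff_zero hzc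
  obtain ⟨Ψ, hΨa, hΨX⟩ : ∃ Ψ : MvPowerSeries (Fin (t + 3)) ℂ →ₐ[ℂ]
      MvPowerSeries (Fin (t + 1 + 2)) ℂ,
      (∀ a, Ψ a = MvPowerSeries.subst z a) ∧ ∀ i, Ψ (MvPowerSeries.X i) = z i := by
    refine ⟨MvPowerSeries.substAlgHom (R := ℂ) hzs, fun a => ?_, fun i => ?_⟩
    · exact congrFun (MvPowerSeries.coe_substAlgHom hzs) a
    · exact MvPowerSeries.substAlgHom_X hzs i
  have hΨc : ∀ a, MvPowerSeries.constantCoeff a = 0 → MvPowerSeries.constantCoeff (Ψ a) = 0 := by
    intro a ha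
    rw [hΨa]
    exact MvPowerSeries.constantCoeff_subst_eq_zero hzs hzc ha
  have hunit : ∀ a : MvPowerSeries (Fin (t + 3)) ℂ, MvPowerSeries.constantCoeff a ≠ 0 →
      IsUnit (Ψ a) := by
    intro a ha
    have h1 : IsUnit a := MvPowerSeries.isUnit_iff_constantCoeff.2 (isUnit_iff_ne_zero.2 ha)
    exact h1.map Ψ
  obtain ⟨U', hU'⟩ := hunit U hc.hU
  obtain ⟨D', hD'⟩ := hunit D hc.hD
  -- the image of `kzG`
  have hsθ : MvPowerSeries.HasSubst θ := MvPowerSeries.hasSubst_of_constantCoeff_zero h0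
  have hkz : Ψ (YG.kzG t k) = kx (t + 1) (MvPowerSeries.subst θ k) := by
    unfold YG.kzG kx
    rw [map_add, map_sum]
    congr 1
    · rw [hΨa, MvPowerSeries.subst_comp_subst_apply (hasSubst_iot (t + 1)) hzs]
      unfold iot
      rw [MvPowerSeries.subst_comp_subst_apply hsθ (hasSubst_iot (t + 1))]
      congr 1
      funext j
      rw [MvPowerSeries.subst_X hzs]
      fin_cases j
      · exact hz0
      · exact hz1
    · refine Finset.sum_congr rfl fun i _ => ?_
      rw [map_pow, hΨX, hz2]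
  -- the composition
  have hpX : ∀ l, (Ψ.comp Φ) (MvPowerSeries.X l) = Ψ (ξ l) := fun l => by
    show Ψ (Φ (MvPowerSeries.X l)) = _
    rw [hΦX]
  have hpc : ∀ l, MvPowerSeries.constantCoeff ((Ψ.comp Φ) (MvPowerSeries.X l)) = 0 := fun l => by
    rw [hpX]
    exact hΨc _ (hΦ0 l)
  -- the Jacobian matrices
  obtain ⟨M, hM⟩ : ∃ M : Matrix (Fin (t + 3)) (Fin (t + 3)) (MvPowerSeries (Fin (t + 1 + 2)) ℂ),
      M = Matrix.of fun l j => MvPowerSeries.pderiv ℂ (j : Fin (t + 1 + 2))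
        ((Ψ.comp Φ) (MvPowerSeries.X l)) := ⟨_, rfl⟩
  obtain ⟨J, hJ⟩ : ∃ J : Matrix (Fin (t + 3)) (Fin (t + 3)) (MvPowerSeries (Fin (t + 1 + 2)) ℂ),
      J = Matrix.of fun i j => MvPowerSeries.pderiv ℂ (j : Fin (t + 1 + 2)) (z i) :=
    ⟨_, rfl⟩
  have hJdet : J.det = iot (jac θ) := by
    rw [det_blk J 1, one_pow, one_mul]
    · have k00 : J 0 0 = iot (MvPowerSeries.pderiv ℂ 0 (θ 0)) := by
        rw [hJ, ← pderiv_iot0, ← hz0]
        rfl
      have k01 : J 0 1 = iot (MvPowerSeries.pderiv ℂ 1 (θ 0)) := by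
        rw [hJ, ← pderiv_iot1, ← hz0]
        rfl
      have k10 : J 1 0 = iot (MvPowerSeries.pderiv ℂ 0 (θ 1)) := by
        rw [hJ, ← pderiv_iot0, ← hz1]
        rfl
      have k11 : J 1 1 = iot (MvPowerSeries.pderiv ℂ 1 (θ 1)) := by
        rw [hJ, ← pderiv_iot1, ← hz1]
        rfl
      rw [k00, k01, k10, k11]
      unfold jac
      simp only [← iotH_apply, map_sub, map_mul]
    · intro i
      rw [hJ]
      show MvPowerSeries.pderiv ℂ (0 : Fin (t + 1 + 2)) (z i.succ.succ) = 0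
      rw [hz2]
      refine MvPowerSeries.pderiv_X_of_ne fun h => ?_
      have h1 := congrArg Fin.val h
      simp at h1
    · intro i
      rw [hJ]
      show MvPowerSeries.pderiv ℂ (1 : Fin (t + 1 + 2)) (z i.succ.succ) = 0
      rw [hz2]
      refine MvPowerSeries.pderiv_X_of_ne fun h => ?_
      have h1 := congrArg Fin.val h
      simp at h1
    · intro i j
      rw [hJ]
      show MvPowerSeries.pderiv ℂ (j.succ.succ : Fin (t + 1 + 2)) (z i.succ.succ) = _
      rw [hz2]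
      split_ifs with h
      · rw [h]
        exact MvPowerSeries.pderiv_X_self
      · refine MvPowerSeries.pderiv_X_of_ne fun h' => h ?_
        have h1 := congrArg Fin.val h'
        simp at h1
        exact Fin.ext h1
  have hMJ : M = ((Matrix.of fun i j : Fin (t + 3) => MvPowerSeries.pderiv ℂ j
      (ξ i : MvPowerSeries (Fin (t + 3)) ℂ)).map Ψ) * J := by
    ext1 l j
    rw [Matrix.mul_apply, hM, hJ]
    show MvPowerSeries.pderiv ℂ j ((Ψ.comp Φ) (MvPowerSeries.X l)) = _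
    rw [hpX, ARL.chain (θ := Ψ) (fun i => by rw [hΨX]; exact hzc i)]
    refine Finset.sum_congr rfl fun i _ => ?_
    rw [hΨX]
    rfl
  have hMdet : M.det = iot (θ 0) ^ c * iot (jac θ) *
      (D' : MvPowerSeries (Fin (t + 1 + 2)) ℂ) := by
    rw [hMJ, Matrix.det_mul, hJdet]
    have h1 : ((Matrix.of fun i j : Fin (t + 3) => MvPowerSeries.pderiv ℂ j
        (ξ i : MvPowerSeries (Fin (t + 3)) ℂ)).map Ψ).det =
        Ψ (Matrix.of fun i j : Fin (t + 3) => MvPowerSeries.pderiv ℂ j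
          (ξ i : MvPowerSeries (Fin (t + 3)) ℂ)).det :=
      (AlgHom.map_det Ψ _).symm
    rw [h1, hc.hdet, map_mul, map_pow, hΨX, hz0, hD']
    ring
  refine ⟨Ψ.comp Φ, U', D', fun l j => M.adjugate j l, ?_, fun l G => ?_⟩
  · show Ψ (Φ (f : MvPowerSeries (Fin (t + 3)) ℂ)) = _
    rw [hΦa, hc.hf, map_mul, map_mul, map_pow, hΨX, hz0, hkz, hU']
  · rw [← hMdet]
    have h1 : ∀ j, MvPowerSeries.pderiv ℂ j ((Ψ.comp Φ) G) =
        Matrix.vecMul (fun i => (Ψ.comp Φ) (MvPowerSeries.pderiv ℂ i G)) M j := by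
      intro j
      rw [ARL.chain hpc]
      rw [hM]
      rfl
    have h2 : Matrix.vecMul (Matrix.vecMul
        (fun i => (Ψ.comp Φ) (MvPowerSeries.pderiv ℂ i G)) M) M.adjugate =
        M.det • fun i => (Ψ.comp Φ) (MvPowerSeries.pderiv ℂ i G) := by
      rw [Matrix.vecMul_vecMul, Matrix.mul_adjugate, Matrix.vecMul_smul, Matrix.vecMul_one]
    have h3 := congrFun h2 l
    rw [Pi.smul_apply, smul_eq_mul] at h3
    rw [← h3]
    show ∑ j, _ * M.adjugate j l = _
    refine Finset.sum_congr rfl fun j _ => ?_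
    rw [h1 j, mul_comm]

end T3

end MPb07157
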