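import Pool.Agent.Lib.MP_b07157_agT3.CkDefs
import Pool.Agent.Lib.MP_b07157_agYG.ResG

/-!
# The residue lemma in the chart of the normal form, weighted
-/

noncomputable section

namespace MPb07157

open MvPolynomial TensorProduct

namespace T3

open PC SU SI YL YG

variable {K : Type} [Field K] [Algebra ℂ K] {K' : Type} [CommRing K'] [Algebra ℂ K']
  {B : Type} [CommRing B] [Algebra ℂ B]

/-- **The residue lemma.** A copy of `YG.residue_kzG` (`agYG/ResG.lean`): the Jacobian determinant of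
the chart is `u^c` times a unit instead of `u^(t+2)` times a unit, and `ξ_i` replaces `u ξ_i`
(`hc.hξ` gives the vanishing of the constant coefficients): `(u, y) = Θ(t²)`, `x_j = t^N w T_j`;
`f = t^(2 (d m + N)) (U(0) i(u₀)^d w² ⊗ (1 + ∑ T_j²) + O(t))`, and the Jacobian determinant
(in `log t`) is `± t^(2 c m + (t+1) N + 2 ν) (2 D(0) i(u₀^c J₀) w^(t+1) ⊗ 1 + ⋯)`. -/
theorem residue_kzT {t : ℕ} {f : MvPolynomial (Fin (t + 3)) ℂ} {d c : ℕ} {k : P2}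
    {ξ : Fin (t + 3) → MvPowerSeries (Fin (t + 3)) ℂ} {U D : MvPowerSeries (Fin (t + 3)) ℂ}
    (hc : IsChartT f d c k ξ U D) {s : ℂ} {ν N m : ℕ} (hN : 0 < N) (hν : 0 < ν) (hm : 0 < m)
    (hs : s * (2 * ((d : ℂ) * m + N)) = -(2 * (ν : ℂ) + 2 * (c : ℂ) * m + ((t : ℂ) + 1) * N))
    {b : Polynomial ℂ} (hb : InPs (f : MvPowerSeries (Fin (t + 3)) ℂ) 1
      (b.map (MvPowerSeries.C (σ := Fin (t + 3)) (R := ℂ)))) (hb0 : b.eval s ≠ 0)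
    (i : K →ₐ[ℂ] K') (δ : Derivation ℂ K K) (δ₁ : Derivation ℂ K' K')
    (hδ : ∀ a, δ₁ (i a) = i (δ a)) {J₀ f₀ u₀ : K} (hf₀ : f₀ ≠ 0) (hu₀ : u₀ ≠ 0) (w : K'ˣ)
    (hw : (w : K') ^ 2 = i f₀) (δ' : Fin (t + 1) → Derivation ℂ B B) {T : Fin (t + 1) → B}
    {Q : Bˣ} (hQ : (Q : B) = 1 + ∑ j, T j ^ 2) (hT : ∀ a b, δ' a (T b) = if a = b then 1 else 0)
    (hδ' : ∀ a b x, δ' a (δ' b x) = δ' b (δ' a x))
    {Θ : Fin 2 → PowerSeries K} (h0 : ∀ i, PowerSeries.constantCoeff (Θ i) = 0)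
    {J₁ F₁ U₁ : PowerSeries K}
    (hJ : PC.jacK δ Θ = PowerSeries.X ^ (ν - 1) * (PowerSeries.C J₀ + PowerSeries.X * J₁))
    (hF : (MvPowerSeries.subst (Θ : Fin 2 → MvPowerSeries Unit K) k : PowerSeries K) =
      PowerSeries.X ^ N * (PowerSeries.C f₀ + PowerSeries.X * F₁))
    (hΘ : Θ 0 = PowerSeries.X ^ m * (PowerSeries.C u₀ + PowerSeries.X * U₁)) :
    ∃ (r₀ : K' ⊗[ℂ] B) (r₁ : Fin (t + 1) → K' ⊗[ℂ] B),
      ((w : K') ^ (t + 1) * i (u₀ ^ c * J₀)) ⊗ₜ (1 : B) =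
        dL δ₁ r₀ + ((algebraMap ℂ K' s * i ((d : K) * (δ u₀ / u₀) + δ f₀ / f₀)) ⊗ₜ[ℂ] (1 : B)) *
          r₀ +
        ∑ a, (dR (δ' a) (r₁ a) + ((1 : K') ⊗ₜ[ℂ] (algebraMap ℂ B s *
          (((Q⁻¹ : Bˣ) : B) * δ' a Q))) * r₁ a) := by
  classical
  obtain ⟨e, he⟩ : ∃ e : ℕ, e = 2 := ⟨2, rfl⟩
  have he' : e ≠ 0 := by omega
  have hz := ResGA.im_zero i he' (w : K') T hN h0
  set X' : MvPowerSeries Unit (K' ⊗[ℂ] B) := MvPowerSeries.X () with hX'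
  -- the substitution
  have hps0 : ResNA.ps hz (MvPowerSeries.X 0) = iS B (eE i he' (Θ 0)) := ResNA.ps_X hz 0
  have hX0 : ∀ l, MvPowerSeries.constantCoeff (ResNA.ps hz (ξ l)) = 0 :=
    fun l => by
      rw [ResNA.cc_ps, hc.hξ, map_zero]
  have hθX : ∀ l, ResNA.ps hX0 (MvPowerSeries.X l) = ResNA.ps hz (ξ l) :=
    ResNA.ps_X hX0
  have hθf : ResNA.ps hX0 (f : MvPowerSeries (Fin (t + 3)) ℂ) =
      ResNA.ps hz (MvPowerSeries.subst ξ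
        (f : MvPowerSeries (Fin (t + 3)) ℂ)) := by
    have h1 : ResNA.ps hX0 (f : MvPowerSeries (Fin (t + 3)) ℂ) =
        aeval (fun l => ResNA.ps hz (ξ l)) f := by
      unfold ResNA.ps
      rw [MvPowerSeries.coe_substAlgHom, MvPowerSeries.subst_coe]
    rw [h1, MvPowerSeries.subst_coe]
    have h2 := comp_aeval (R := ℂ) ξ (ResNA.ps hz)
    exact (DFunLike.congr_fun h2 f).symm
  -- the value of `f`
  have l0 := YX.Res2.lead (B := B) i he' hΘ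
  have lF := YX.Res2.lead (B := B) i he' hF
  have lJ := YX.Res2.lead (B := B) i he' hJ
  rw [← hX'] at l0 lF lJ
  obtain ⟨V₀, hV₀⟩ : ∃ V₀ : MvPowerSeries Unit (K' ⊗[ℂ] B), V₀ =
      MvPowerSeries.C (i u₀ ⊗ₜ[ℂ] (1 : B)) + X' ^ e * iS B (eE i he' U₁) := ⟨_, rfl⟩
  obtain ⟨V₁, hV₁⟩ : ∃ V₁ : MvPowerSeries Unit (K' ⊗[ℂ] B), V₁ =
      MvPowerSeries.C (i f₀ ⊗ₜ[ℂ] (Q : B)) + X' ^ e * iS B (eE i he' F₁) := ⟨_, rfl⟩
  obtain ⟨V₂, hV₂⟩ : ∃ V₂ : MvPowerSeries Unit (K' ⊗[ℂ] B), V₂ =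
      MvPowerSeries.C (i J₀ ⊗ₜ[ℂ] (1 : B)) + X' ^ e * iS B (eE i he' J₁) := ⟨_, rfl⟩
  rw [← hV₀] at l0
  rw [← hV₂] at lJ
  have hucE : ∀ j, ucE (w : K') (T j) N ^ 2 =
      X' ^ (e * N) * MvPowerSeries.C (i f₀ ⊗ₜ[ℂ] (T j ^ 2)) := by
    intro j
    unfold ucE
    rw [mul_pow, ← map_pow, Algebra.TensorProduct.tmul_pow, hw, ← pow_mul, mul_comm N 2, ← hX',
      mul_comm, he]
  have hkz : ResNA.ps hz (kzG t k) = X' ^ (e * N) * V₁ := by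
    rw [ResGA.ps_kz i he' (w : K') T hN h0 k, lF, Finset.sum_congr rfl fun j _ => hucE j, hV₁, hQ,
      TensorProduct.tmul_add, TensorProduct.tmul_sum, map_add, map_sum, ← Finset.mul_sum]
    ring
  have hVf : ResNA.ps hX0 (f : MvPowerSeries (Fin (t + 3)) ℂ) =
      MvPowerSeries.monomial (Finsupp.single () (e * (d * m + N))) 1 *
        (V₀ ^ d * (V₁ * ResNA.ps hz U)) := by
    rw [hθf, hc.hf, map_mul, map_mul, map_pow, hps0, hkz, l0, ← MvPowerSeries.X_pow_eq, ← hX']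
    ring
  have hcB : ∀ x : ℂ, algebraMap ℂ (K' ⊗[ℂ] B) x = (1 : K') ⊗ₜ[ℂ] (algebraMap ℂ B x) := by
    intro x
    rw [Algebra.TensorProduct.algebraMap_apply, Algebra.algebraMap_eq_smul_one,
      TensorProduct.smul_tmul, Algebra.algebraMap_eq_smul_one]
  have hcK : ∀ x : ℂ, algebraMap ℂ (K' ⊗[ℂ] B) x = (algebraMap ℂ K' x) ⊗ₜ[ℂ] (1 : B) := by
    intro x
    rw [Algebra.TensorProduct.algebraMap_apply]
  -- the unit
  set cU : ℂ := MvPowerSeries.constantCoeff U with hcU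
  set cD : ℂ := MvPowerSeries.constantCoeff D with hcD
  have hcU0 : cU ≠ 0 := hc.hU
  have hcD0 : cD ≠ 0 := hc.hD
  let φ₀ : Bˣ := Units.map (algebraMap ℂ B).toMonoidHom (Units.mk0 cU hcU0)
  obtain ⟨P, hPdef⟩ : ∃ P : Bˣ, P = φ₀ * Q := ⟨_, rfl⟩
  have hP : (P : B) = algebraMap ℂ B cU * Q := by
    rw [hPdef]
    rfl
  have hPi : ((P⁻¹ : Bˣ) : B) * P = 1 := Units.inv_mul P
  have hPi' : (P : B) * ((P⁻¹ : Bˣ) : B) = 1 := Units.mul_inv P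
  obtain ⟨g₀, hg₀⟩ : ∃ g₀ : K, g₀ = u₀ ^ d * f₀ := ⟨_, rfl⟩
  have hg0 : g₀ ≠ 0 := by
    rw [hg₀]
    exact mul_ne_zero (pow_ne_zero _ hu₀) hf₀
  have hgg : i g₀ * i g₀⁻¹ = 1 := by rw [← map_mul, mul_inv_cancel₀ hg0, map_one]
  let φ : (K' ⊗[ℂ] B)ˣ := ⟨(i g₀) ⊗ₜ[ℂ] (P : B), (i g₀⁻¹) ⊗ₜ[ℂ] ((P⁻¹ : Bˣ) : B), by
    rw [Algebra.TensorProduct.tmul_mul_tmul, hgg, hPi']; rfl, by
    rw [Algebra.TensorProduct.tmul_mul_tmul, mul_comm (i g₀⁻¹), hgg, hPi]; rfl⟩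
  have hφ1 : (φ : K' ⊗[ℂ] B) = (i g₀) ⊗ₜ[ℂ] (P : B) := rfl
  have hφ2 : ((φ⁻¹ : (K' ⊗[ℂ] B)ˣ) : K' ⊗[ℂ] B) = (i g₀⁻¹) ⊗ₜ[ℂ] ((P⁻¹ : Bˣ) : B) := rfl
  have c0 : MvPowerSeries.constantCoeff V₀ = i u₀ ⊗ₜ[ℂ] (1 : B) := by
    rw [hV₀, map_add, map_mul, map_pow, MvPowerSeries.constantCoeff_C, hX',
      MvPowerSeries.constantCoeff_X, zero_pow he', zero_mul, add_zero]
  have c1 : MvPowerSeries.constantCoeff V₁ = i f₀ ⊗ₜ[ℂ] (Q : B) := by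
    rw [hV₁, map_add, map_mul, map_pow, MvPowerSeries.constantCoeff_C, hX',
      MvPowerSeries.constantCoeff_X, zero_pow he', zero_mul, add_zero]
  have c2 : MvPowerSeries.constantCoeff V₂ = i J₀ ⊗ₜ[ℂ] (1 : B) := by
    rw [hV₂, map_add, map_mul, map_pow, MvPowerSeries.constantCoeff_C, hX',
      MvPowerSeries.constantCoeff_X, zero_pow he', zero_mul, add_zero]
  have hφ : MvPowerSeries.constantCoeff (V₀ ^ d * (V₁ * ResNA.ps hz U)) = φ := by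
    rw [map_mul, map_mul, map_pow, c0, c1, ResNA.cc_ps, ← hcU, hcB,
      Algebra.TensorProduct.tmul_pow, one_pow, Algebra.TensorProduct.tmul_mul_tmul,
      Algebra.TensorProduct.tmul_mul_tmul, hφ1, hP, hg₀, map_mul, map_pow, mul_one, one_mul,
      mul_comm (Q : B)]
  -- the derivations
  let D' : Option (Fin (t + 1)) → Derivation ℂ (K' ⊗[ℂ] B) (K' ⊗[ℂ] B) :=
    fun o => o.elim (dL δ₁) fun a => dR (δ' a)
  have hRR : ∀ (a a' : Fin (t + 1)) (x : K' ⊗[ℂ] B),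
      dR (δ' a) (dR (δ' a') x) = dR (δ' a') (dR (δ' a) x) := by
    intro a a' x
    induction x using TensorProduct.induction_on with
    | zero => simp
    | tmul x y => rw [dR_tmul, dR_tmul, dR_tmul, dR_tmul, hδ']
    | add x y hx hy => rw [map_add, map_add, map_add, map_add, hx, hy]
  have hD' : ∀ b b' x, D' b (D' b' x) = D' b' (D' b x) := by
    intro b b' x
    rcases b with _ | a <;> rcases b' with _ | a'
    · rfl
    · exact dL_dR δ₁ (δ' a') x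
    · exact (dL_dR δ₁ (δ' a) x).symm
    · exact hRR a a' x
  -- the Jacobian
  have hdet : (ARL.jm (fun l => ARL.rowD D'
      ((Fin.cons (Sum.inl ()) (Fin.cons (Sum.inr none) fun j => Sum.inr (some j)) :
        Fin (t + 3) → Unit ⊕ Option (Fin (t + 1))) l))
        fun l => ResNA.ps hX0 (MvPowerSeries.X l)).det =
      MvPowerSeries.monomial (Finsupp.single () (e * ν + e * c * m + (t + 1) * N)) 1 *
        (MvPowerSeries.C ((w : K') ⊗ₜ[ℂ] (1 : B)) ^ (t + 1) *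
          ((e : MvPowerSeries Unit (K' ⊗[ℂ] B)) * V₂) * (V₀ ^ c * ResNA.ps hz D)) := by
    rw [funext hθX, ResNA.det_ps hz, ResGA.det_im i he' (w : K') T hδ hT rfl (fun _ => rfl),
      hc.hdet, map_mul, map_pow, hps0, l0, lJ, ← MvPowerSeries.X_pow_eq, ← hX']
    obtain ⟨ν', rfl⟩ : ∃ ν', ν = ν' + 1 := ⟨ν - 1, by omega⟩
    rw [Nat.add_sub_cancel]
    ring
  have hDN : 0 < e * (d * m + N) := Nat.mul_pos (by omega) (by omega)
  have hDC : (2 * ((d : ℂ) * m + N)) ≠ 0 := by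
    have h1 : (2 * (d * m + N) : ℕ) ≠ 0 := by omega
    exact_mod_cast h1
  have hs1 : s = -(((e * ν + e * c * m + (t + 1) * N : ℕ) : ℂ) /
      ((e * (d * m + N) : ℕ) : ℂ)) := by
    rw [he]
    push_cast
    rw [← neg_div, eq_div_iff hDC]
    linear_combination hs
  obtain ⟨r, hr⟩ := ARL.residue_corner (τ := Unit) (β := Option (Fin (t + 1)))
    (Fin.cons (Sum.inl ()) (Fin.cons (Sum.inr none) fun j => Sum.inr (some j)) :
        Fin (t + 3) → Unit ⊕ Option (Fin (t + 1))) hD' (θ := ResNA.ps hX0)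
    (fun l => by rw [hθX]; exact hX0 l) hVf hφ (ν := e * ν + e * c * m + (t + 1) * N)
    (D := e * (d * m + N)) hDN hs1 (Mon := ∅) (M := fun _ => 0) (by simp)
    (l := fun _ => 0) hdet (fun j => by
      rw [Finsupp.single_apply, Finsupp.single_apply, if_pos (Subsingleton.elim _ _),
        if_pos (Subsingleton.elim _ _), Finset.sum_empty, add_zero, he]
      push_cast
      linear_combination hs) (j₀ := ()) (by
      rw [Finsupp.single_eq_same]; exact hDN) (by simp) hb hb0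
  -- the constant coefficient
  obtain ⟨κ, hκ⟩ : ∃ κ : K' ⊗[ℂ] B, κ = algebraMap ℂ (K' ⊗[ℂ] B) ((e : ℂ)⁻¹ * cD⁻¹) := ⟨_, rfl⟩
  have heC : (e : ℂ) ≠ 0 := by exact_mod_cast he'
  have hleft : κ * MvPowerSeries.constantCoeff (MvPowerSeries.C ((w : K') ⊗ₜ[ℂ] (1 : B)) ^ (t + 1) *
      ((e : MvPowerSeries Unit (K' ⊗[ℂ] B)) * V₂) * (V₀ ^ c * ResNA.ps hz D)) =
      ((w : K') ^ (t + 1) * i (u₀ ^ c * J₀)) ⊗ₜ[ℂ] (1 : B) := by
    rw [map_mul, map_mul, map_mul, map_mul, map_pow, map_pow, map_natCast,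
      MvPowerSeries.constantCoeff_C, c0, c2, ResNA.cc_ps, ← hcD, Algebra.TensorProduct.tmul_pow,
      Algebra.TensorProduct.tmul_pow, one_pow, one_pow, hκ,
      ← map_natCast (algebraMap ℂ (K' ⊗[ℂ] B)) e]
    have h1 : algebraMap ℂ (K' ⊗[ℂ] B) ((e : ℂ)⁻¹ * cD⁻¹) *
        (algebraMap ℂ (K' ⊗[ℂ] B) (e : ℂ) * algebraMap ℂ (K' ⊗[ℂ] B) cD) = 1 := by
      rw [← map_mul, ← map_mul, show (e : ℂ)⁻¹ * cD⁻¹ * ((e : ℂ) * cD) = 1 by field_simp, map_one]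
    have h2 : ((w : K') ^ (t + 1)) ⊗ₜ[ℂ] (1 : B) * (i J₀ ⊗ₜ[ℂ] (1 : B)) *
        ((i u₀ ^ c) ⊗ₜ[ℂ] (1 : B)) =
        ((w : K') ^ (t + 1) * i (u₀ ^ c * J₀)) ⊗ₜ[ℂ] (1 : B) := by
      rw [Algebra.TensorProduct.tmul_mul_tmul, Algebra.TensorProduct.tmul_mul_tmul, mul_one,
        mul_one, map_mul, map_pow]
      congr 1
      ring
    rw [← h2]
    linear_combination (((w : K') ^ (t + 1)) ⊗ₜ[ℂ] (1 : B) * (i J₀ ⊗ₜ[ℂ] (1 : B)) *
      ((i u₀ ^ c) ⊗ₜ[ℂ] (1 : B))) * h1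
  have hDκ : ∀ b, D' b κ = 0 := by
    intro b
    rw [hκ, Derivation.map_algebraMap]
  rw [Fintype.sum_option] at hr
  refine ⟨κ * r none, fun a => κ * r (some a), ?_⟩
  rw [← hleft, hr]
  have e0 : D' none = dL δ₁ := rfl
  have e1 : ∀ a, D' (some a) = dR (δ' a) := fun _ => rfl
  have g0 : dL δ₁ (κ * r none) = κ * dL δ₁ (r none) := by
    rw [Derivation.leibniz, ← e0, hDκ, smul_zero, add_zero, smul_eq_mul]
  have g1 : ∀ a, dR (δ' a) (κ * r (some a)) = κ * dR (δ' a) (r (some a)) := by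
    intro a
    rw [Derivation.leibniz, ← e1, hDκ, smul_zero, add_zero, smul_eq_mul]
  have hlog : i g₀⁻¹ * δ₁ (i g₀) = i ((d : K) * (δ u₀ / u₀) + δ f₀ / f₀) := by
    rw [hδ, ← map_mul]
    congr 1
    rw [hg₀, Derivation.leibniz, Derivation.leibniz_pow, smul_eq_mul, smul_eq_mul, nsmul_eq_mul,
      smul_eq_mul]
    rcases d with _ | d'
    · simp only [pow_zero, Nat.cast_zero, zero_mul, mul_zero, add_zero, one_mul, zero_add]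
      rw [div_eq_inv_mul]
    · rw [Nat.add_sub_cancel]
      field_simp
      push_cast
      ring
  have k0 : algebraMap ℂ (K' ⊗[ℂ] B) s * (((φ⁻¹ : (K' ⊗[ℂ] B)ˣ) : K' ⊗[ℂ] B) * dL δ₁ φ) =
      ((algebraMap ℂ K' s * i ((d : K) * (δ u₀ / u₀) + δ f₀ / f₀)) ⊗ₜ[ℂ] (1 : B)) := by
    rw [hφ1, hφ2, dL_tmul, Algebra.TensorProduct.tmul_mul_tmul, hPi, hcK,
      Algebra.TensorProduct.tmul_mul_tmul, one_mul, hlog]
  have hPT : ∀ a, ((P⁻¹ : Bˣ) : B) * δ' a P = ((Q⁻¹ : Bˣ) : B) * δ' a Q := by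
    intro a
    have h3 : δ' a P = algebraMap ℂ B cU * δ' a Q := by
      rw [hP, Derivation.leibniz, Derivation.map_algebraMap, smul_zero, add_zero, smul_eq_mul]
    have h5 : ((P⁻¹ : Bˣ) : B) = ((φ₀⁻¹ : Bˣ) : B) * ((Q⁻¹ : Bˣ) : B) := by
      rw [hPdef, _root_.mul_inv φ₀ Q, Units.val_mul]
    have h6 : ((φ₀⁻¹ : Bˣ) : B) * algebraMap ℂ B cU = 1 := Units.inv_mul φ₀
    rw [h3, h5]
    linear_combination (((Q⁻¹ : Bˣ) : B) * δ' a Q) * h6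
  have k1 : ∀ a, algebraMap ℂ (K' ⊗[ℂ] B) s *
      (((φ⁻¹ : (K' ⊗[ℂ] B)ˣ) : K' ⊗[ℂ] B) * dR (δ' a) φ) =
      (1 : K') ⊗ₜ[ℂ] (algebraMap ℂ B s * (((Q⁻¹ : Bˣ) : B) * δ' a Q)) := by
    intro a
    rw [hφ1, hφ2, dR_tmul, Algebra.TensorProduct.tmul_mul_tmul, mul_comm (i g₀⁻¹), hgg, hcB,
      Algebra.TensorProduct.tmul_mul_tmul, one_mul, hPT]
  rw [e0, k0, g0, mul_add, Finset.mul_sum]
  have hsum : ∀ a : Fin (t + 1), κ * (D' (some a) (r (some a)) + algebraMap ℂ (K' ⊗[ℂ] B) s *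
      (((φ⁻¹ : (K' ⊗[ℂ] B)ˣ) : K' ⊗[ℂ] B) * D' (some a) φ) * r (some a)) =
      dR (δ' a) (κ * r (some a)) + ((1 : K') ⊗ₜ[ℂ] (algebraMap ℂ B s *
        (((Q⁻¹ : Bˣ) : B) * δ' a Q))) * (κ * r (some a)) := by
    intro a
    rw [e1, k1, g1]
    ring
  rw [Finset.sum_congr rfl fun a _ => hsum a]
  ring

end T3

end MPb07157
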