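import Pool.Agent.Lib.MP_b07157_agYW.GlueW
import Pool.Agent.Lib.MP_b07157_agYX.Ser2

/-!
# The series of a pair as a zeta function of `u^D (k(u, y) + x²)`
-/

noncomputable section

namespace MPb07157

open MvPolynomial

namespace T3

open SI SI.LineQ SI.LineA PC YV YW YX

/-- As `YW.relSer_eq_ZY` (`agYW/GlueW.lean`) and `YX.lineSer_eq_ZX` (`agYX/Ser2.lean`, the case
`c = 2` for the series of a line): `YX.AKm_kz`, `YW.GlueWA.AKm_level`, `YL.Lp_eq_ell`. -/
theorem relSer_eq_ZX {h : MvPolynomial (Fin 3) ℂ} {k : P2} {c D : ℕ} (hD : 0 < D)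
    (hh : UEq2 (h : MvPowerSeries (Fin 3) ℂ) k 2) {K : ℕ} (hK : 1 ≤ K) :
    relSer (n := 2) h c D = ZX k (fun _ : Fin 1 => 2) (c + 1) D 0 K := by
  unfold relSer ZX
  ext m
  rw [PowerSeries.coeff_mk, PowerSeries.coeff_mk]
  have hmN : m + 1 ≤ K * (m + 1) := Nat.le_mul_of_pos_left _ (by omega)
  obtain ⟨N, hN⟩ : ∃ N, K * (m + 1) = N + 1 := ⟨K * (m + 1) - 1, by omega⟩
  rw [hN] at hmN ⊢
  have hsub : Finset.Icc 1 m ⊆ Finset.Icc 1 (N + 1) := Finset.Icc_subset_Icc_right (by omega)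
  rw [Finset.sum_subset hsub]
  · refine Finset.sum_congr rfl fun j hj => ?_
    rw [Finset.mem_Icc] at hj
    by_cases hjm : D * j ≤ m
    · have hjm' : j ≤ m := le_trans (Nat.le_mul_of_pos_left _ hD) hjm
      rw [if_pos hjm, if_pos hjm]
      have h2 := AKm_kz (N := N) (j := j) (i := m - D * j) two_pos hh hj.1 (by omega) (by omega)
      have h4 := GlueWA.AKm_level h (N := m) (N' := N) (k := j)
        (i := m - D * j) (by omega) (by omega) (by omega)
      have h5 : YG.AKm (n := 2) h m j (m - D * j) = YL.AKm h m j (m - D * j) := rfl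
      have h6 : li = ell := rfl
      rw [Nat.zero_mul, ← h2, YL.Lp_eq_ell, h5, ← h4, h6, Nat.add_sub_cancel]
    · rw [if_neg hjm, if_neg hjm]
  · intro j hj hj'
    rw [Finset.mem_Icc] at hj hj'
    refine if_neg fun h => hj' ⟨hj.1, le_trans (Nat.le_mul_of_pos_left _ hD) h⟩

end T3

end MPb07157
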