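import Pool.Agent.Lib.MP_b07157_agT3.CkDefs

/-!
# The cubic form is squarefree
-/

noncomputable section

namespace MPb07157

open MvPolynomial

namespace T3

/-- The values of a polynomial of degree at most one. -/
private theorem eval_affine {x : MvPolynomial (Fin 3) ℂ} (h : x.totalDegree ≤ 1) :
    ∃ c l0 l1 l2 : ℂ, ∀ p : Fin 3 → ℂ, eval p x = c + l0 * p 0 + l1 * p 1 + l2 * p 2 := by
  classical
  refine ⟨coeff 0 x, coeff (Finsupp.single 0 1) x, coeff (Finsupp.single 1 1) x,
    coeff (Finsupp.single 2 1) x, fun p => ?_⟩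
  have hsub : x.support ⊆ {0, Finsupp.single (0 : Fin 3) 1, Finsupp.single 1 1,
      Finsupp.single 2 1} := by
    intro v hv
    have h1 := (le_totalDegree hv).trans h
    rw [Finsupp.sum_fintype _ _ (fun i => rfl), Fin.sum_univ_three] at h1
    have h2 : (v 0 = 0 ∧ v 1 = 0 ∧ v 2 = 0) ∨ (v 0 = 1 ∧ v 1 = 0 ∧ v 2 = 0) ∨
        (v 0 = 0 ∧ v 1 = 1 ∧ v 2 = 0) ∨ (v 0 = 0 ∧ v 1 = 0 ∧ v 2 = 1) := by omega
    simp only [Finset.mem_insert, Finset.mem_singleton]
    rcases h2 with ⟨a, b, c⟩ | ⟨a, b, c⟩ | ⟨a, b, c⟩ | ⟨a, b, c⟩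
    · left
      ext j; fin_cases j
      · simpa using a
      · simpa using b
      · simpa using c
    · right; left
      ext j; fin_cases j
      · simpa using a
      · simpa using b
      · simpa using c
    · right; right; left
      ext j; fin_cases j
      · simpa using a
      · simpa using b
      · simpa using c
    · right; right; right
      ext j; fin_cases j
      · simpa using a
      · simpa using b
      · simpa using c
  rw [eval_eq', Finset.sum_subset hsub fun v _ hv => by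
    rw [notMem_support_iff.1 hv, zero_mul]]
  have n1 : (0 : Fin 3 →₀ ℕ) ∉ ({Finsupp.single (0 : Fin 3) 1, Finsupp.single 1 1,
      Finsupp.single 2 1} : Finset (Fin 3 →₀ ℕ)) := by
    simp only [Finset.mem_insert, Finset.mem_singleton, not_or]
    refine ⟨fun h => ?_, fun h => ?_, fun h => ?_⟩
    · simpa using DFunLike.congr_fun h 0
    · simpa using DFunLike.congr_fun h 1
    · simpa using DFunLike.congr_fun h 2
  have n2 : (Finsupp.single (0 : Fin 3) 1 : Fin 3 →₀ ℕ) ∉ ({Finsupp.single 1 1,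
      Finsupp.single 2 1} : Finset (Fin 3 →₀ ℕ)) := by
    simp only [Finset.mem_insert, Finset.mem_singleton, not_or]
    refine ⟨fun h => ?_, fun h => ?_⟩
    · simpa using DFunLike.congr_fun h 0
    · simpa using DFunLike.congr_fun h 0
  have n3 : (Finsupp.single (1 : Fin 3) 1 : Fin 3 →₀ ℕ) ∉ ({
      Finsupp.single 2 1} : Finset (Fin 3 →₀ ℕ)) := by
    simp only [Finset.mem_singleton]
    intro h
    simpa using DFunLike.congr_fun h 1
  rw [Finset.sum_insert n1, Finset.sum_insert n2, Finset.sum_insert n3, Finset.sum_singleton]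
  simp only [Fin.prod_univ_three]
  simp
  ring

/-- The values of `P` on the line `x_1 = 0`, `x_2 = τ`. -/
private theorem eval_bin {s : ℕ} {P : MvPolynomial (Fin 3) ℂ} (hP : BinForm P s) :
    ∃ κ : ℂ, ∀ t τ : ℂ, eval (![t, 0, τ] : Fin 3 → ℂ) P = t ^ s * κ := by
  classical
  refine ⟨∑ v ∈ P.support, coeff v P * 0 ^ (v 1), fun t τ => ?_⟩
  rw [eval_eq', Finset.mul_sum]
  refine Finset.sum_congr rfl fun v hv => ?_
  have h2 : v 2 = 0 := hP.two v hv
  have h1 := hP.hom (mem_support_iff.1 hv)
  rw [Finsupp.weight_apply, Finsupp.sum_fintype _ _ (fun i => by simp), Fin.sum_univ_three, h2] at h1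
  have h3 : v 0 + v 1 = s := by simpa using h1
  rw [Fin.prod_univ_three, h2]
  by_cases h4 : v 1 = 0
  · rw [h4, add_zero] at h3
    rw [h3, h4]
    simp
    ring
  · simp [h4]

private theorem eval_cub (s : ℕ) (P : MvPolynomial (Fin 3) ℂ) (p : Fin 3 → ℂ) :
    eval p (cub s P) = p 0 ^ 3 + p 1 ^ 3 + p 2 ^ (3 - s) * eval p P := by
  unfold cub
  simp

private theorem isHomogeneous_cub {s : ℕ} (hs : s ≤ 2) {P : MvPolynomial (Fin 3) ℂ}
    (hP : BinForm P s) : (cub s P).IsHomogeneous 3 := by
  unfold cub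
  refine ((isHomogeneous_X_pow 0 3).add (isHomogeneous_X_pow 1 3)).add ?_
  have h := (isHomogeneous_X_pow (R := ℂ) (2 : Fin 3) (3 - s)).mul hP.hom
  rwa [show 3 - s + s = 3 by omega] at h

/-- The cubic form is squarefree: a square factor `L²`, `L` homogeneous, would restrict to a square
factor of `x_0^3 + x_1^3` on `x_2 = 0`. -/
theorem squarefree_cub {s : ℕ} (hs : s ≤ 2) {P : MvPolynomial (Fin 3) ℂ} (hP : BinForm P s) :
    Squarefree (cub s P) := by
  classical
  intro x ⟨g, hg⟩
  have h3s : 3 - s ≠ 0 := by omega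
  have hF0 : cub s P ≠ 0 := by
    intro h
    have h1 := eval_cub s P ![1, 0, 0]
    rw [h, map_zero] at h1
    simp [h3s] at h1
  have hxg : x * x ≠ 0 ∧ g ≠ 0 := by
    rw [hg] at hF0
    exact ⟨left_ne_zero_of_mul hF0, right_ne_zero_of_mul hF0⟩
  have hx : x ≠ 0 := left_ne_zero_of_mul hxg.1
  have hdeg : x.totalDegree ≤ 1 := by
    have h1 := (isHomogeneous_cub hs hP).totalDegree hF0
    rw [hg, totalDegree_mul_of_isDomain hxg.1 hxg.2, totalDegree_mul_of_isDomain hx hx] at h1
    omega
  obtain ⟨c, l0, l1, l2, hl⟩ := eval_affine hdeg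
  -- zeros of `x` on `x_2 = 0`
  have hz : ∀ p : Fin 3 → ℂ, eval p x = 0 → p 2 = 0 → p 0 = 0 ∧ p 1 = 0 := by
    intro p hp hp2
    have hd : ∀ j : Fin 3, eval p (pderiv j (cub s P)) = 0 := by
      intro j
      rw [hg, Derivation.leibniz, Derivation.leibniz]
      simp only [smul_eq_mul, map_add, map_mul, hp]
      ring
    have e0 : eval p (pderiv 0 (cub s P)) = 3 * p 0 ^ 2 := by
      unfold cub
      simp only [map_add, Derivation.leibniz, Derivation.leibniz_pow, pderiv_X_self, smul_eq_mul,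
        nsmul_eq_mul, pderiv_X_of_ne (show (2 : Fin 3) ≠ 0 by decide),
        pderiv_X_of_ne (show (1 : Fin 3) ≠ 0 by decide)]
      simp [hp2, h3s]
    have e1 : eval p (pderiv 1 (cub s P)) = 3 * p 1 ^ 2 := by
      unfold cub
      simp only [map_add, Derivation.leibniz, Derivation.leibniz_pow, pderiv_X_self, smul_eq_mul,
        nsmul_eq_mul, pderiv_X_of_ne (show (2 : Fin 3) ≠ 1 by decide),
        pderiv_X_of_ne (show (0 : Fin 3) ≠ 1 by decide)]
      simp [hp2, h3s]
    rw [hd 0] at e0
    rw [hd 1] at e1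
    exact ⟨by simpa using e0.symm, by simpa using e1.symm⟩
  have hl0 : l0 = 0 := by
    by_contra h0
    have h1 := hz ![-(c + l1) / l0, 1, 0] (by
      rw [hl]
      simp
      field_simp
      ring) (by simp)
    simpa using h1.2
  have hl1 : l1 = 0 := by
    by_contra h0
    have h1 := hz ![1, -(c + l0) / l1, 0] (by
      rw [hl]
      simp
      field_simp
      ring) (by simp)
    simpa using h1.1
  have hc : c ≠ 0 := by
    rintro rfl
    have h1 := hz ![1, 0, 0] (by rw [hl, hl0, hl1]; simp) (by simp)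
    simpa using h1.1
  have hl2 : l2 = 0 := by
    by_contra h0
    obtain ⟨κ, hκ⟩ := eval_bin hP
    have h1 : ∀ t : ℂ, t ^ 3 + (-c / l2) ^ (3 - s) * (t ^ s * κ) = 0 := by
      intro t
      have h2 := eval_cub s P ![t, 0, -c / l2]
      have h3 : eval (![t, 0, -c / l2] : Fin 3 → ℂ) x = 0 := by
        rw [hl, hl0, hl1]
        simp
        field_simp
        ring
      rw [hκ, hg, map_mul, map_mul, h3, zero_mul, zero_mul] at h2
      have h4 : (![t, 0, -c / l2] : Fin 3 → ℂ) 0 = t := rfl
      have h5 : (![t, 0, -c / l2] : Fin 3 → ℂ) 1 = 0 := rfl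
      have h6 : (![t, 0, -c / l2] : Fin 3 → ℂ) 2 = -c / l2 := rfl
      rw [h4, h5, h6] at h2
      rw [h2]
      ring
    have h7 := h1 1
    have h8 := h1 2
    rw [one_pow, one_pow, one_mul] at h7
    generalize (-c / l2) ^ (3 - s) = A at h7 h8
    have h9 : A * κ = -1 := by linear_combination h7
    have h10 : (8 : ℂ) = 2 ^ s := by
      have : (8 : ℂ) + 2 ^ s * (A * κ) = 0 := by linear_combination h8
      rw [h9] at this
      linear_combination this
    have h11 : (8 : ℕ) = 2 ^ s := by exact_mod_cast h10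
    interval_cases s <;> norm_num at h11
  have hxC : x = C c := by
    refine MvPolynomial.funext fun p => ?_
    rw [hl, hl0, hl1, hl2, eval_C]
    ring
  rw [hxC]
  exact IsUnit.map C (isUnit_iff_ne_zero.2 hc)

end T3

end MPb07157
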