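import Pool.Agent.Lib.MP_b07157_agT3.CkAx
import Pool.Agent.Lib.MP_b07157_agT3.CkCh
import Pool.Agent.Lib.MP_b07157_agT3.CkCr
import Pool.Agent.Lib.MP_b07157_agT3.CkEx
import Pool.Agent.Lib.MP_b07157_agT3.CkFp
import Pool.Agent.Lib.MP_b07157_agT3.CkSer
import Pool.Agent.Lib.MP_b07157_agT3.CkSq
import Pool.Agent.Lib.MP_b07157_agYW.Tc

/-!
# Weighted tangent cones of surface germs with double points
-/

noncomputable section

namespace MPb07157

open MvPolynomial

namespace T3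

open PC SU SI YL YW

theorem sum_wts (e s : ℕ) : ∑ j, wts e s j = 2 * e + (3 - s) := by
  rw [Fin.sum_univ_three]
  show e + e + (3 - s) = _
  ring

/-- The critical orbits. -/
theorem double_caseT {f : MvPolynomial (Fin 3) ℂ} {e s : ℕ} {P : MvPolynomial (Fin 3) ℂ}
    (hs : s ≤ 2) (hes : 3 ≤ e + s) (hP : BinForm P s)
    (H : YW.WC (n := 3) f (wts e s) (3 * e)) (hLF : YW.LF f (wts e s) (3 * e) = gw e P)
    {q : Fin 3 → ℂ} (hq : q 2 = 1) (hc : ∀ j, eval q (pderiv j (gw e P)) = 0) {i j : Fin 3}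
    (hi : i ≠ 2) (hj : j ≠ 2) (hij : eval q (pderiv i (pderiv j (gw e P))) ≠ 0) {s₀ : ℚ}
    (h : ((∑ j, wts e s j : ℕ) : ℚ) + (3 * e : ℕ) * s₀ ≠ 0) (h1 : s₀ ≠ -1)
    (hreg : YW.orbSer f (wts e s) (3 * e) q ∉ regularAt s₀)
    {b : Polynomial ℂ} (hb : InPs (f : MvPowerSeries (Fin 3) ℂ) 1
      (b.map (MvPowerSeries.C (σ := Fin 3) (R := ℂ)))) : b.eval (s₀ : ℂ) = 0 := by
  have he : 0 < e := by
    have h2 := H.ha 0
    exact h2
  obtain ⟨f', -, hf'3, hh⟩ := exists_fp he hs hP H.low hLF hq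
  obtain ⟨hc', hhes⟩ := crit_cub he hs hP hq hc
  have hsq : Squarefree (homogeneousComponent 3 f') := by
    rw [hf'3]
    exact squarefree_cub hs hP
  have hc3 : ∀ j, eval q (pderiv j (homogeneousComponent 3 f')) = 0 := by
    rw [hf'3]
    exact hc'
  have hij' : eval q (pderiv i (pderiv j (homogeneousComponent 3 f'))) ≠ 0 := by
    rw [hf'3, hhes i j hi hj]
    exact hij
  have h0 : eval q (homogeneousComponent 3 f') = 0 := by
    have h2 := congrArg (eval q) (homogeneousComponent_isHomogeneous 3 f').sum_X_mul_pderiv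
    rw [map_sum, Finset.sum_eq_zero (fun l _ => by rw [map_mul, hc3 l, mul_zero]),
      nsmul_eq_mul, map_mul, map_natCast] at h2
    exact (mul_eq_zero.1 h2.symm).resolve_left (by norm_num)
  obtain ⟨k, hk0, hk⟩ := YX.exists_ueq2_hg hq h0 hc3 hij'
  obtain ⟨M, hM1, hM⟩ := YX.exists_yOrd hq hsq hk0 hk
  have hM4 := YX.yOrd_le_four hq h0 hc3 hij' hsq hk hM
  obtain ⟨K, hK⟩ := exists_nat_gt (-s₀)
  have hK1 : 1 ≤ K + 1 := by omega
  have hK2 : -s₀ < ((K + 1 : ℕ) : ℚ) := by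
    push_cast
    linarith
  have hq0 : q ≠ 0 := by
    rintro rfl
    simp at hq
  have hfree : YW.Free (wts e s) q := H.free q hq0 (by rw [hLF]; exact hc)
  have hser := orbSer_eq (n := 2) H.ha H.haD hq hfree hh
  have hA := sum_wts e s
  obtain ⟨A, hAdef⟩ : ∃ A, A = 2 * e + (3 - s) := ⟨_, rfl⟩
  obtain ⟨D, hDdef⟩ : ∃ D, D = 3 * e := ⟨_, rfl⟩
  have hcc : (A - 1) + 1 = A := by omega
  have hD : 0 < D := by omega
  have hAD : A ≤ D := by omega
  have hDA : D ≤ 2 * A := by omega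
  rw [hser, hA, ← hAdef, ← hDdef, relSer_eq_ZX hD hk hK1, hcc] at hreg
  rw [hA, ← hAdef, ← hDdef] at h
  have hADQ : (A : ℚ) ≤ D := by exact_mod_cast hAD
  have hDAQ : (D : ℚ) ≤ 2 * A := by exact_mod_cast hDA
  have hDQ : (0 : ℚ) < D := by exact_mod_cast hD
  have he2 : ∀ l : Fin 1, 0 < (fun _ : Fin 1 => 2) l := fun _ => two_pos
  by_contra hb0
  apply hreg
  rcases lt_or_ge s₀ (-1) with hs1 | hs1
  · refine YX.out_neg he2 ?_ h1 hK1 hK2 M k A D 0 (by omega) (by omega) hM hM1 ?_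
    · rw [YX.hn_two]
      linarith
    · push_cast
      nlinarith
  rcases le_or_gt (-(1 / 2)) s₀ with hs2 | hs2
  · refine YX.out_pos he2 ?_ h1 hK1 hK2 M k A D 0 (by omega) (by omega) hM hM1 ?_
    · rw [YX.hn_two]
      linarith
    · push_cast
      have h4 : 0 ≤ (A : ℚ) + D * s₀ := by nlinarith
      rw [zero_mul, add_zero]
      exact lt_of_le_of_ne h4 (Ne.symm h)
  have hs1' : -1 < s₀ := lt_of_le_of_ne hs1 (Ne.symm h1)
  obtain ⟨ξ, U, J, hch⟩ := exists_chartT H.ha hh hk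
  rw [hA, ← hAdef, ← hDdef] at hch
  have hex := ex2_of_rootT hch (by push_cast; linarith) (by push_cast; linarith) hb hb0
  have hax : YX.AxOK2 k (s₀ + hn (fun _ : Fin 1 => 2)) := by
    have hax' := axOK2_of_rootT hch hk0 h1 (by push_cast; linarith) hb hb0
    rw [YX.hn_two]
    rwa [Nat.cast_zero, zero_add] at hax'
  rw [Nat.cast_zero, zero_add] at hex
  have key := YX.later2 (g := k) he2 (s₀ := s₀) (by rw [YX.hn_two]; linarith) (D := D) (b := A)
    (by omega) (by omega) (by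
      rw [YX.hn_two]
      have e1 : (((A - 1 : ℕ) : ℚ)) = (A : ℚ) - 1 := by
        rw [Nat.cast_sub (by omega), Nat.cast_one]
      rw [← e1]
      exact hex) hax h1 hK1 hK2 M MvPowerSeries.X k 1 1 0 (YX.isStg_id k) hM hM1 (by
      rw [YX.hn_two]
      right
      have hM4Q : (M : ℚ) ≤ 4 := by exact_mod_cast hM4
      have hM1Q : (1 : ℚ) ≤ M := by exact_mod_cast hM1
      nlinarith) (by
      rw [YX.hn_two]
      push_cast
      intro h5
      apply h
      linarith)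
  have e2 : (1 + (A - 1) * 1 : ℕ) = A := by omega
  rw [e2, mul_one] at key
  exact key

end T3

open T3 YW in
/-- **Surface germs with weighted tangent cones, double points.** -/
theorem SmcLoc.of_wCork {f : MvPolynomial (Fin 3) ℂ} {e s : ℕ} {P : MvPolynomial (Fin 3) ℂ}
    (hs : s ≤ 2) (hes : 3 ≤ e + s) (hP : BinForm P s)
    (H : YW.WC (n := 3) f (wts e s) (3 * e)) (hLF : YW.LF f (wts e s) (3 * e) = gw e P)
    (hh : ∀ q : Fin 3 → ℂ, q ≠ 0 → (∀ j, eval q (pderiv j (gw e P)) = 0) →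
      q 2 ≠ 0 ∧ ∃ i j : Fin 3, i ≠ 2 ∧ j ≠ 2 ∧ eval q (pderiv i (pderiv j (gw e P))) ≠ 0)
    (hne : NonEx (gw e P) (((∑ j, wts e s j : ℕ) : ℂ) / (3 * e : ℕ))) : SmcLoc f := by
  intro s₀ _ hp b hb
  refine smc_wc H hb (fun q j₀ hqj hcrit h h1 hreg => ?_) (fun _ => Or.inr (Or.inr ?_)) hp
  · have hq0 : q ≠ 0 := by
      rintro rfl
      exact zero_ne_one hqj
    have hhom : (gw e P).IsWeightedHomogeneous (wts e s) (3 * e) := by
      rw [← hLF]
      exact rw_LF_hom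
    rw [hLF] at hcrit
    obtain ⟨h2, -⟩ := hh q hq0 hcrit
    obtain ⟨t, ht⟩ := IsAlgClosed.exists_pow_nat_eq (q 2)⁻¹ (H.ha 2)
    have ht0 : t ≠ 0 := by
      rintro rfl
      rw [zero_pow (H.ha 2).ne'] at ht
      exact inv_ne_zero h2 ht.symm
    have hq2 : sc (wts e s) t q 2 = 1 := by
      show t ^ wts e s 2 * q 2 = 1
      rw [ht, inv_mul_cancel₀ h2]
    have hq0' : sc (wts e s) t q ≠ 0 := by
      intro h0
      have h3 := congrFun h0 2
      rw [hq2] at h3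
      exact one_ne_zero h3
    have hcrit' : ∀ j, eval (sc (wts e s) t q) (pderiv j (gw e P)) = 0 := by
      intro j
      have h3 : (pderiv j (gw e P)).IsWeightedHomogeneous (wts e s) (3 * e - wts e s j) := by
        refine IsWeightedHomogeneous.pderiv hhom ?_
        have := H.haD j
        omega
      rw [rw_eval_sc h3, hcrit j, mul_zero]
    obtain ⟨-, i, j, hi, hj, hij⟩ := hh _ hq0' hcrit'
    rw [← orbSer_sc f (wts e s) (3 * e) q ht0] at hreg
    exact double_caseT hs hes hP H hLF hq2 hcrit' hi hj hij h h1 hreg (inPs_of_form hb)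
  · rw [hLF]
    exact hne

end MPb07157
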