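import Pool.Agent.Lib.MP_b07157_agM.TDefs

/-!
# Surface germs whose tangent cone consists of three concurrent planes: definitions
-/

noncomputable section

namespace MPb07157

open MvPolynomial

namespace T3

/-- The exponent of `x_0^i x_1^j x_2^k`. -/
def ex3 (i j k : ℕ) : Fin 3 →₀ ℕ :=
  Finsupp.single 0 i + Finsupp.single 1 j + Finsupp.single 2 k

/-- `f = x_0^3 + x_1^3 + (terms of degree ≥ 4)`. -/
structure Nf (f : MvPolynomial (Fin 3) ℂ) : Prop where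
  low : ∀ j < 3, homogeneousComponent j f = 0
  three : homogeneousComponent 3 f = X 0 ^ 3 + X 1 ^ 3

/-- `P ≠ 0` is a form of degree `s` in `x_0`, `x_1`. -/
structure BinForm (P : MvPolynomial (Fin 3) ℂ) (s : ℕ) : Prop where
  hom : P.IsHomogeneous s
  two : ∀ v ∈ P.support, v 2 = 0
  ne : P ≠ 0

/-- The polynomial `x_0^3 + x_1^3 + x_2^e P`. -/
def gw (e : ℕ) (P : MvPolynomial (Fin 3) ℂ) : MvPolynomial (Fin 3) ℂ :=
  X 0 ^ 3 + X 1 ^ 3 + X 2 ^ e * P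

/-- The weights: `x_0^3 + x_1^3 + x_2^e P`, `P` a form of degree `s` in `x_0`, `x_1`, has the
weight `3 e`. -/
def wts (e s : ℕ) : Fin 3 → ℕ := ![e, e, 3 - s]

/-- The substitution `x_0 ↦ x_0 + φ`, `x_1 ↦ x_1 + ψ`. -/
def sh (φ ψ : MvPowerSeries (Fin 3) ℂ) : Fin 3 → MvPowerSeries (Fin 3) ℂ :=
  ![MvPowerSeries.X 0 + φ, MvPowerSeries.X 1 + ψ, MvPowerSeries.X 2]

/-- `φ` is a series in `x_2` of order at least two. -/
def Zs (φ : MvPowerSeries (Fin 3) ℂ) : Prop :=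
  ∀ v : Fin 3 →₀ ℕ, (v 0 ≠ 0 ∨ v 1 ≠ 0 ∨ v 2 ≤ 1) → MvPowerSeries.coeff v φ = 0

end T3

end MPb07157
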