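import Mathlib

/-!
# A differential equation without polynomial solutions
-/

noncomputable section

namespace MPb07157

namespace T3

open Polynomial

/-- The order of a solution at a zero of `F p`. -/
theorem ord_le {F p U : ℂ[X]} (hF0 : F ≠ 0) (hp0 : p ≠ 0) (hU0 : U ≠ 0) {m N : ℕ} {β κ : ℚ}
    (hβ : 0 < β) (hκ : 0 < κ) {c : ℂ}
    (hE : F * p * derivative U - (C ((m : ℂ) + β) * derivative F * p +
      C ((N : ℂ) + κ) * F * derivative p) * U = C c * F ^ (m + 1) * p ^ (N + 1))
    {r : ℂ} (hr : 0 < F.rootMultiplicity r + p.rootMultiplicity r) :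
    m * F.rootMultiplicity r + N * p.rootMultiplicity r + 1 ≤ U.rootMultiplicity r := by
  obtain ⟨F1, hF, hF1⟩ := exists_eq_pow_rootMultiplicity_mul_and_not_dvd F hF0 r
  obtain ⟨p1, hp, hp1⟩ := exists_eq_pow_rootMultiplicity_mul_and_not_dvd p hp0 r
  obtain ⟨U1, hU, hU1⟩ := exists_eq_pow_rootMultiplicity_mul_and_not_dvd U hU0 r
  set i := F.rootMultiplicity r with hi
  set j := p.rootMultiplicity r with hj
  set n := U.rootMultiplicity r with hn
  by_contra hcon
  push Not at hcon
  have hcon' : n ≤ m * i + N * j := by omega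
  clear_value i j n
  set Y : ℂ[X] := X - C r with hY
  have hdY : derivative Y = 1 := by rw [hY]; simp
  have hYd : ∀ (k : ℕ) (A : ℂ[X]), Y * derivative (Y ^ k * A) =
      Y ^ k * ((k : ℂ[X]) * A + Y * derivative A) := by
    intro k A
    rcases k with _ | k
    · simp
    · rw [derivative_mul, derivative_pow, hdY, Nat.add_sub_cancel]
      simp only [map_natCast]
      push_cast
      ring
  have hmul := congrArg (fun q => Y * q) hE
  have e1 : Y * (F * p * derivative U - (C ((m : ℂ) + β) * derivative F * p +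
      C ((N : ℂ) + κ) * F * derivative p) * U) = Y ^ (n + i + j) *
      (F1 * p1 * ((n : ℂ[X]) * U1 + Y * derivative U1) -
        (C ((m : ℂ) + β) * ((i : ℂ[X]) * F1 + Y * derivative F1) * p1 +
          C ((N : ℂ) + κ) * F1 * ((j : ℂ[X]) * p1 + Y * derivative p1)) * U1) := by
    have a1 : Y * derivative U = Y ^ n * ((n : ℂ[X]) * U1 + Y * derivative U1) := by
      conv_lhs => rw [hU]
      exact hYd n U1
    have a2 : Y * derivative F = Y ^ i * ((i : ℂ[X]) * F1 + Y * derivative F1) := by
      conv_lhs => rw [hF]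
      exact hYd i F1
    have a3 : Y * derivative p = Y ^ j * ((j : ℂ[X]) * p1 + Y * derivative p1) := by
      conv_lhs => rw [hp]
      exact hYd j p1
    calc Y * (F * p * derivative U - (C ((m : ℂ) + β) * derivative F * p +
          C ((N : ℂ) + κ) * F * derivative p) * U)
        = F * p * (Y * derivative U) - (C ((m : ℂ) + β) * (Y * derivative F) * p +
          C ((N : ℂ) + κ) * F * (Y * derivative p)) * U := by ring
      _ = (Y ^ i * F1) * (Y ^ j * p1) * (Y ^ n * ((n : ℂ[X]) * U1 + Y * derivative U1)) -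
          (C ((m : ℂ) + β) * (Y ^ i * ((i : ℂ[X]) * F1 + Y * derivative F1)) * (Y ^ j * p1) +
          C ((N : ℂ) + κ) * (Y ^ i * F1) * (Y ^ j * ((j : ℂ[X]) * p1 + Y * derivative p1))) *
          (Y ^ n * U1) := by
            rw [a1, a2, a3, ← hF, ← hp, ← hU]
      _ = _ := by ring
  have e2 : Y * (C c * F ^ (m + 1) * p ^ (N + 1)) =
      Y ^ (n + i + j) * (Y * (Y ^ (m * i + N * j - n) * (C c * F1 ^ (m + 1) * p1 ^ (N + 1)))) := by
    have a4 : n + i + j + 1 + (m * i + N * j - n) = 1 + i * (m + 1) + j * (N + 1) := by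
      have : i * (m + 1) = m * i + i := by ring
      have : j * (N + 1) = N * j + j := by ring
      omega
    calc Y * (C c * F ^ (m + 1) * p ^ (N + 1))
        = Y * (C c * (Y ^ i * F1) ^ (m + 1) * (Y ^ j * p1) ^ (N + 1)) := by rw [← hF, ← hp]
      _ = Y ^ (1 + i * (m + 1) + j * (N + 1)) * (C c * F1 ^ (m + 1) * p1 ^ (N + 1)) := by
          rw [mul_pow, mul_pow, ← pow_mul, ← pow_mul, pow_add, pow_add, pow_one]
          ring
      _ = _ := by
          rw [← a4, pow_add, pow_add, pow_one]
          ring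
  rw [e1, e2] at hmul
  have hY0 : Y ≠ 0 := X_sub_C_ne_zero r
  have h3 := mul_left_cancel₀ (pow_ne_zero _ hY0) hmul
  have h4 := congrArg (eval r) h3
  have hYr : eval r Y = 0 := by rw [hY]; simp
  have hF1r : eval r F1 ≠ 0 := fun h => hF1 (dvd_iff_isRoot.2 h)
  have hp1r : eval r p1 ≠ 0 := fun h => hp1 (dvd_iff_isRoot.2 h)
  have hU1r : eval r U1 ≠ 0 := fun h => hU1 (dvd_iff_isRoot.2 h)
  simp only [eval_sub, eval_add, eval_mul, eval_C, eval_natCast, hYr, zero_mul, add_zero] at h4
  have h5 : eval r F1 * eval r p1 * eval r U1 *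
      ((n : ℂ) - ((m : ℂ) + β) * i - ((N : ℂ) + κ) * j) = 0 := by
    linear_combination h4
  have h6 : (n : ℂ) - ((m : ℂ) + β) * i - ((N : ℂ) + κ) * j = 0 := by
    rcases mul_eq_zero.1 h5 with h | h
    · exact absurd h (mul_ne_zero (mul_ne_zero hF1r hp1r) hU1r)
    · exact h
  have h7 : (n : ℚ) - ((m : ℚ) + β) * i - ((N : ℚ) + κ) * j = 0 := by
    have h8 : (((n : ℚ) - ((m : ℚ) + β) * i - ((N : ℚ) + κ) * j : ℚ) : ℂ) = 0 := by
      push_cast
      exact h6
    exact_mod_cast h8
  have h9 : (n : ℚ) ≤ m * i + N * j := by exact_mod_cast hcon'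
  have h10 : 0 < β * i + κ * j := by
    rcases Nat.eq_zero_or_pos i with h | h
    · have hj' : 0 < j := by omega
      have : (0 : ℚ) < j := by exact_mod_cast hj'
      have : 0 < κ * j := mul_pos hκ this
      have : 0 ≤ β * i := by positivity
      linarith
    · have : (0 : ℚ) < i := by exact_mod_cast h
      have : 0 < β * i := mul_pos hβ this
      have : 0 ≤ κ * j := by positivity
      linarith
  nlinarith

theorem coeff_X_mul_derivative (A : ℂ[X]) (k : ℕ) :
    (X * derivative A).coeff k = (k : ℂ) * A.coeff k := by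
  rcases k with _ | k
  · rw [coeff_X_mul_zero, Nat.cast_zero, zero_mul]
  · rw [coeff_X_mul, coeff_derivative, Nat.cast_add, Nat.cast_one, mul_comm]

theorem natDegree_X_mul_derivative (A : ℂ[X]) : (X * derivative A).natDegree ≤ A.natDegree := by
  rw [natDegree_le_iff_coeff_eq_zero]
  intro k hk
  rw [coeff_X_mul_derivative, coeff_eq_zero_of_natDegree_lt hk, mul_zero]

/-- The cubic `X^3 + 1`. -/
def cubP : ℂ[X] := X ^ 3 + 1

theorem natDegree_cubP : cubP.natDegree = 3 := by
  unfold cubP
  compute_degree!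

theorem cubP_ne_zero : cubP ≠ 0 := by
  intro h
  have := natDegree_cubP
  rw [h, natDegree_zero] at this
  omega

theorem cubP_rootMultiplicity (r : ℂ) : cubP.rootMultiplicity r ≤ 1 := by
  by_contra hcon
  push Not at hcon
  obtain ⟨h1, h2⟩ := (one_lt_rootMultiplicity_iff_isRoot cubP_ne_zero).1 hcon
  unfold cubP at h1 h2
  simp only [IsRoot.def, eval_add, eval_pow, eval_X, eval_one, derivative_add, derivative_X_pow,
    derivative_one, add_zero, eval_mul, eval_C] at h1 h2
  have h3 : r = 0 := by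
    rcases mul_eq_zero.1 h2 with h | h
    · norm_num at h
    · exact pow_eq_zero_iff (two_ne_zero) |>.1 h
  rw [h3] at h1
  norm_num at h1

/-- There is no polynomial solution. -/
theorem no_sol {p U : ℂ[X]} (hp0 : p ≠ 0) {m N : ℕ} {β κ : ℚ} (hβ : 0 < β) (hκ : 0 < κ)
    (hβκ : 3 * β + κ * p.natDegree ≤ 2) {c : ℂ} (hc : c ≠ 0)
    (hE : cubP * p * derivative U - (C ((m : ℂ) + β) * derivative cubP * p +
      C ((N : ℂ) + κ) * cubP * derivative p) * U = C c * cubP ^ (m + 1) * p ^ (N + 1)) : False := by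
  have hF0 := cubP_ne_zero
  have hU0 : U ≠ 0 := by
    rintro rfl
    rw [derivative_zero, mul_zero, mul_zero, sub_zero] at hE
    exact mul_ne_zero (mul_ne_zero (C_ne_zero.2 hc) (pow_ne_zero _ hF0)) (pow_ne_zero _ hp0) hE.symm
  have hdvd : cubP ^ (m + 1) * p ^ N ∣ U := by
    have h0 : cubP ^ (m + 1) * p ^ N ≠ 0 := mul_ne_zero (pow_ne_zero _ hF0) (pow_ne_zero _ hp0)
    refine (IsAlgClosed.splits _).dvd_of_roots_le_roots h0 ?_
    rw [Multiset.le_iff_count]
    intro r
    rw [count_roots, count_roots, rootMultiplicity_mul h0, ← count_roots, ← count_roots, roots_pow,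
      roots_pow, Multiset.count_nsmul, Multiset.count_nsmul, count_roots, count_roots]
    have h1 := cubP_rootMultiplicity r
    rcases Nat.eq_zero_or_pos (cubP.rootMultiplicity r + p.rootMultiplicity r) with h | h
    · have h2 : cubP.rootMultiplicity r = 0 := by omega
      have h3 : p.rootMultiplicity r = 0 := by omega
      rw [h2, h3]
      simp
    · have h2 := ord_le hF0 hp0 hU0 hβ hκ hE h
      have h3 : (m + 1) * cubP.rootMultiplicity r = m * cubP.rootMultiplicity r +
        cubP.rootMultiplicity r := by ring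
      omega
  obtain ⟨W, hW⟩ := hdvd
  have hW0 : W ≠ 0 := by
    rintro rfl
    rw [mul_zero] at hW
    exact hU0 hW
  set d := p.natDegree with hd
  have hdeg : U.natDegree = 3 * (m + 1) + d * N + W.natDegree := by
    rw [hW, natDegree_mul (mul_ne_zero (pow_ne_zero _ hF0) (pow_ne_zero _ hp0)) hW0,
      natDegree_mul (pow_ne_zero _ hF0) (pow_ne_zero _ hp0), natDegree_pow, natDegree_pow,
      natDegree_cubP]
    ring
  set R := U.natDegree with hR
  have hmul : X * (cubP * p * derivative U - (C ((m : ℂ) + β) * derivative cubP * p +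
      C ((N : ℂ) + κ) * cubP * derivative p) * U) = X * (C c * cubP ^ (m + 1) * p ^ (N + 1)) := by
    rw [hE]
  have e1 : X * (cubP * p * derivative U - (C ((m : ℂ) + β) * derivative cubP * p +
      C ((N : ℂ) + κ) * cubP * derivative p) * U) =
      cubP * p * (X * derivative U) - C ((m : ℂ) + β) * (((X * derivative cubP) * p) * U) -
      C ((N : ℂ) + κ) * ((cubP * (X * derivative p)) * U) := by ring
  have hcoe := congrArg (fun q => coeff q (3 + d + R)) (e1.symm.trans hmul)
  have hcd : cubP.natDegree ≤ 3 := natDegree_cubP.le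
  have hpd : p.natDegree ≤ d := le_rfl
  have hUd : U.natDegree ≤ R := le_rfl
  have hcp : (cubP * p).natDegree ≤ 3 + d := natDegree_mul_le_of_le hcd hpd
  have hc' : (X * derivative cubP).natDegree ≤ 3 := (natDegree_X_mul_derivative _).trans hcd
  have hp' : (X * derivative p).natDegree ≤ d := natDegree_X_mul_derivative _
  have hU' : (X * derivative U).natDegree ≤ R := natDegree_X_mul_derivative _
  have hc'p : (X * derivative cubP * p).natDegree ≤ 3 + d := natDegree_mul_le_of_le hc' hpd
  have hcp' : (cubP * (X * derivative p)).natDegree ≤ 3 + d := natDegree_mul_le_of_le hcd hp'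
  simp only [coeff_sub, coeff_C_mul] at hcoe
  rw [coeff_mul_add_eq_of_natDegree_le hcp hU', coeff_mul_add_eq_of_natDegree_le hc'p hUd,
    coeff_mul_add_eq_of_natDegree_le hcp' hUd, coeff_mul_add_eq_of_natDegree_le hcd hpd,
    coeff_mul_add_eq_of_natDegree_le hc' hpd, coeff_mul_add_eq_of_natDegree_le hcd hp',
    coeff_X_mul_derivative, coeff_X_mul_derivative, coeff_X_mul_derivative] at hcoe
  have hright : (X * (C c * cubP ^ (m + 1) * p ^ (N + 1))).coeff (3 + d + R) = 0 := by
    apply coeff_eq_zero_of_natDegree_lt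
    have h1 : (X * (C c * cubP ^ (m + 1) * p ^ (N + 1))).natDegree ≤
        1 + ((0 + (m + 1) * 3) + (N + 1) * d) := by
      refine natDegree_mul_le_of_le natDegree_X_le (natDegree_mul_le_of_le
        (natDegree_mul_le_of_le (natDegree_C c).le ?_) ?_)
      · exact natDegree_pow_le_of_le _ hcd
      · exact natDegree_pow_le_of_le _ hpd
    refine lt_of_le_of_lt h1 ?_
    have h2 : (N + 1) * d = d * N + d := by ring
    omega
  rw [hright] at hcoe
  have hlc : cubP.coeff 3 ≠ 0 := by
    have := leadingCoeff_ne_zero.2 hF0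
    rwa [leadingCoeff, natDegree_cubP] at this
  have hlp : p.coeff d ≠ 0 := leadingCoeff_ne_zero.2 hp0
  have hlU : U.coeff R ≠ 0 := leadingCoeff_ne_zero.2 hU0
  have h5 : cubP.coeff 3 * p.coeff d * U.coeff R *
      ((R : ℂ) - 3 * ((m : ℂ) + β) - d * ((N : ℂ) + κ)) = 0 := by
    push_cast at hcoe
    linear_combination hcoe
  have h6 : (R : ℂ) - 3 * ((m : ℂ) + β) - d * ((N : ℂ) + κ) = 0 := by
    rcases mul_eq_zero.1 h5 with h | h
    · exact absurd h (mul_ne_zero (mul_ne_zero hlc hlp) hlU)
    · exact h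
  have h7 : (R : ℚ) - 3 * ((m : ℚ) + β) - d * ((N : ℚ) + κ) = 0 := by
    have h8 : (((R : ℚ) - 3 * ((m : ℚ) + β) - d * ((N : ℚ) + κ) : ℚ) : ℂ) = 0 := by
      push_cast
      exact h6
    exact_mod_cast h8
  have h9 : (R : ℚ) = 3 * (m + 1) + d * N + W.natDegree := by
    rw [hdeg]
    push_cast
    ring
  have h10 : (0 : ℚ) ≤ W.natDegree := Nat.cast_nonneg _
  nlinarith

end T3

end MPb07157
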