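import Pool.Agent.Lib.MP_b07157_agT3.Defs
import Pool.Agent.Lib.MP_b07157_agT3.NoSol

/-!
# The push forward of forms `g f^(-α-m)` along `x_2`
-/

noncomputable section

namespace MPb07157

open MvPolynomial

namespace T3

/-- The Beta values. -/
def cc (κ β : ℂ) (m l : ℕ) : ℂ :=
  Complex.Gamma (κ + l) * Complex.Gamma (β + m - l) / Complex.Gamma (κ + β + m)

/-- No number is resonant. -/
structure NR (κ β : ℂ) : Prop where
  k : ∀ l : ℕ, κ + l ≠ 0
  b : ∀ l : ℤ, β + l ≠ 0
  a : ∀ m : ℕ, κ + β + m ≠ 0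

variable {κ β : ℂ}

theorem cc_one (h : NR κ β) (m l : ℕ) :
    (κ + β + m) * cc κ β (m + 1) l = (β + m - l) * cc κ β m l := by
  unfold cc
  have h1 : Complex.Gamma (κ + β + m) ≠ 0 := Complex.Gamma_ne_zero fun k hk => h.a (m + k) (by
    push_cast
    rw [← add_assoc, hk, neg_add_cancel])
  have e1 : Complex.Gamma (κ + β + (m + 1 : ℕ)) = (κ + β + m) * Complex.Gamma (κ + β + m) := by
    rw [← Complex.Gamma_add_one _ (h.a m)]
    congr 1
    push_cast
    ring
  have h2 : β + m - l ≠ 0 := by
    have := h.b ((m : ℤ) - l)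
    push_cast at this
    rwa [← add_sub_assoc] at this
  have e2 : Complex.Gamma (β + (m + 1 : ℕ) - l) = (β + m - l) * Complex.Gamma (β + m - l) := by
    rw [← Complex.Gamma_add_one _ h2]
    congr 1
    push_cast
    ring
  rw [e1, e2]
  have h3 := h.a m
  field_simp

theorem cc_two (h : NR κ β) (m l : ℕ) :
    (κ + β + m) * cc κ β (m + 1) (l + 1) = (κ + l) * cc κ β m l := by
  unfold cc
  have h1 : Complex.Gamma (κ + β + m) ≠ 0 := Complex.Gamma_ne_zero fun k hk => h.a (m + k) (by
    push_cast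
    rw [← add_assoc, hk, neg_add_cancel])
  have e1 : Complex.Gamma (κ + β + (m + 1 : ℕ)) = (κ + β + m) * Complex.Gamma (κ + β + m) := by
    rw [← Complex.Gamma_add_one _ (h.a m)]
    congr 1
    push_cast
    ring
  have e2 : Complex.Gamma (κ + (l + 1 : ℕ)) = (κ + l) * Complex.Gamma (κ + l) := by
    rw [← Complex.Gamma_add_one _ (h.k l)]
    congr 1
    push_cast
    ring
  have e3 : β + (m + 1 : ℕ) - (l + 1 : ℕ) = β + m - l := by
    push_cast
    ring
  rw [e1, e2, e3]
  have h3 := h.a m
  field_simp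

theorem cc_add (h : NR κ β) (m l : ℕ) :
    cc κ β (m + 1) l + cc κ β (m + 1) (l + 1) = cc κ β m l := by
  have h1 := cc_one h m l
  have h2 := cc_two h m l
  refine mul_left_cancel₀ (h.a m) ?_
  linear_combination h1 + h2

theorem cc_zero_ne (h : NR κ β) : cc κ β 0 0 ≠ 0 := by
  unfold cc
  have h1 : ∀ s : ℂ, (∀ k : ℕ, s + k ≠ 0) → Complex.Gamma s ≠ 0 := fun s hs =>
    Complex.Gamma_ne_zero fun k hk => hs k (by rw [hk, neg_add_cancel])
  refine div_ne_zero (mul_ne_zero (h1 _ fun k => ?_) (h1 _ fun k => ?_)) (h1 _ fun k => ?_)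
  · have := h.k k
    simpa using this
  · have := h.b k
    simpa using this
  · have := h.a k
    simpa using this

/-- The values at the powers of `x_2`. -/
def tau (e : ℕ) (κ β : ℂ) (N : ℕ) (p : Polynomial ℂ) (m k : ℕ) : Polynomial ℂ :=
  if e ∣ k then Polynomial.C (cc κ β m (k / e)) * (cubP ^ (k / e) * p ^ (N - k / e)) else 0

theorem tau_mul {e : ℕ} (he : 0 < e) (N : ℕ) (p : Polynomial ℂ) (m l : ℕ) :
    tau e κ β N p m (e * l) = Polynomial.C (cc κ β m l) * (cubP ^ l * p ^ (N - l)) := by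
  unfold tau
  rw [if_pos (Dvd.intro l rfl), Nat.mul_div_cancel_left _ he]

theorem tau_of_not {e k : ℕ} (h : ¬ e ∣ k) (N : ℕ) (p : Polynomial ℂ) (m : ℕ) :
    tau e κ β N p m k = 0 := if_neg h

/-- The functional. -/
def T (e : ℕ) (κ β : ℂ) (N : ℕ) (p : Polynomial ℂ) (m : ℕ) :
    MvPolynomial (Fin 3) ℂ →ₗ[ℂ] Polynomial ℂ :=
  (basisMonomials (Fin 3) ℂ).constr ℂ fun v => Polynomial.X ^ v 0 * tau e κ β N p m (v 2)

theorem T_monomial (e : ℕ) (N : ℕ) (p : Polynomial ℂ) (m : ℕ) (v : Fin 3 →₀ ℕ) (r : ℂ) :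
    T e κ β N p m (monomial v r) =
      Polynomial.C r * (Polynomial.X ^ v 0 * tau e κ β N p m (v 2)) := by
  have h1 : (monomial v r : MvPolynomial (Fin 3) ℂ) = r • basisMonomials (Fin 3) ℂ v := by
    rw [coe_basisMonomials, smul_monomial, smul_eq_mul, mul_one]
  rw [h1, map_smul]
  unfold T
  rw [Module.Basis.constr_basis, Polynomial.smul_eq_C_mul]

/-- The restriction to `x_1 = 1`, `x_2 = 0`. -/
def ev : MvPolynomial (Fin 3) ℂ →ₐ[ℂ] Polynomial ℂ := aeval ![Polynomial.X, 1, 0]

theorem T_monomial_mul (e : ℕ) (N : ℕ) (p : Polynomial ℂ) (m : ℕ) {u : Fin 3 →₀ ℕ} (hu : u 2 = 0)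
    (a : ℂ) (g : MvPolynomial (Fin 3) ℂ) :
    T e κ β N p m (monomial u a * g) =
      Polynomial.C a * Polynomial.X ^ u 0 * T e κ β N p m g := by
  induction g using MvPolynomial.induction_on' with
  | monomial v r =>
    rw [monomial_mul, T_monomial, T_monomial, Finsupp.add_apply, Finsupp.add_apply, hu, zero_add,
      map_mul, pow_add]
    ring
  | add g h hg hh => rw [mul_add, map_add, hg, hh, map_add, mul_add]

theorem T_mul (e : ℕ) (N : ℕ) (p : Polynomial ℂ) (m : ℕ) {P : MvPolynomial (Fin 3) ℂ}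
    (hP : ∀ v ∈ P.support, v 2 = 0) (g : MvPolynomial (Fin 3) ℂ) :
    T e κ β N p m (P * g) = ev P * T e κ β N p m g := by
  conv_lhs => rw [P.as_sum]
  conv_rhs => rw [P.as_sum]
  rw [Finset.sum_mul, map_sum, map_sum, Finset.sum_mul]
  refine Finset.sum_congr rfl fun v hv => ?_
  rw [T_monomial_mul e N p m (hP v hv)]
  congr 1
  unfold ev
  rw [aeval_monomial, Finsupp.prod_fintype _ _ (fun i => pow_zero _), Fin.prod_univ_three]
  simp [hP v hv]

theorem T_X2_pow (e : ℕ) (N : ℕ) (p : Polynomial ℂ) (m : ℕ) (k : ℕ) (v : Fin 3 →₀ ℕ) (r : ℂ) :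
    T e κ β N p m (X 2 ^ k * monomial v r) =
      Polynomial.C r * (Polynomial.X ^ v 0 * tau e κ β N p m (v 2 + k)) := by
  rw [X_pow_eq_monomial, monomial_mul, T_monomial, one_mul, Finsupp.add_apply, Finsupp.add_apply,
    Finsupp.single_eq_of_ne (by decide), Finsupp.single_eq_same, zero_add, add_comm]

theorem T_one_mul (e : ℕ) (N : ℕ) (p : Polynomial ℂ) (m : ℕ) (g : MvPolynomial (Fin 3) ℂ) :
    T e κ β N p m (X 1 * g) = T e κ β N p m g := by
  have h1 : (X 1 : MvPolynomial (Fin 3) ℂ) = monomial (Finsupp.single 1 1) 1 := rfl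
  rw [h1, T_monomial_mul e N p m (Finsupp.single_eq_of_ne (by decide)), map_one, one_mul,
    Finsupp.single_eq_of_ne (by decide), pow_zero, one_mul]

theorem ev_X0 : ev (X 0) = Polynomial.X := by
  unfold ev
  rw [aeval_X]
  rfl

theorem ev_X1 : ev (X 1) = 1 := by
  unfold ev
  rw [aeval_X]
  rfl

/-- The terms of `g` are of degree `< K` in `x_2`. -/
def Lt2 (K : ℕ) (g : MvPolynomial (Fin 3) ℂ) : Prop := ∀ v ∈ g.support, v 2 < K

/-- Linear identities can be checked on monomials. -/
theorem eq_of_mono {K : ℕ} {A B : MvPolynomial (Fin 3) ℂ →ₗ[ℂ] Polynomial ℂ}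
    (h : ∀ (v : Fin 3 →₀ ℕ) (r : ℂ), v 2 < K → A (monomial v r) = B (monomial v r))
    {g : MvPolynomial (Fin 3) ℂ} (hg : Lt2 K g) : A g = B g := by
  rw [g.as_sum, map_sum, map_sum]
  exact Finset.sum_congr rfl fun v hv => h v _ (hg v hv)

variable {e s : ℕ} {P : MvPolynomial (Fin 3) ℂ}

theorem supp_X0_pow (j : ℕ) (i : Fin 3) (hi : i ≠ 2) :
    ∀ v ∈ (X i ^ j : MvPolynomial (Fin 3) ℂ).support, v 2 = 0 := by
  intro v hv
  rw [X_pow_eq_monomial] at hv
  have h1 := support_monomial_subset hv
  rw [Finset.mem_singleton] at h1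
  rw [h1, Finsupp.single_eq_of_ne hi.symm]

/-- Lowering the exponent. -/
theorem T_gw_mul (h : NR κ β) (he : 0 < e) {N : ℕ} (hP : ∀ v ∈ P.support, v 2 = 0) (m : ℕ)
    {g : MvPolynomial (Fin 3) ℂ} (hg : Lt2 (e * N) g) :
    T e κ β N (ev P) (m + 1) (gw e P * g) = cubP * T e κ β N (ev P) m g := by
  have key : ∀ (v : Fin 3 →₀ ℕ) (r : ℂ), v 2 < e * N →
      ((T e κ β N (ev P) (m + 1)).comp (LinearMap.mulLeft ℂ (gw e P))) (monomial v r) =
      ((LinearMap.mulLeft ℂ cubP).comp (T e κ β N (ev P) m)) (monomial v r) := by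
    intro v r hv
    rw [LinearMap.comp_apply, LinearMap.comp_apply, LinearMap.mulLeft_apply,
      LinearMap.mulLeft_apply]
    have e1 : gw e P * monomial v r = X 0 ^ 3 * monomial v r + X 1 ^ 3 * monomial v r +
        P * (X 2 ^ e * monomial v r) := by
      unfold gw
      ring
    rw [e1, map_add, map_add, T_mul e N _ _ (supp_X0_pow 3 0 (by decide)),
      T_mul e N _ _ (supp_X0_pow 3 1 (by decide)), T_mul e N _ _ hP, T_X2_pow, T_monomial,
      T_monomial, map_pow, map_pow, ev_X0, ev_X1]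
    by_cases hd : e ∣ v 2
    · obtain ⟨l, hl⟩ := hd
      have hlN : l < N := by
        rw [hl] at hv
        exact Nat.lt_of_mul_lt_mul_left hv
      have e2 : v 2 + e = e * (l + 1) := by rw [hl]; ring
      rw [e2, hl, tau_mul he, tau_mul he, tau_mul he, ← cc_add h m l, map_add]
      have e3 : ev P ^ (N - l) = ev P * ev P ^ (N - (l + 1)) := by
        rw [← pow_succ']
        congr 1
        omega
      rw [e3]
      unfold cubP
      ring
    · have h2 : ¬ e ∣ v 2 + e := by
        rwa [Nat.dvd_add_self_right]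
      rw [tau_of_not hd, tau_of_not hd, tau_of_not h2]
      ring
  exact eq_of_mono key hg

theorem pderiv_two_gw (hP : ∀ v ∈ P.support, v 2 = 0) (e : ℕ) :
    pderiv 2 (gw e P) = C (e : ℂ) * (P * X 2 ^ (e - 1)) := by
  have h1 : pderiv 2 P = 0 := by
    rw [P.as_sum, map_sum]
    refine Finset.sum_eq_zero fun v hv => ?_
    rw [pderiv_monomial, hP v hv, Nat.cast_zero, mul_zero, monomial_zero]
  unfold gw
  rw [map_add, map_add, pderiv_mul, h1, mul_zero, add_zero, pderiv_pow, pderiv_pow, pderiv_pow,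
    pderiv_X_self, pderiv_X_of_ne (by decide), pderiv_X_of_ne (by decide), map_natCast]
  ring

theorem pderiv_zero_gw (e : ℕ) :
    pderiv 0 (gw e P) = C 3 * X 0 ^ 2 + pderiv 0 P * X 2 ^ e := by
  unfold gw
  rw [map_add, map_add, pderiv_mul, pderiv_pow, pderiv_pow, pderiv_pow,
    pderiv_X_self, pderiv_X_of_ne (by decide), pderiv_X_of_ne (by decide)]
  have h3 : (C 3 : MvPolynomial (Fin 3) ℂ) = 3 := by
    rw [← map_ofNat (C : ℂ →+* MvPolynomial (Fin 3) ℂ) 3]
  rw [h3]
  push_cast
  ring

theorem lt2_pderiv_monomial {K : ℕ} {v : Fin 3 →₀ ℕ} (hv : v 2 < K) (r : ℂ) (i : Fin 3) :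
    Lt2 K (pderiv i (monomial v r)) := by
  intro u hu
  rw [pderiv_monomial] at hu
  have h1 := support_monomial_subset hu
  rw [Finset.mem_singleton] at h1
  rw [h1, Finsupp.tsub_apply]
  omega

/-- The derivatives with respect to `x_2` are killed. -/
theorem T_two (h : NR κ β) (he : 2 ≤ e) (hκ : (e : ℂ) * κ = 1) {N : ℕ}
    (hP : ∀ v ∈ P.support, v 2 = 0) (m : ℕ)
    {g : MvPolynomial (Fin 3) ℂ} (hg : Lt2 (e * N) g) :
    T e κ β N (ev P) (m + 1) (gw e P * pderiv 2 g - C (κ + β + m) * (g * pderiv 2 (gw e P))) = 0 := by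
  have he0 : 0 < e := by omega
  have key : ∀ (v : Fin 3 →₀ ℕ) (r : ℂ), v 2 < e * N →
      ((T e κ β N (ev P) (m + 1)).comp (((LinearMap.mulLeft ℂ (gw e P)).comp
        (pderiv 2 : Derivation ℂ (MvPolynomial (Fin 3) ℂ) _).toLinearMap) -
        (LinearMap.mulLeft ℂ (C (κ + β + m))).comp (LinearMap.mulRight ℂ (pderiv 2 (gw e P)))))
        (monomial v r) = (0 : MvPolynomial (Fin 3) ℂ →ₗ[ℂ] Polynomial ℂ) (monomial v r) := by
    intro v r hv
    rw [LinearMap.comp_apply, LinearMap.sub_apply, LinearMap.comp_apply, LinearMap.comp_apply,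
      LinearMap.mulLeft_apply, LinearMap.mulLeft_apply, LinearMap.mulRight_apply,
      LinearMap.zero_apply, map_sub]
    change T e κ β N (ev P) (m + 1) (gw e P * pderiv 2 (monomial v r)) - _ = 0
    rw [T_gw_mul h he0 hP m (lt2_pderiv_monomial hv r 2), pderiv_two_gw hP]
    have e1 : C (κ + β + m) * (monomial v r * (C (e : ℂ) * (P * X 2 ^ (e - 1)))) =
        C ((κ + β + m) * e) * (P * (X 2 ^ (e - 1) * monomial v r)) := by
      rw [map_mul]
      ring
    rw [e1, ← smul_eq_C_mul, map_smul, T_mul e N _ _ hP, T_X2_pow, pderiv_monomial, T_monomial,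
      Finsupp.tsub_apply, Finsupp.tsub_apply, Finsupp.single_eq_of_ne (by decide),
      Finsupp.single_eq_same, Nat.sub_zero]
    rcases Nat.eq_zero_or_pos (v 2) with h0 | h0
    · rw [h0, Nat.cast_zero, mul_zero, map_zero, zero_mul, mul_zero, zero_sub, zero_add]
      rw [tau_of_not (fun hd => ?_)]
      · rw [mul_zero, mul_zero, mul_zero, smul_zero, neg_zero]
      · have := Nat.le_of_dvd (by omega) hd
        omega
    · by_cases hd : e ∣ v 2 - 1
      · obtain ⟨l, hl⟩ := hd
        have hv2 : v 2 = e * l + 1 := by omega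
        have hlN : l < N := by
          rw [hv2] at hv
          have : e * l < e * N := by omega
          exact Nat.lt_of_mul_lt_mul_left this
        have e2 : v 2 + (e - 1) = e * (l + 1) := by
          rw [hv2, mul_add, mul_one]
          omega
        rw [e2, hl, tau_mul he0, tau_mul he0, hv2]
        have e3 : ev P ^ (N - l) = ev P * ev P ^ (N - (l + 1)) := by
          rw [← pow_succ']
          congr 1
          omega
        have e4 := cc_two h m l
        have e5 : Polynomial.C (κ + β + m) * Polynomial.C (cc κ β (m + 1) (l + 1)) =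
            (Polynomial.C κ + (l : Polynomial ℂ)) * Polynomial.C (cc κ β m l) := by
          rw [← map_mul, e4, map_mul, map_add, map_natCast]
        have e6 : (e : Polynomial ℂ) * Polynomial.C κ = 1 := by
          rw [← map_natCast Polynomial.C, ← map_mul, hκ, map_one]
        rw [e3, Polynomial.smul_eq_C_mul, map_mul, map_mul, map_natCast, map_natCast]
        push_cast
        linear_combination (-(e : Polynomial ℂ) * Polynomial.C r * Polynomial.X ^ v 0 *
          cubP ^ (l + 1) * (ev P * ev P ^ (N - (l + 1)))) * e5 -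
          (Polynomial.C r * Polynomial.X ^ v 0 * Polynomial.C (cc κ β m l) *
          cubP ^ (l + 1) * (ev P * ev P ^ (N - (l + 1)))) * e6
      · have h2 : ¬ e ∣ v 2 + (e - 1) := by
          intro h3
          apply hd
          have h4 : v 2 + (e - 1) = (v 2 - 1) + e := by omega
          rwa [h4, Nat.dvd_add_self_right] at h3
        rw [tau_of_not hd, tau_of_not h2]
        simp
  have := eq_of_mono key hg
  rw [LinearMap.comp_apply, LinearMap.sub_apply, LinearMap.comp_apply, LinearMap.comp_apply,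
    LinearMap.mulLeft_apply, LinearMap.mulLeft_apply, LinearMap.mulRight_apply,
    LinearMap.zero_apply] at this
  exact this

theorem derivative_ev (hP : ∀ v ∈ P.support, v 2 = 0) :
    Polynomial.derivative (ev P) = ev (pderiv 0 P) := by
  conv_lhs => rw [P.as_sum]
  conv_rhs => rw [P.as_sum]
  simp only [map_sum]
  refine Finset.sum_congr rfl fun v hv => ?_
  have h1 : ∀ (u : Fin 3 →₀ ℕ) (a : ℂ), u 2 = 0 →
      ev (monomial u a) = Polynomial.C a * Polynomial.X ^ u 0 := by
    intro u a hu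
    unfold ev
    rw [aeval_monomial, Finsupp.prod_fintype _ _ (fun i => pow_zero _), Fin.prod_univ_three]
    simp [hu]
  rw [pderiv_monomial, h1 _ _ (hP v hv), h1, Polynomial.derivative_C_mul,
    Polynomial.derivative_X_pow, Finsupp.tsub_apply, Finsupp.single_eq_same, map_mul]
  · ring
  · rw [Finsupp.tsub_apply, hP v hv, Nat.zero_sub]

theorem mul_derivative_pow (A : Polynomial ℂ) (n : ℕ) :
    A * Polynomial.derivative (A ^ n) = (n : Polynomial ℂ) * A ^ n * Polynomial.derivative A := by
  rcases n with _ | n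
  · simp
  · rw [Polynomial.derivative_pow, Nat.add_sub_cancel, map_natCast]
    push_cast
    ring

/-- The derivatives with respect to `x_0`. -/
theorem T_zero (h : NR κ β) (he : 0 < e) {N : ℕ}
    (hP : ∀ v ∈ P.support, v 2 = 0) (m : ℕ)
    {g : MvPolynomial (Fin 3) ℂ} (hg : Lt2 (e * N) g) :
    cubP * ev P * Polynomial.derivative (T e κ β N (ev P) m g) -
      (Polynomial.C ((m : ℂ) + β) * Polynomial.derivative cubP * ev P +
        Polynomial.C ((N : ℂ) + κ) * cubP * Polynomial.derivative (ev P)) *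
        T e κ β N (ev P) m g =
    ev P * T e κ β N (ev P) (m + 1)
      (gw e P * pderiv 0 g - C (κ + β + m) * (g * pderiv 0 (gw e P))) := by
  have key : ∀ (v : Fin 3 →₀ ℕ) (r : ℂ), v 2 < e * N →
      (((LinearMap.mulLeft ℂ (cubP * ev P)).comp Polynomial.derivative -
        LinearMap.mulLeft ℂ (Polynomial.C ((m : ℂ) + β) * Polynomial.derivative cubP * ev P +
        Polynomial.C ((N : ℂ) + κ) * cubP * Polynomial.derivative (ev P))).comp
        (T e κ β N (ev P) m)) (monomial v r) =
      ((LinearMap.mulLeft ℂ (ev P)).comp ((T e κ β N (ev P) (m + 1)).comp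
        (((LinearMap.mulLeft ℂ (gw e P)).comp
        (pderiv 0 : Derivation ℂ (MvPolynomial (Fin 3) ℂ) _).toLinearMap) -
        (LinearMap.mulLeft ℂ (C (κ + β + m))).comp
          (LinearMap.mulRight ℂ (pderiv 0 (gw e P)))))) (monomial v r) := by
    intro v r hv
    simp only [LinearMap.comp_apply, LinearMap.sub_apply, LinearMap.mulLeft_apply,
      LinearMap.mulRight_apply]
    change _ = ev P * T e κ β N (ev P) (m + 1) (gw e P * pderiv 0 (monomial v r) -
      C (κ + β + m) * (monomial v r * pderiv 0 (gw e P)))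
    rw [map_sub, T_gw_mul h he hP m (lt2_pderiv_monomial hv r 0), pderiv_zero_gw]
    have e1 : C (κ + β + m) * (monomial v r * (C 3 * X 0 ^ 2 + pderiv 0 P * X 2 ^ e)) =
        C (κ + β + m) * (C 3 * (X 0 ^ 2 * monomial v r) +
          pderiv 0 P * (X 2 ^ e * monomial v r)) := by
      ring
    have hP0 : ∀ v ∈ (pderiv 0 P).support, v 2 = 0 := by
      intro u hu
      by_contra hcon
      rw [mem_support_iff] at hu
      apply hu
      rw [P.as_sum, map_sum, coeff_sum]
      refine Finset.sum_eq_zero fun v hv => ?_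
      rw [pderiv_monomial, coeff_monomial, if_neg]
      intro h1
      apply hcon
      rw [← h1, Finsupp.tsub_apply, hP v hv, Nat.zero_sub]
    have e1' : T e κ β N (ev P) (m + 1) (C (κ + β + m) * (C 3 * (X 0 ^ 2 * monomial v r) +
          pderiv 0 P * (X 2 ^ e * monomial v r))) =
        Polynomial.C (κ + β + m) * (Polynomial.C 3 * (Polynomial.X ^ 2 * (Polynomial.C r *
          (Polynomial.X ^ v 0 * tau e κ β N (ev P) (m + 1) (v 2)))) +
          Polynomial.derivative (ev P) * (Polynomial.C r *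
          (Polynomial.X ^ v 0 * tau e κ β N (ev P) (m + 1) (v 2 + e)))) := by
      rw [← smul_eq_C_mul, ← smul_eq_C_mul (X 0 ^ 2 * monomial v r), LinearMap.map_smul,
        LinearMap.map_add, LinearMap.map_smul,
        T_mul e N _ _ (supp_X0_pow 2 0 (by decide)), T_mul e N _ _ hP0, T_X2_pow, T_monomial,
        map_pow ev, ev_X0, ← derivative_ev hP, Polynomial.smul_eq_C_mul, Polynomial.smul_eq_C_mul]
    have hs2 : (Finsupp.single (0 : Fin 3) 1 : Fin 3 →₀ ℕ) 2 = 0 :=
      Finsupp.single_eq_of_ne (by decide)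
    rw [e1, e1', pderiv_monomial, T_monomial, T_monomial, Finsupp.tsub_apply, Finsupp.tsub_apply,
      hs2, Finsupp.single_eq_same, Nat.sub_zero]
    by_cases hd : e ∣ v 2
    · obtain ⟨l, hl⟩ := hd
      have hlN : l < N := by
        rw [hl] at hv
        exact Nat.lt_of_mul_lt_mul_left hv
      have e2 : v 2 + e = e * (l + 1) := by rw [hl]; ring
      rw [e2, hl, tau_mul he, tau_mul he, tau_mul he]
      obtain ⟨M, rfl⟩ : ∃ M, N = l + 1 + M := ⟨N - (l + 1), by omega⟩
      have e3 : l + 1 + M - l = M + 1 := by omega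
      have e3' : l + 1 + M - (l + 1) = M := by omega
      rw [e3, e3']
      have e4 := cc_two h m l
      have e4' := cc_one h m l
      have e5 : Polynomial.C (κ + β + m) * Polynomial.C (cc κ β (m + 1) (l + 1)) =
          (Polynomial.C κ + (l : Polynomial ℂ)) * Polynomial.C (cc κ β m l) := by
        rw [← map_mul, e4, map_mul, map_add, map_natCast]
      have e5' : Polynomial.C (κ + β + m) * Polynomial.C (cc κ β (m + 1) l) =
          (Polynomial.C β + (m : Polynomial ℂ) - (l : Polynomial ℂ)) * Polynomial.C (cc κ β m l) := by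
        rw [← map_mul, e4', map_mul, map_sub, map_add, map_natCast, map_natCast]
      have e6 := mul_derivative_pow cubP l
      have e7 := mul_derivative_pow (ev P) (M + 1)
      have hdc : Polynomial.derivative cubP = Polynomial.C 3 * Polynomial.X ^ 2 := by
        unfold cubP
        rw [map_add, Polynomial.derivative_X_pow, Polynomial.derivative_one, add_zero]
        norm_num
      rw [Polynomial.derivative_C_mul, Polynomial.derivative_mul, Polynomial.derivative_C_mul,
        Polynomial.derivative_mul, Polynomial.derivative_X_pow]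
      have e8 : Polynomial.C (3 : ℂ) * (Polynomial.X ^ 2 * (Polynomial.C r * (Polynomial.X ^ v 0 *
          (Polynomial.C (cc κ β (m + 1) l) * (cubP ^ l * ev P ^ (M + 1)))))) =
          Polynomial.derivative cubP * (Polynomial.C r * (Polynomial.X ^ v 0 *
          (Polynomial.C (cc κ β (m + 1) l) * (cubP ^ l * ev P ^ (M + 1))))) := by
        rw [hdc]
        ring
      rw [e8, map_add, map_add, map_mul, map_natCast, map_natCast, map_natCast]
      push_cast at e7 ⊢
      linear_combination (Polynomial.C r * Polynomial.X ^ v 0 * Polynomial.C (cc κ β m l) *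
          (ev P * ev P ^ (M + 1))) * e6 + (Polynomial.C r * Polynomial.X ^ v 0 *
          Polynomial.C (cc κ β m l) * (cubP * cubP ^ l)) * e7 +
          (ev P * Polynomial.derivative cubP * Polynomial.C r * Polynomial.X ^ v 0 * cubP ^ l *
            ev P ^ (M + 1)) * e5' +
          (ev P * Polynomial.derivative (ev P) * Polynomial.C r * Polynomial.X ^ v 0 *
            cubP ^ (l + 1) * ev P ^ M) * e5
    · have h2 : ¬ e ∣ v 2 + e := by
        rwa [Nat.dvd_add_self_right]
      rw [tau_of_not hd, tau_of_not hd, tau_of_not h2]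
      simp
  have := eq_of_mono key hg
  simp only [LinearMap.comp_apply, LinearMap.sub_apply, LinearMap.mulLeft_apply,
      LinearMap.mulRight_apply] at this
  exact this

end T3

end MPb07157
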